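import Mathlib

/-!
Contour shifts for Mellin transforms.
-/

set_option autoImplicit false

namespace Pool.Agent.H62Z.KM

open MeasureTheory Set Filter Topology Complex Asymptotics

/-- Quadratic decay in every vertical strip inside the half plane. -/
def Decay (α : ℝ) (g : ℂ → ℂ) : Prop :=
  ∀ s1 s2 : ℝ, α < s1 → ∃ K : ℝ, ∀ w : ℂ, s1 ≤ w.re → w.re ≤ s2 → ‖g w‖ ≤ K * (1 + w.im ^ 2)⁻¹

lemma vert_integrable {α : ℝ} {g : ℂ → ℂ} (hg : DifferentiableOn ℂ g {w | α < w.re})
    (hd : Decay α g) {σ : ℝ} (hσ : α < σ) : Integrable fun t : ℝ => g (σ + t * I) := by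
  obtain ⟨K, hK⟩ := hd σ σ hσ
  have hc : Continuous fun t : ℝ => g (σ + t * I) :=
    hg.continuousOn.comp_continuous (by fun_prop) fun t => by simpa using hσ
  refine (integrable_inv_one_add_sq.const_mul K).mono' hc.aestronglyMeasurable
    (Eventually.of_forall fun t => ?_)
  simpa using hK (σ + t * I) (by simp) (by simp)

lemma shift {α : ℝ} {g : ℂ → ℂ} (hg : DifferentiableOn ℂ g {w | α < w.re})
    (hd : Decay α g) {s1 s2 : ℝ} (h1 : α < s1) (h12 : s1 ≤ s2) :
    ∫ t : ℝ, g (s1 + t * I) = ∫ t : ℝ, g (s2 + t * I) := by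
  obtain ⟨K, hK⟩ := hd s1 s2 h1
  have i1 := intervalIntegral_tendsto_integral (vert_integrable hg hd h1)
    tendsto_neg_atTop_atBot tendsto_id
  have i2 := intervalIntegral_tendsto_integral (vert_integrable hg hd (h1.trans_le h12))
    tendsto_neg_atTop_atBot tendsto_id
  have hb : ∀ T : ℝ, ‖∫ x : ℝ in s1..s2, g (x + T * I)‖ ≤ K * (1 + T ^ 2)⁻¹ * |s2 - s1| := by
    intro T
    refine intervalIntegral.norm_integral_le_of_norm_le_const fun x hx => ?_
    rw [uIoc_of_le h12] at hx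
    simpa using hK (x + T * I) (by simpa using hx.1.le) (by simpa using hx.2)
  have hlim : Tendsto (fun T : ℝ => K * (1 + T ^ 2)⁻¹ * |s2 - s1|) atTop (𝓝 0) := by
    have : Tendsto (fun T : ℝ => (1 + T ^ 2)⁻¹) atTop (𝓝 0) :=
      tendsto_inv_atTop_zero.comp
        (tendsto_atTop_add_const_left _ _ (tendsto_pow_atTop two_ne_zero))
    simpa using (this.const_mul K).mul_const |s2 - s1|
  have t1 : Tendsto (fun T : ℝ => ∫ x : ℝ in s1..s2, g (x + T * I)) atTop (𝓝 0) :=
    squeeze_zero_norm hb hlim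
  have t2 : Tendsto (fun T : ℝ => ∫ x : ℝ in s1..s2, g (x + (-T : ℝ) * I)) atTop (𝓝 0) :=
    squeeze_zero_norm (fun T => by simpa using hb (-T)) hlim
  have key : ∀ T : ℝ, (∫ x : ℝ in s1..s2, g (x + (-T : ℝ) * I)) -
      (∫ x : ℝ in s1..s2, g (x + T * I)) + I • (∫ y : ℝ in (-T)..T, g (s2 + y * I)) -
      I • (∫ y : ℝ in (-T)..T, g (s1 + y * I)) = 0 := fun T =>
    integral_boundary_rect_eq_zero_of_differentiableOn g ⟨s1, -T⟩ ⟨s2, T⟩ (hg.mono fun w hw => by
      have := hw.1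
      simp only [mem_preimage, uIcc_of_le h12] at this
      exact h1.trans_le this.1)
  have t3 := ((t2.sub t1).add (i2.const_smul I)).sub (i1.const_smul I)
  have t4 := tendsto_nhds_unique t3 (tendsto_const_nhds.congr fun T => (key T).symm)
  simp only [sub_self, zero_add, smul_eq_mul, ← mul_sub, mul_eq_zero, I_ne_zero, false_or] at t4
  exact (sub_eq_zero.mp t4).symm

lemma decay_cpow {α : ℝ} {Φ : ℂ → ℂ} (hd : Decay α Φ) {y : ℝ} (hy : 0 < y) :
    Decay α fun w => (y : ℂ) ^ (-w) * Φ w := by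
  intro s1 s2 h1
  obtain ⟨K, hK⟩ := hd s1 s2 h1
  refine ⟨(y ^ (-s1) + y ^ (-s2)) * K, fun w hw1 hw2 => ?_⟩
  rw [norm_mul, norm_cpow_eq_rpow_re_of_pos hy, mul_assoc]
  refine mul_le_mul ?_ (hK w hw1 hw2) (norm_nonneg _) (by positivity)
  rcases le_total y 1 with h | h
  · have := Real.rpow_le_rpow_of_exponent_ge hy h (show -s2 ≤ (-w).re by simpa using hw2)
    have h2 : 0 ≤ y ^ (-s1) := by positivity
    linarith
  · have := Real.rpow_le_rpow_of_exponent_le h (show (-w).re ≤ -s1 by simpa using hw1)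
    have h2 : 0 ≤ y ^ (-s2) := by positivity
    linarith

lemma isBigO_of_bound {f : ℝ → ℂ} {b K : ℝ} (h : ∀ y, 0 < y → y ^ b * ‖f y‖ ≤ K) {l : Filter ℝ}
    (hl : ∀ᶠ y in l, 0 < y) : f =O[l] (· ^ (-b)) := by
  refine IsBigO.of_bound K (hl.mono fun y hy => ?_)
  have h1 : 0 < y ^ b := Real.rpow_pos_of_pos hy b
  rw [Real.norm_eq_abs, abs_of_pos (Real.rpow_pos_of_pos hy _), Real.rpow_neg hy.le,
    ← div_eq_mul_inv, le_div_iff₀ h1, mul_comm]
  exact h y hy

lemma mellin_extend {α c : ℝ} {f : ℝ → ℂ} {Φ : ℂ → ℂ} (hf : ContinuousOn f (Ioi 0))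
    (hfb : ∀ N : ℕ, c ≤ N → ∃ K : ℝ, ∀ y, 0 < y → y ^ (N : ℝ) * ‖f y‖ ≤ K)
    (hm : ∀ w : ℂ, c ≤ w.re → mellin f w = Φ w)
    (hΦ : DifferentiableOn ℂ Φ {w | α < w.re}) (hd : Decay α Φ) :
    (∀ b : ℝ, α < b → ∃ K : ℝ, ∀ y, 0 < y → y ^ b * ‖f y‖ ≤ K) ∧
      ∀ w : ℂ, α < w.re → HasMellin f w (Φ w) := by
  have hloc : LocallyIntegrableOn f (Ioi 0) := hf.locallyIntegrableOn measurableSet_Ioi
  have htop : ∀ᶠ y : ℝ in atTop, 0 < y := eventually_gt_atTop 0
  have hbot : ∀ᶠ y : ℝ in 𝓝[>] 0, 0 < y := self_mem_nhdsWithin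
  have part1 : ∀ b : ℝ, α < b → ∃ K : ℝ, ∀ y, 0 < y → y ^ b * ‖f y‖ ≤ K := by
    intro b hb
    obtain ⟨N, hN⟩ := exists_nat_ge (max c b)
    have hN1 : c ≤ N := (le_max_left _ _).trans hN
    have hN2 : b ≤ N := (le_max_right _ _).trans hN
    obtain ⟨K1, hK1⟩ := hfb N hN1
    obtain ⟨K2, hK2⟩ := hfb (N + 2) (by push_cast; linarith)
    have hconv : MellinConvergent f ((N + 1 : ℝ) : ℂ) :=
      mellinConvergent_of_isBigO_rpow hloc (isBigO_of_bound hK2 htop)
        (by simp only [ofReal_re]; push_cast; linarith) (isBigO_of_bound hK1 hbot)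
        (by simp only [ofReal_re]; linarith)
    have heq : ∀ t : ℝ, mellin f ((N + 1 : ℝ) + t * I) = Φ ((N + 1 : ℝ) + t * I) := fun t =>
      hm _ (by simp; linarith)
    have hvi : VerticalIntegrable (mellin f) (N + 1 : ℝ) := by
      unfold VerticalIntegrable
      simp only [heq]
      exact vert_integrable hΦ hd (by linarith)
    refine ⟨1 / (2 * Real.pi) * ∫ t : ℝ, ‖Φ (b + t * I)‖, fun y hy => ?_⟩
    have h1 := mellinInv_mellin_eq (N + 1 : ℝ) f hy hconv hvi
      (hf.continuousAt (Ioi_mem_nhds hy))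
    have hg : DifferentiableOn ℂ (fun w => (y : ℂ) ^ (-w) * Φ w) {w | α < w.re} :=
      DifferentiableOn.mul (fun w _ => (DifferentiableAt.const_cpow differentiableAt_id.neg
        (Or.inl (ofReal_ne_zero.mpr hy.ne'))).differentiableWithinAt) hΦ
    have h2 := shift hg (decay_cpow hd hy) hb (show b ≤ (N + 1 : ℝ) by linarith)
    rw [mellinInv] at h1
    simp only [heq, smul_eq_mul] at h1
    rw [← h1, ← h2, norm_smul, Real.norm_eq_abs, abs_of_pos (by positivity), mul_left_comm]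
    gcongr
    refine (mul_le_mul_of_nonneg_left (norm_integral_le_integral_norm _) (by positivity)).trans ?_
    rw [← integral_const_mul]
    refine le_of_eq (integral_congr_ae (Eventually.of_forall fun t => ?_))
    simp only
    rw [norm_mul, norm_cpow_eq_rpow_re_of_pos hy, ← mul_assoc, ← Real.rpow_add hy]
    simp
  refine ⟨part1, fun w hw => ?_⟩
  have hboth : ∀ w : ℂ, α < w.re → MellinConvergent f w ∧ DifferentiableAt ℂ (mellin f) w := by
    intro w hw
    obtain ⟨K1, hK1⟩ := part1 ((α + w.re) / 2) (by linarith)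
    obtain ⟨K2, hK2⟩ := part1 (w.re + 1) (by linarith)
    exact ⟨mellinConvergent_of_isBigO_rpow hloc (isBigO_of_bound hK2 htop) (by linarith)
      (isBigO_of_bound hK1 hbot) (by linarith),
      mellin_differentiableAt_of_isBigO_rpow hloc (isBigO_of_bound hK2 htop) (by linarith)
      (isBigO_of_bound hK1 hbot) (by linarith)⟩
  refine ⟨(hboth w hw).1, ?_⟩
  have hU : IsOpen {w : ℂ | α < w.re} := isOpen_lt continuous_const continuous_re
  have a1 : AnalyticOnNhd ℂ (mellin f) {w | α < w.re} :=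
    DifferentiableOn.analyticOnNhd (fun w hw => (hboth w hw).2.differentiableWithinAt) hU
  have a2 := hΦ.analyticOnNhd hU
  refine a1.eqOn_of_preconnected_of_eventuallyEq a2 (convex_halfSpace_re_gt α).isPreconnected
    (z₀ := ((max α c + 1 : ℝ) : ℂ)) ?_ ?_ hw
  · show α < _
    rw [ofReal_re]; linarith [le_max_left α c]
  · have : {w : ℂ | c < w.re} ∈ 𝓝 ((max α c + 1 : ℝ) : ℂ) :=
      (isOpen_lt continuous_const continuous_re).mem_nhds (by
        show c < _
        rw [ofReal_re]; linarith [le_max_right α c])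
    filter_upwards [this] with w hw using hm w (le_of_lt hw)

lemma norm_Gamma_le_real {s : ℂ} (hs : 0 < s.re) : ‖Gamma s‖ ≤ Real.Gamma s.re := by
  rw [Complex.Gamma_eq_integral hs, Real.Gamma_eq_integral hs, GammaIntegral]
  refine (norm_integral_le_integral_norm _).trans (le_of_eq ?_)
  refine setIntegral_congr_fun measurableSet_Ioi fun x hx => ?_
  rw [norm_mul, norm_cpow_eq_rpow_re_of_pos hx, Complex.norm_real, Real.norm_eq_abs,
    abs_of_pos (Real.exp_pos _)]
  simp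

lemma gamma_decay {s1 s2 : ℝ} (h1 : 0 < s1) : ∃ K : ℝ, 0 ≤ K ∧ ∀ w : ℂ, s1 ≤ w.re → w.re ≤ s2 →
    ‖Gamma w‖ * (1 + w.im ^ 2) ^ 2 ≤ K := by
  have hc : ContinuousOn Real.Gamma (Icc (s1 + 4) (s2 + 4)) := fun x hx =>
    (Real.differentiableAt_Gamma fun m => by
      have : (0 : ℝ) ≤ m := by positivity
      have := hx.1
      intro h; linarith).continuousAt.continuousWithinAt
  obtain ⟨G, hG⟩ := isCompact_Icc.exists_bound_of_continuousOn hc
  set m := min 1 (s1 ^ 2) with hm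
  have hm0 : 0 < m := by positivity
  refine ⟨|G| / m ^ 2, by positivity, fun w hw1 hw2 => ?_⟩
  have hw0 : 0 < w.re := h1.trans_le hw1
  have hne : ∀ k : ℝ, 0 ≤ k → w + k ≠ 0 := fun k hk h => by
    have := congrArg re h
    simp at this; linarith
  have hlow : ∀ k : ℝ, 0 ≤ k → m * (1 + w.im ^ 2) ≤ ‖w + k‖ ^ 2 := fun k hk => by
    rw [Complex.sq_norm, normSq_apply]
    simp only [add_re, ofReal_re, add_im, ofReal_im, add_zero]
    have a1 : m ≤ 1 := min_le_left _ _
    have a2 : m ≤ s1 ^ 2 := min_le_right _ _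
    nlinarith [sq_nonneg w.im]
  have e : Gamma (w + 4) = (w + (3 : ℝ)) * (w + (2 : ℝ)) * (w + (1 : ℝ)) * (w + (0 : ℝ)) * Gamma w := by
    have g1 := Complex.Gamma_add_one w (by simpa using hne 0 le_rfl)
    have g2 := Complex.Gamma_add_one (w + 1) (by simpa using hne 1 (by norm_num))
    have g3 := Complex.Gamma_add_one (w + 1 + 1) (by
      have := hne 2 (by norm_num)
      rwa [show w + 1 + 1 = w + (2 : ℝ) by push_cast; ring])
    have g4 := Complex.Gamma_add_one (w + 1 + 1 + 1) (by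
      have := hne 3 (by norm_num)
      rwa [show w + 1 + 1 + 1 = w + (3 : ℝ) by push_cast; ring])
    rw [show w + 4 = w + 1 + 1 + 1 + 1 by ring, g4, g3, g2, g1]
    push_cast; ring
  have hb : ‖Gamma (w + 4)‖ ≤ |G| := by
    refine (norm_Gamma_le_real (by simp; linarith)).trans ?_
    have := hG (w + 4).re ⟨by simp; linarith, by simp; linarith⟩
    exact (le_abs_self _).trans (this.trans (le_abs_self _))
  rw [e, norm_mul, norm_mul, norm_mul, norm_mul] at hb
  have l0 := hlow 0 le_rfl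
  have l1 := hlow 1 (by norm_num)
  have l2 := hlow 2 (by norm_num)
  have l3 := hlow 3 (by norm_num)
  have hX : 0 ≤ m * (1 + w.im ^ 2) := by positivity
  have p1 : m * (1 + w.im ^ 2) ≤ ‖w + (3 : ℝ)‖ * ‖w + (2 : ℝ)‖ :=
    abs_le_of_sq_le_sq' (by
      rw [mul_pow ‖w + (3 : ℝ)‖, sq (m * _)]
      exact mul_le_mul l3 l2 hX (by positivity)) (by positivity) |>.2
  have p2 : m * (1 + w.im ^ 2) ≤ ‖w + (1 : ℝ)‖ * ‖w + (0 : ℝ)‖ :=
    abs_le_of_sq_le_sq' (by
      rw [mul_pow ‖w + (1 : ℝ)‖, sq (m * _)]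
      exact mul_le_mul l1 l0 hX (by positivity)) (by positivity) |>.2
  rw [le_div_iff₀ (by positivity)]
  refine le_trans ?_ hb
  have p3 := mul_le_mul p1 p2 hX (by positivity)
  have := mul_le_mul_of_nonneg_right p3 (norm_nonneg (Gamma w))
  calc _ = m * (1 + w.im ^ 2) * (m * (1 + w.im ^ 2)) * ‖Gamma w‖ := by ring
    _ ≤ _ := this
    _ = _ := by ring

end Pool.Agent.H62Z.KM
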