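import Pool.Agent.H62Z.R3Step

/-!
Large weighted sets in cyclic groups.
-/

set_option autoImplicit false

namespace Pool.Agent.H62Z.R3

open Finset
open Pool.Agent.H309R2.AP3 (Par opK opZ opY opKZ kz opKZ_mono kz_grow Cert kz1_pos kz2_pos3)

/-- transport along an isomorphism -/
def Fam.map {G G' : Type} [AddCommGroup G] [AddCommGroup G'] {ε B : ℝ} (F : Fam G ε B)
    (e : G ≃+ G') : Fam G' ε B where
  K i := (F.K i).map e.toEquiv.toEmbedding
  Z j := (F.Z j).map e.toEquiv.toEmbedding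
  hK i := wt_comap (F.hK i) e.symm.toAddMonoidHom e.symm.injective fun x hx => by
    simpa using hx
  hZ j := wt_comap (F.hZ j) e.symm.toAddMonoidHom e.symm.injective fun x hx => by
    simpa using hx
  h i₁ i₂ j hij x hx z hz := by
    rw [mem_map_equiv] at hx hz ⊢
    have := F.h i₁ i₂ j hij _ hx _ hz
    intro h
    apply this
    change e.symm x + e.symm z ∈ _
    rw [← map_add]; exact h

lemma wt_single {G : Type} [AddCommGroup G] {ε B : ℝ} (hB : 0 ≤ B) (a : G) : Wt ε B {a} :=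
  ⟨fun _ => 0, by simpa using hB, by simp⟩

/-- the trivial family -/
def base (G : Type) [AddCommGroup G] (ε : ℝ) : Fam G ε 0 where
  K i := if 1 ≤ i then {0} else ∅
  Z _ := ∅
  hK i := by
    split_ifs
    · exact wt_single le_rfl _
    · exact wt_empty
  hZ _ := wt_empty
  h := by simp

lemma base_card (G : Type) [AddCommGroup G] (ε : ℝ) (i : ℕ) :
    ((base G ε).K i).card = if 1 ≤ i then 1 else 0 := by
  simp only [base]
  split_ifs <;> simp

/-- bounds -/
noncomputable def bn (T : ℝ) : ℕ → ℝ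
  | 0 => 0
  | n + 1 => nB T (bn T n)

lemma bn_nonneg (T : ℝ) (n : ℕ) : 0 ≤ bn T n := by
  induction n with
  | zero => exact le_rfl
  | succ n ih => unfold bn nB; positivity

/-- effective cell length -/
def qq (H J p : ℕ) : ℕ := (p + 1) / 2 / H - (p + 1) / 2 / H / J

/-- admissible moduli -/
def Adm (H J : ℕ) (ε : ℝ) (p : ℕ) : Prop := Odd p ∧ 2 * H * J ≤ p ∧ ε * p ^ 2 ≤ 1

lemma fam_list {H J : ℕ} {t nu : ℕ → ℕ} (hH : 2 ≤ H) (hJ : 1 ≤ J)
    (hnu : ∀ b ≤ H, ∀ a₁ a₂, a₁ + a₂ ≤ b → t a₁ + t a₂ ≤ nu b) {ε : ℝ} (hε : 0 ≤ ε)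
    (ps : List ℕ) (h1 : ps.Pairwise Nat.Coprime) (h2 : ∀ p ∈ ps, Adm H J ε p) :
    ∃ F : Fam (ZMod ps.prod) ε (bn (8 * H * J) ps.length),
      (∀ i, (ps.map (qq H J)).prod * (kz H t nu ps.length).1 i ≤ (F.K i).card) ∧
      ∀ j, (ps.map (qq H J)).prod * (kz H t nu ps.length).2 j ≤ (F.Z j).card := by
  induction ps with
  | nil =>
    refine ⟨base _ ε, fun i => ?_, fun j => by simp [kz]⟩
    exact le_trans (by simp [kz]) (base_card _ ε i).ge
  | cons p ps ih =>
    rw [List.pairwise_cons] at h1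
    obtain ⟨F, F1, F2⟩ := ih h1.2 fun q hq => h2 q (List.mem_cons_of_mem _ hq)
    obtain ⟨⟨P, hP⟩, a2, a3⟩ := h2 p List.mem_cons_self
    have hodd : Odd ps.prod := by
      refine List.prod_induction _ (fun _ _ => Odd.mul) odd_one fun q hq => ?_
      exact (h2 q (List.mem_cons_of_mem _ hq)).1
    have : NeZero ps.prod := ⟨hodd.pos.ne'⟩
    have : NeZero p := ⟨by omega⟩
    have hG := inj2_zmod hodd
    have hc : p.Coprime ps.prod := Nat.coprime_list_prod_right_iff.mpr h1.1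
    have e0 : (p + 1) / 2 = P + 1 := by omega
    set q := (P + 1) / H with hq
    have hH0 : 0 < H := by omega
    have hqJ : J ≤ q := by
      rw [hq, Nat.le_div_iff_mul_le hH0]; nlinarith
    let π : Par := ⟨P, q, H, (P + 1) % H, t, nu, (Nat.div_add_mod _ _).symm, by omega, hH, hnu⟩
    have b1 : P + 1 < H * (q + 1) := Nat.lt_mul_div_succ _ hH0
    have b2 : q < J * (q / J + 1) := Nat.lt_mul_div_succ _ (by omega)
    have b3 : 1 ≤ q / J := (Nat.le_div_iff_mul_le (by omega)).mpr (by omega)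
    have hg : q / J ≤ p := le_trans (Nat.div_le_self _ _) (le_trans (Nat.div_le_self _ _) (by omega))
    have hT : (p : ℝ) ≤ (8 * H * J) * ((q / J : ℕ) : ℝ) := by
      have b4 : q + 1 ≤ J * (2 * (q / J)) := le_trans b2 (Nat.mul_le_mul_left _ (by omega))
      have b5 : H * (q + 1) ≤ H * (J * (2 * (q / J))) := Nat.mul_le_mul_left _ b4
      have : p ≤ 8 * H * J * (q / J) := by nlinarith
      exact_mod_cast this
    let F' := next π F (q / J) hP hG (bn_nonneg _ _) hε a3 hg hT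
    refine ⟨F'.map (ZMod.chineseRemainder hc).symm.toAddEquiv, ?_⟩
    obtain ⟨k1, k2⟩ := opKZ_mono (H := H) (t := t) (nu := nu) (a := (ps.map (qq H J)).prod)
      (b := 1) (w1 := kz H t nu ps.length)
      (w2 := (fun i => (F.K i).card, fun j => (F.Z j).card))
      (fun i => by rw [one_mul]; exact F1 i) (fun j => by rw [one_mul]; exact F2 j)
    have e1 : qq H J p = q - q / J := by unfold qq; rw [e0]
    simp only [Fam.map, card_map, List.map_cons, List.prod_cons, List.length_cons, kz, e1,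
      mul_assoc]
    refine ⟨fun i => ?_, fun j => ?_⟩
    · refine le_trans (Nat.mul_le_mul_left _ (k1 i)) ?_
      rw [one_mul]
      exact card_nK π F _ hP hG i
    · refine le_trans (Nat.mul_le_mul_left _ (k2 j)) ?_
      rw [one_mul]
      simp only [opKZ]
      split_ifs with hj
      · exact card_nZ π F _ hP hG hj
      · exact card_nY π F _ hP hj

lemma cert_grow {H : ℕ} {t nu k z : ℕ → ℕ} {Rn Rd C : ℕ} (hH : 2 ≤ H)
    (h : Cert H t nu k z Rn Rd C) : ∃ i, ∀ m, Rn ^ m ≤ Rd ^ m * C * (kz H t nu (3 + m)).1 i := by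
  have hgrow := kz_grow (H := H) (t := t) (nu := nu) (w := (k, z)) (Rn := Rn) (Rd := Rd)
    (C := C) (n0 := 3) (fun i => h.h1 i) (fun j => by
      simp only [opKZ]
      split_ifs with hj
      · rcases Nat.lt_or_ge j H with h5 | h5
        · rw [h.hz0 j h5]
          have : j - H = 0 := by omega
          rw [this]
          exact h.h2 0 (by omega)
        · have e1 : z j = z (H + (j - H)) := by congr 1; omega
          rw [e1]
          exact h.h2 (j - H) (by omega)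
      · have e1 : z j = z (2 * H + (j - 2 * H)) := by congr 1; omega
        rw [e1]
        exact h.h3 (j - 2 * H) (by omega))
    (fun i => by
      simp only
      rcases Nat.eq_zero_or_pos i with h5 | h5
      · rw [h5, h.hk0]; exact Nat.zero_le _
      · calc k i ≤ C * 1 := by rw [mul_one]; exact h.hkC i
          _ ≤ C * (kz H t nu 3).1 i := Nat.mul_le_mul_left _ (kz1_pos hH h.ht1 3 i h5))
    (fun j => by
      simp only
      rcases Nat.lt_or_ge j (3 * H) with h5 | h5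
      · calc z j ≤ C * 1 := by rw [mul_one]; exact h.hzC j
          _ ≤ C * (kz H t nu 3).2 j :=
            Nat.mul_le_mul_left _ (kz2_pos3 hH h.ht1 h.hn0 h.hn1 h.hn2 j h5)
      · rw [h.hz3 j h5]; exact Nat.zero_le _)
  obtain ⟨i, hi⟩ := h.hk1
  exact ⟨i, fun m => le_trans (Nat.le_mul_of_pos_right _ hi) ((hgrow m).1 i)⟩

lemma qq_ge {H J p : ℕ} (hH : 2 ≤ H) (hJ : 1 ≤ J) (hp : 2 * H * J ≤ p) (hodd : Odd p) :
    (1 - 1 / (J : ℝ)) ^ 2 / (2 * H) * p ≤ qq H J p := by
  obtain ⟨P, hP⟩ := hodd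
  have e0 : (p + 1) / 2 = P + 1 := by omega
  unfold qq
  rw [e0]
  set q := (P + 1) / H with hq
  have b1 : P + 1 < H * (q + 1) := Nat.lt_mul_div_succ _ (by omega)
  rw [Nat.cast_sub (Nat.div_le_self _ _)]
  have hJ' : (1 : ℝ) ≤ J := by exact_mod_cast hJ
  have hH' : (2 : ℝ) ≤ H := by exact_mod_cast hH
  have c1 : ((q / J : ℕ) : ℝ) ≤ q / J := Nat.cast_div_le
  have c2 : (p : ℝ) ≤ 2 * H * (q + 1) := by
    have : p ≤ 2 * H * (q + 1) := by nlinarith
    exact_mod_cast this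
  have c3 : 2 * H * J ≤ (p : ℝ) := by exact_mod_cast hp
  have c4 : 0 ≤ 1 - 1 / (J : ℝ) := by rw [sub_nonneg, div_le_one (by linarith)]; exact hJ'
  have c5 : (1 - 1 / (J : ℝ)) / (2 * H) * p ≤ q := by
    rw [div_mul_eq_mul_div, div_le_iff₀ (by linarith)]
    have : 2 * (H : ℝ) ≤ 1 / J * p := by
      rw [one_div, ← div_eq_inv_mul, le_div_iff₀ (by linarith)]; exact c3
    nlinarith
  calc (1 - 1 / (J : ℝ)) ^ 2 / (2 * H) * p = (1 - 1 / J) * ((1 - 1 / (J : ℝ)) / (2 * H) * p) := by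
        ring
    _ ≤ (1 - 1 / J) * q := by gcongr
    _ = q - q / J := by ring
    _ ≤ _ := by linarith

lemma block {H J : ℕ} {t nu k z : ℕ → ℕ} {Rn Rd C : ℕ} (hH : 2 ≤ H) (hJ : 2 ≤ J) (hRd : 0 < Rd)
    (h : Cert H t nu k z Rn Rd C) {l : ℝ} (hl0 : 0 < l)
    (hl : l < (1 - 1 / (J : ℝ)) ^ 2 / (2 * H) * (Rn / Rd)) :
    ∃ (D : ℕ) (B : ℝ), 0 < D ∧ 0 ≤ B ∧ ∀ ε : ℝ, 0 ≤ ε → ∀ ps : List ℕ, ps.length = D →
      ps.Pairwise Nat.Coprime → (∀ p ∈ ps, Adm H J ε p) →
      ∃ S : Finset (ZMod ps.prod), Wt ε B S ∧ l ^ D * ps.prod ≤ S.card := by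
  obtain ⟨i, hi⟩ := cert_grow hH h
  set θ := (1 - 1 / (J : ℝ)) ^ 2 / (2 * H) with hθ
  have hJ' : (2 : ℝ) ≤ J := by exact_mod_cast hJ
  have hH' : (2 : ℝ) ≤ H := by exact_mod_cast hH
  have hθ0 : 0 < θ := by
    have : 0 < 1 - 1 / (J : ℝ) := by rw [sub_pos, div_lt_one (by linarith)]; linarith
    positivity
  have hRd' : (0 : ℝ) < Rd := by exact_mod_cast hRd
  obtain ⟨m, hm⟩ := pow_unbounded_of_one_lt (C * l ^ 3 / θ ^ 3) ((one_lt_div hl0).mpr hl)
  refine ⟨3 + m, bn (8 * H * J) (3 + m), by omega, bn_nonneg _ _, fun ε hε ps e h1 h2 => ?_⟩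
  obtain ⟨F, F1, -⟩ := fam_list hH (by omega) h.hnu hε ps h1 h2
  replace F1 := F1 i
  have F2 := F.hK i
  generalize F.K i = S at F1 F2
  rw [e] at F1 F2
  refine ⟨S, F2, ?_⟩
  have a1 : θ ^ ps.length * ps.prod ≤ ((ps.map (qq H J)).prod : ℕ) := by
    clear F F1 F2 S e h1
    induction ps with
    | nil => simp
    | cons p ps ih =>
      have b1 := ih fun q hq => h2 q (List.mem_cons_of_mem _ hq)
      obtain ⟨b2, b3, -⟩ := h2 p List.mem_cons_self
      have b4 := qq_ge hH (by omega : 1 ≤ J) b3 b2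
      simp only [List.length_cons, List.prod_cons, List.map_cons, Nat.cast_mul]
      calc θ ^ (ps.length + 1) * (p * ps.prod) = (θ * p) * (θ ^ ps.length * ps.prod) := by ring
        _ ≤ _ := by gcongr
  rw [e] at a1
  have a2 : (((ps.map (qq H J)).prod : ℕ) : ℝ) * (kz H t nu (3 + m)).1 i ≤ S.card := by
    exact_mod_cast F1
  have a3 : (Rn : ℝ) ^ m ≤ Rd ^ m * C * (kz H t nu (3 + m)).1 i := by exact_mod_cast hi m
  have a4 : l ^ (3 + m) ≤ θ ^ (3 + m) * (kz H t nu (3 + m)).1 i := by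
    rw [div_pow _ l, div_lt_div_iff₀ (by positivity) (by positivity), mul_pow,
      div_pow (Rn : ℝ)] at hm
    have b1 : (Rn : ℝ) ^ m / Rd ^ m ≤ C * (kz H t nu (3 + m)).1 i := by
      rw [div_le_iff₀ (by positivity)]; linarith
    have b2 : (C : ℝ) * l ^ (3 + m) < C * (θ ^ (3 + m) * (kz H t nu (3 + m)).1 i) := by
      calc (C : ℝ) * l ^ (3 + m) = C * l ^ 3 * l ^ m := by ring
        _ < θ ^ m * (Rn ^ m / Rd ^ m) * θ ^ 3 := hm
        _ ≤ θ ^ m * (C * (kz H t nu (3 + m)).1 i) * θ ^ 3 := by gcongr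
        _ = _ := by ring
    exact (lt_of_mul_lt_mul_left b2 (Nat.cast_nonneg C)).le
  calc l ^ (3 + m) * ps.prod ≤ θ ^ (3 + m) * (kz H t nu (3 + m)).1 i * ps.prod := by gcongr
    _ = θ ^ (3 + m) * ps.prod * (kz H t nu (3 + m)).1 i := by ring
    _ ≤ _ := le_trans (by gcongr) a2

lemma blocks {D : ℕ} {B l ε : ℝ} {A : ℕ → Prop} (hA : ∀ p, A p → Odd p) (hε : 0 ≤ ε) (hl : 0 ≤ l)
    (h : ∀ ps : List ℕ, ps.length = D → ps.Pairwise Nat.Coprime → (∀ p ∈ ps, A p) →
      ∃ S : Finset (ZMod ps.prod), Wt ε B S ∧ l ^ D * ps.prod ≤ S.card) (b : ℕ) :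
    ∀ ps : List ℕ, ps.length = b * D → ps.Pairwise Nat.Coprime → (∀ p ∈ ps, A p) →
      ∃ S : Finset (ZMod ps.prod), Wt ε (b * B) S ∧ l ^ (b * D) * ps.prod ≤ S.card := by
  have hodd : ∀ ps : List ℕ, (∀ p ∈ ps, A p) → Odd ps.prod := fun ps h =>
    List.prod_induction _ (fun _ _ => Odd.mul) odd_one fun q hq => hA q (h q hq)
  induction b with
  | zero =>
    intro ps e _ _
    rw [zero_mul, List.length_eq_zero_iff] at e
    subst e
    exact ⟨{0}, wt_single (by simp) _, by rw [card_singleton]; simp⟩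
  | succ b ih =>
    intro ps e h1 h2
    obtain ⟨u, v, rfl, hu⟩ : ∃ u v : List ℕ, ps = u ++ v ∧ u.length = D :=
      ⟨ps.take D, ps.drop D, (List.take_append_drop _ _).symm, by
        rw [List.length_take, e, add_mul]; omega⟩
    rw [List.pairwise_append] at h1
    have a1 : ∀ p ∈ u, A p := fun p hp => h2 p (List.mem_append_left _ hp)
    have a2 : ∀ p ∈ v, A p := fun p hp => h2 p (List.mem_append_right _ hp)
    obtain ⟨S, S1, S2⟩ := h u hu h1.1 a1
    obtain ⟨T, T1, T2⟩ := ih v (by rw [List.length_append, add_mul] at e; omega) h1.2.1 a2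
    have hc : u.prod.Coprime v.prod := Nat.coprime_list_prod_left_iff.mpr fun p hp =>
      Nat.coprime_list_prod_right_iff.mpr fun q hq => h1.2.2 p hp q hq
    rw [List.prod_append]
    let f := (ZMod.chineseRemainder hc).toAddEquiv
    refine ⟨(S ×ˢ T).map f.symm.toEquiv.toEmbedding, ?_, ?_⟩
    · have := wt_prod (inj2_zmod (hodd u a1)) (inj2_zmod (hodd v a2)) hε S1 T1
      rw [show B + b * B = ((b + 1 : ℕ) : ℝ) * B by push_cast; ring] at this
      exact wt_comap this f.toAddMonoidHom f.injective fun x hx => by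
        rw [mem_map_equiv] at hx; exact hx
    · rw [card_map, card_product, Nat.cast_mul, Nat.cast_mul]
      calc l ^ ((b + 1) * D) * ((u.prod : ℝ) * v.prod) =
          (l ^ D * u.prod) * (l ^ (b * D) * v.prod) := by ring
        _ ≤ _ := by gcongr

end Pool.Agent.H62Z.R3
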