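import Pool.Agent.H62Z.R3Block
import Pool.Agent.H62Z.R3Data

/-!
Lower bound for Roth numbers.
-/

set_option autoImplicit false

namespace Pool.Agent.H62Z.R3

open Finset Filter

lemma pi_lower (n : ℕ) : n + 1 ≤ Nat.primeCounting ((3 * n + 6) ^ 2) := by
  have h := Chebyshev.pi_ge ((3 * n + 6) ^ 2)
  set m : ℝ := 3 * n + 6 with hm
  have e : (((3 * n + 6) ^ 2 : ℕ) : ℝ) = m ^ 2 := by rw [hm]; push_cast; ring
  rw [e] at h
  have hn : (0 : ℝ) ≤ n := Nat.cast_nonneg n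
  have h1 : Real.log (m ^ 2 + 1) ≤ 2 * m := by
    calc Real.log (m ^ 2 + 1) ≤ Real.log ((m + 1) ^ 2) :=
          Real.log_le_log (by positivity) (by nlinarith)
      _ = 2 * Real.log (m + 1) := by rw [Real.log_pow]; norm_num
      _ ≤ 2 * m := by linarith [Real.log_le_sub_one_of_pos (show 0 < m + 1 by positivity)]
  have h2 : Real.log (m ^ 2) ≤ 2 * m :=
    le_trans (Real.log_le_log (by positivity) (by linarith)) h1
  have h3 : 0 < Real.log (m ^ 2) := Real.log_pos (by nlinarith)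
  have h4 := Real.log_two_gt_d9
  have h5 : ((n + 1 : ℕ) : ℝ) ≤ (m ^ 2 * Real.log 2 - Real.log (m ^ 2 + 1)) / Real.log (m ^ 2) := by
    rw [le_div_iff₀ h3]
    push_cast
    have : ((n : ℝ) + 1) * Real.log (m ^ 2) ≤ (n + 1) * (2 * m) := by gcongr
    have : m ^ 2 * (2 / 3) ≤ m ^ 2 * Real.log 2 := by gcongr; linarith
    nlinarith
  exact_mod_cast h5.trans h

lemma moduli (n L : ℕ) (hL : 2 ≤ L) : ∃ ps : List ℕ, ps.length = n ∧ ps.Pairwise Nat.Coprime ∧
    ∀ p ∈ ps, Odd p ∧ L ≤ p ∧ p ≤ (3 * n + 6) ^ 2 * L := by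
  have h1 : n ≤ ((Nat.primesLE ((3 * n + 6) ^ 2)).erase 2).card := by
    have := pi_lower n
    rw [← Nat.primesLE_card_eq_primeCounting] at this
    have := pred_card_le_card_erase (s := Nat.primesLE ((3 * n + 6) ^ 2)) (a := 2)
    omega
  obtain ⟨T, hT, hc⟩ := exists_subset_card_eq h1
  have h2 : ∀ p ∈ T, p ≠ 2 ∧ p ≤ (3 * n + 6) ^ 2 ∧ p.Prime := fun p hp => by
    have := hT hp
    rwa [mem_erase, Nat.mem_primesLE] at this
  refine ⟨T.toList.map fun p => p ^ Nat.clog p L, by simp [hc], ?_, ?_⟩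
  · rw [List.pairwise_map]
    refine T.nodup_toList.pairwise_of_forall_ne fun p hp q hq hne => ?_
    rw [mem_toList] at hp hq
    exact Nat.Coprime.pow _ _ ((Nat.coprime_primes (h2 p hp).2.2 (h2 q hq).2.2).mpr hne)
  · intro x hx
    obtain ⟨p, hp, rfl⟩ := List.mem_map.mp hx
    rw [mem_toList] at hp
    obtain ⟨a1, a2, a3⟩ := h2 p hp
    refine ⟨(a3.odd_of_ne_two a1).pow, Nat.le_pow_clog a3.one_lt L, ?_⟩
    have a4 := Nat.pow_pred_clog_lt_self a3.one_lt (show 1 < L by omega)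
    have a5 := Nat.clog_pos a3.one_lt (show 1 < L by omega)
    rw [← Nat.succ_pred_eq_of_pos a5, pow_succ']
    exact Nat.mul_le_mul a2 a4.le

lemma roth_mul (k N : ℕ) : rothNumberNat (k * N) ≤ k * rothNumberNat N := by
  induction k with
  | zero => simp
  | succ k ih =>
    rw [add_mul, add_mul, one_mul, one_mul]
    exact le_trans (rothNumberNat_add_le _ _) (by omega)

lemma card_le_roth {N : ℕ} [NeZero N] (hN : Odd N) {A : Finset (ZMod N)}
    (h : ∀ x ∈ A, ∀ z ∈ A, ∀ y ∈ A, x + z = y + y → x = z) : A.card ≤ rothNumberNat N := by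
  refine ThreeAPFree.le_rothNumberNat (A.image ZMod.val) ?_ ?_
    (card_image_of_injective _ (ZMod.val_injective N))
  · intro a ha b hb c hc e
    simp only [coe_image, Set.mem_image, mem_coe] at ha hb hc
    obtain ⟨x, hx, rfl⟩ := ha
    obtain ⟨y, hy, rfl⟩ := hb
    obtain ⟨z, hz, rfl⟩ := hc
    have e1 : x + z = y + y := by
      have := congrArg (Nat.cast : ℕ → ZMod N) e
      simpa using this
    have e2 := h x hx z hz y hy e1
    subst e2
    rw [inj2_zmod hN _ _ e1]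
  · intro a ha
    obtain ⟨x, -, rfl⟩ := mem_image.mp ha
    exact ZMod.val_lt x

/-- blocks of density `l ^ D` exist -/
def Blk (l : ℝ) : Prop := ∃ (D M : ℕ) (B : ℝ), 0 < D ∧ 0 ≤ B ∧ ∀ ε : ℝ, 0 ≤ ε →
  ∀ ps : List ℕ, ps.length = D → ps.Pairwise Nat.Coprime →
    (∀ p ∈ ps, Odd p ∧ M ≤ p ∧ ε * p ^ 2 ≤ 1) →
      ∃ S : Finset (ZMod ps.prod), Wt ε B S ∧ l ^ D * ps.prod ≤ S.card

lemma finite_bound {l : ℝ} (hl : 0 ≤ l) (h : Blk l) : ∃ (D M : ℕ) (B : ℝ), 0 < D ∧ 0 ≤ B ∧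
    ∀ b L N : ℕ, M ≤ L → 1 ≤ N → N ≤ L ^ (b * D) →
      l ^ (b * D) * N ≤ 2 * (2 * (b * B) * ((3 * (b * D : ℕ) + 6) ^ 2 * L) ^ 2 + 1) *
        rothNumberNat N := by
  obtain ⟨D, M, B, hD, hB, h⟩ := h
  refine ⟨D, M + 2, B, hD, hB, fun b L N hL hN hNL => ?_⟩
  obtain ⟨ps, e, h1, h2⟩ := moduli (b * D) L (by omega)
  set X : ℝ := (3 * (b * D : ℕ) + 6) ^ 2 * L with hX
  have hX0 : 0 < X := by
    have : (0 : ℝ) < L := by exact_mod_cast (by omega : 0 < L)
    positivity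
  have hε : 0 < 1 / X ^ 2 := by positivity
  obtain ⟨S, S1, S2⟩ := blocks (A := fun p => Odd p ∧ M ≤ p ∧ 1 / X ^ 2 * (p : ℝ) ^ 2 ≤ 1)
    (fun p hp => hp.1) hε.le hl (h _ hε.le) b ps e h1 fun p hp => by
      obtain ⟨a1, a2, a3⟩ := h2 p hp
      refine ⟨a1, by omega, ?_⟩
      have : (p : ℝ) ≤ X := by rw [hX]; exact_mod_cast a3
      rw [one_div, ← div_eq_inv_mul, div_le_one (by positivity)]
      gcongr
  have hodd : Odd ps.prod :=
    List.prod_induction _ (fun _ _ => Odd.mul) odd_one fun q hq => (h2 q hq).1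
  have : NeZero ps.prod := ⟨hodd.pos.ne'⟩
  obtain ⟨A, -, A1, A2⟩ := exists_slice hε S1
  have A3 := card_le_roth hodd A2
  have A4 : N ≤ ps.prod := by
    refine hNL.trans ?_
    rw [← e]
    exact List.pow_card_le_prod _ _ fun p hp => (h2 p hp).2.1
  generalize ps.prod = P at *
  have A5 : rothNumberNat P ≤ (P / N + 1) * rothNumberNat N :=
    le_trans (rothNumberNat.monotone (by
      rw [mul_comm]; exact (Nat.lt_mul_div_succ P hN).le)) (roth_mul _ _)
  have A6 : (P / N + 1) * N ≤ 2 * P := by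
    have := Nat.div_mul_le_self P N
    rw [add_mul]; omega
  have B1 : (S.card : ℝ) ≤ (2 * (b * B) * X ^ 2 + 1) * A.card := by
    have a1 : (S.card : ℝ) ≤ (⌊2 * (b * B) / (1 / X ^ 2)⌋₊ + 1) * A.card := by exact_mod_cast A1
    have a2 := Nat.floor_le (a := 2 * (b * B) / (1 / X ^ 2)) (by positivity)
    rw [div_div_eq_mul_div, div_one] at a1 a2
    exact a1.trans (by gcongr)
  have B2 : (A.card : ℝ) * N ≤ 2 * P * rothNumberNat N := by
    have : A.card * N ≤ 2 * P * rothNumberNat N := by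
      calc A.card * N ≤ (P / N + 1) * rothNumberNat N * N := Nat.mul_le_mul_right _ (A3.trans A5)
        _ = (P / N + 1) * N * rothNumberNat N := by ring
        _ ≤ _ := Nat.mul_le_mul_right _ A6
    exact_mod_cast this
  have hP : (0 : ℝ) < P := by exact_mod_cast (by omega : 0 < P)
  refine le_of_mul_le_mul_left ?_ hP
  calc (P : ℝ) * (l ^ (b * D) * N) = l ^ (b * D) * P * N := by ring
    _ ≤ (2 * (b * B) * X ^ 2 + 1) * A.card * N :=
        mul_le_mul_of_nonneg_right (S2.trans B1) (Nat.cast_nonneg _)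
    _ = (2 * (b * B) * X ^ 2 + 1) * (A.card * N) := by ring
    _ ≤ (2 * (b * B) * X ^ 2 + 1) * (2 * P * rothNumberNat N) := by gcongr
    _ = _ := by ring

theorem roth_lower {l a κ c : ℝ} (h : Blk l) (ha : 0 ≤ a) (hκ : 0 < κ) (hl : (2 : ℝ) ^ (-a) ≤ l)
    (hc : a * κ + 2 / κ < c) :
    ∀ᶠ N : ℕ in atTop, (N : ℝ) * 2 ^ (-c * √(Real.logb 2 N)) ≤ rothNumberNat N := by
  obtain ⟨D, M, B, hD, hB, h⟩ := finite_bound (le_trans (by positivity) hl) h
  have hs : Tendsto (fun N : ℕ => √(Real.logb 2 N)) atTop atTop :=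
    Real.tendsto_sqrt_atTop.comp ((Real.tendsto_logb_atTop one_lt_two).comp
      tendsto_natCast_atTop_atTop)
  set y := (c - (a * κ + 2 / κ)) * Real.log 2 with hy
  have hy0 : 0 < y := mul_pos (by linarith) (Real.log_pos one_lt_two)
  set C := 8 * (2 * (κ + D) * B + 1) * (3 * (κ + D) + 6) ^ 4 * 2 ^ (a * D) with hC
  filter_upwards [hs.eventually_ge_atTop 1, hs.eventually_ge_atTop (κ * M),
    hs.eventually_ge_atTop (720 * C / y ^ 6), eventually_ge_atTop 1] with N h1 h2 h3 hN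
  have hN' : (1 : ℝ) ≤ N := by exact_mod_cast hN
  have e0 : (2 : ℝ) ^ (√(Real.logb 2 N) ^ 2) = N := by
    rw [Real.sq_sqrt (Real.logb_nonneg one_lt_two hN'), Real.rpow_logb two_pos (by norm_num)
      (by linarith)]
  generalize √(Real.logb 2 N) = s at *
  have hD' : (1 : ℝ) ≤ D := by exact_mod_cast hD
  set b := ⌈κ * s / D⌉₊ with hb
  set L := ⌈(2 : ℝ) ^ (s / κ)⌉₊ with hL
  have b1 : κ * s ≤ ((b * D : ℕ) : ℝ) := by
    have := Nat.le_ceil (κ * s / D)
    rw [div_le_iff₀ (by linarith)] at this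
    push_cast; exact this
  have b2 : ((b * D : ℕ) : ℝ) ≤ κ * s + D := by
    have := (Nat.ceil_lt_add_one (a := κ * s / D) (by positivity)).le
    rw [div_add_one (by linarith), le_div_iff₀ (by linarith)] at this
    push_cast; exact this
  have l0 : (1 : ℝ) ≤ 2 ^ (s / κ) := Real.one_le_rpow one_le_two (by positivity)
  have l1 : (2 : ℝ) ^ (s / κ) ≤ L := Nat.le_ceil _
  have l2 : (L : ℝ) ≤ 2 * 2 ^ (s / κ) := by
    have := (Nat.ceil_lt_add_one (a := (2 : ℝ) ^ (s / κ)) (by positivity)).le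
    linarith
  have l3 : M ≤ L := by
    have a1 : (M : ℝ) ≤ s / κ := by rw [le_div_iff₀ hκ]; linarith
    have a2 : (M : ℝ) ≤ 2 ^ (M : ℝ) := by
      rw [Real.rpow_natCast]; exact_mod_cast Nat.lt_two_pow_self.le
    have a3 := Real.rpow_le_rpow_of_exponent_le one_le_two a1
    exact_mod_cast a2.trans (a3.trans l1)
  have l4 : N ≤ L ^ (b * D) := by
    have : (N : ℝ) ≤ (L : ℝ) ^ (b * D) := by
      calc (N : ℝ) = 2 ^ (s ^ 2) := e0.symm
        _ ≤ 2 ^ (s / κ * (b * D : ℕ)) := Real.rpow_le_rpow_of_exponent_le one_le_two (by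
            rw [div_mul_eq_mul_div, le_div_iff₀ hκ]
            have := mul_le_mul_of_nonneg_left b1 (show 0 ≤ s by linarith)
            linarith)
        _ = (2 ^ (s / κ)) ^ (b * D) := by rw [Real.rpow_mul_natCast (by norm_num)]
        _ ≤ _ := by gcongr
    exact_mod_cast this
  have key := h b L N l3 hN l4
  clear_value b L
  clear h hs hb hL
  have k1 : (2 : ℝ) ^ (-a * (κ * s + D)) ≤ l ^ (b * D) := by
    calc (2 : ℝ) ^ (-a * (κ * s + D)) ≤ 2 ^ (-a * (b * D : ℕ)) :=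
          Real.rpow_le_rpow_of_exponent_le one_le_two (by
            have := mul_le_mul_of_nonneg_left b2 ha
            linarith)
      _ = (2 ^ (-a)) ^ (b * D) := by rw [Real.rpow_mul_natCast (by norm_num)]
      _ ≤ _ := by gcongr
  have b3 : ((b * D : ℕ) : ℝ) ≤ (κ + D) * s := by
    have := mul_le_mul_of_nonneg_left h1 (show (0 : ℝ) ≤ D by linarith)
    linarith
  have b4 : (b : ℝ) ≤ (κ + D) * s := le_trans (by
    exact_mod_cast Nat.le_mul_of_pos_right b hD) b3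
  set X : ℝ := (3 * (b * D : ℕ) + 6) ^ 2 * L with hX
  have k2 : X ≤ ((3 * (κ + D) + 6) * s) ^ 2 * (2 * 2 ^ (s / κ)) := by
    rw [hX]; gcongr; linarith
  have k3 : 1 ≤ X := by
    have : (0 : ℝ) ≤ (b * D : ℕ) := Nat.cast_nonneg _
    exact one_le_mul_of_one_le_of_one_le (one_le_pow₀ (by linarith)) (l0.trans l1)
  clear_value X
  have k3' : 1 ≤ X ^ 2 := one_le_pow₀ k3
  have k3'' : 2 * (b * B) + 1 ≤ (2 * (κ + D) * B + 1) * s := by
    have := mul_le_mul_of_nonneg_right b4 hB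
    linarith
  have k4 : 2 * (2 * (b * B) * X ^ 2 + 1) ≤
      2 * ((2 * (κ + D) * B + 1) * s) * (((3 * (κ + D) + 6) * s) ^ 2 * (2 * 2 ^ (s / κ))) ^ 2 := by
    calc 2 * (2 * (b * B) * X ^ 2 + 1) ≤ 2 * (2 * (b * B) + 1) * X ^ 2 := by linarith
      _ ≤ _ := by gcongr
  have k5 : C * s ^ 5 ≤ 2 ^ ((c - (a * κ + 2 / κ)) * s) := by
    have a1 := Real.pow_div_factorial_le_exp (y * s) (by positivity) 6
    rw [div_le_iff₀ (by positivity)] at h3
    rw [Real.rpow_def_of_pos two_pos, show Real.log 2 * ((c - (a * κ + 2 / κ)) * s) = y * s by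
      rw [hy]; ring]
    refine le_trans ?_ a1
    rw [le_div_iff₀ (by positivity), show ((Nat.factorial 6 : ℕ) : ℝ) = 720 by norm_num
      [Nat.factorial]]
    calc C * s ^ 5 * 720 = 720 * C * s ^ 5 := by ring
      _ ≤ s * y ^ 6 * s ^ 5 := by gcongr
      _ = _ := by ring
  have k6 : 2 * (2 * (b * B) * X ^ 2 + 1) * 2 ^ (-c * s) ≤ 2 ^ (-a * (κ * s + D)) := by
    have e1 : (2 : ℝ) ^ (-a * (κ * s + D)) * 2 ^ (a * D) =
        2 ^ ((c - (a * κ + 2 / κ)) * s) * (2 ^ (s / κ)) ^ 2 * 2 ^ (-c * s) := by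
      rw [← Real.rpow_mul_natCast (by norm_num), ← Real.rpow_add two_pos, ← Real.rpow_add two_pos,
        ← Real.rpow_add two_pos]
      congr 1; push_cast; ring
    refine le_of_mul_le_mul_right ?_ (show (0 : ℝ) < 2 ^ (a * D) by positivity)
    rw [e1]
    calc _ ≤ 2 * ((2 * (κ + D) * B + 1) * s) *
          (((3 * (κ + D) + 6) * s) ^ 2 * (2 * 2 ^ (s / κ))) ^ 2 * 2 ^ (-c * s) * 2 ^ (a * D) := by
          gcongr
      _ = C * s ^ 5 * (2 ^ (s / κ)) ^ 2 * 2 ^ (-c * s) := by rw [hC]; ring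
      _ ≤ _ := by gcongr
  have hQ : 0 < 2 * (2 * (b * B) * X ^ 2 + 1) := by positivity
  refine le_of_mul_le_mul_left ?_ hQ
  calc _ = 2 * (2 * (b * B) * X ^ 2 + 1) * 2 ^ (-c * s) * N := by ring
    _ ≤ l ^ (b * D) * N := mul_le_mul_of_nonneg_right (k6.trans k1) (by linarith)
    _ ≤ _ := key

lemma blk : Blk 0.56881 := by
  obtain ⟨t, nu, k, z, C, h⟩ := cert_2048
  obtain ⟨D, B, h1, h2, h3⟩ := block (J := 20000) (l := 0.56881) (by norm_num) (by norm_num)
    (by norm_num) h (by norm_num) (by norm_num)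
  exact ⟨D, 2 * 2048 * 20000, B, h1, h2, h3⟩

theorem main : ∃ N₀ : ℕ, ∀ N ≥ N₀,
    (N : ℝ) * 2 ^ (-2.552 * √(Real.logb 2 N)) ≤ rothNumberNat N := by
  refine eventually_atTop.mp (roth_lower (a := 407 / 500) (κ := 1.5675) blk (by norm_num)
    (by norm_num) ?_ (by norm_num))
  refine le_of_pow_le_pow_left₀ (n := 500) (by norm_num) (by norm_num) ?_
  rw [← Real.rpow_mul_natCast (by norm_num),
    show -(407 / 500 : ℝ) * (500 : ℕ) = -(407 : ℕ) by norm_num, Real.rpow_neg (by norm_num),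
    Real.rpow_natCast, inv_le_iff_one_le_mul₀ (by positivity),
    show (0.56881 : ℝ) = (56881 : ℕ) / (100000 : ℕ) by norm_num, div_pow, div_mul_eq_mul_div,
    one_le_div (by positivity)]
  have : 100000 ^ 500 ≤ 56881 ^ 500 * 2 ^ 407 := by decide +kernel
  exact_mod_cast this

end Pool.Agent.H62Z.R3
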