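import Pool.Agent.H62Z.R3Wt
import Pool.Agent.H309R2.AP3.Good

/-!
The recursion for families of weighted sets (adapted from `H309R2.AP3.Step`, `Size`).
-/

namespace Pool.Agent.H62Z.R3

open Finset
open Pool.Agent.H309R2.AP3 (Par div_add_div_le opK opZ opY sum_ge2 sum_ge3)

set_option linter.unusedSectionVars false
set_option linter.unusedVariables false

/-- Two families of weighted sets with `K i₁ + K i₂` disjoint from `Z j` when `i₁ + i₂ ≤ j`. -/
structure Fam (G : Type) [AddCommGroup G] (ε B : ℝ) where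
  K : ℕ → Finset G
  Z : ℕ → Finset G
  hK : ∀ i, Wt ε B (K i)
  hZ : ∀ j, Wt ε B (Z j)
  h : ∀ i₁ i₂ j, i₁ + i₂ ≤ j → ∀ x ∈ K i₁, ∀ z ∈ K i₂, x + z ∉ Z j

section
variable {p : ℕ} [NeZero p] {G : Type} [AddCommGroup G] [Fintype G] [DecidableEq G] {ε B T : ℝ}
  (π : Par) (F : Fam G ε B) (g : ℕ)

/-- Slices of the new `K i`. -/
def sK (i u : ℕ) : Finset G :=
  if u < π.H * π.q then (if u / π.q < i then F.K (π.t (u / π.q)) else ∅)
  else if u < π.P + 1 then ∅
  else (if (u - (π.P + 1)) / π.q < π.H / 2 ∧ π.H + (u - (π.P + 1)) / π.q < i then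
    half (F.Z (π.nu (2 * ((u - (π.P + 1)) / π.q) + 1))) else ∅)

/-- Slices of the new `Z (H + m)`. -/
def sZ (m u : ℕ) : Finset G :=
  if u < (π.H - m) * π.q then dbl (F.K (π.t (u / π.q + m / 2)))
  else if u < π.P + 1 then
    (if (π.H - m) * π.q + π.e ≤ u then F.Z (π.nu ((u - ((π.H - m) * π.q + π.e)) / π.q)) else ∅)
  else (if (u - (π.P + 1)) / π.q < (π.H - m) / 2 then
    F.Z (π.nu (2 * ((u - (π.P + 1)) / π.q) + 1 + 2 * (m / 2))) else ∅)

/-- Slices of the new `Z (2 * H + m)`. -/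
def sY (m u : ℕ) : Finset G :=
  if u < π.H * π.q ∧ m ≤ u / π.q then F.Z (π.nu (u / π.q)) else ∅

/-- The new `K`. -/
def nK (i : ℕ) : Finset (ZMod p × G) := glue (sK π F i) 0 g

/-- The new `Z`. -/
def nZ (j : ℕ) : Finset (ZMod p × G) :=
  if j ≤ 2 * π.H then
    glue (sZ π F (j - π.H)) (((π.H - (j - π.H)) * π.q + π.e : ℕ) : ZMod p) g
  else glue (sY π F (j - 2 * π.H)) 0 g

lemma wt_nK (hp : p = 2 * π.P + 1) (hG : Inj2 G) (hB : 0 ≤ B) (hε : 0 ≤ ε)
    (hε' : ε * p ^ 2 ≤ 1) (hg : g ≤ p) (hT : (p : ℝ) ≤ T * g) (i : ℕ) :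
    Wt ε (nB T B) (nK (p := p) π F g i) := by
  have hq := π.hq
  have hP := π.hP
  apply wt_glue hG _ _ hB hε hε' hg hT
  · intro u
    unfold sK
    split_ifs
    · exact F.hK _
    · exact wt_empty
    · exact wt_empty
    · exact wt_half hG (F.hZ _)
    · exact wt_empty
  · intro u1 u2 u3 h1 h2 h3 hu x hx z hz y hy hxz
    have hu3 : π.P + 1 ≤ u3 := by omega
    have hHq : π.H * π.q ≤ π.P + 1 := by omega
    unfold sK at hy
    rw [if_neg (by omega), if_neg (by omega)] at hy
    split_ifs at hy with hc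
    swap
    · simp at hy
    obtain ⟨hb, -⟩ := hc
    set s := u3 - (π.P + 1) with hs
    set b := s / π.q with hbdef
    have hs1 : s < (b + 1) * π.q := by
      rw [hbdef]
      exact Nat.lt_mul_of_div_lt (Nat.lt_succ_self _) hq
    have hsum : u1 + u2 = 2 * s + 1 := by omega
    have h2b : (2 * b + 2) * π.q ≤ π.H * π.q := Nat.mul_le_mul_right _ (by omega)
    have h2b' : (2 * b + 2) * π.q = 2 * ((b + 1) * π.q) := by ring
    unfold sK at hx hz
    rw [if_pos (by omega)] at hx hz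
    split_ifs at hx hz <;> try (simp at hx)
    · have hd : u1 / π.q + u2 / π.q ≤ 2 * b + 1 := by
        have h5 := div_add_div_le u1 u2 π.q
        have h6 : (u1 + u2) / π.q < 2 * b + 2 := by
          rw [Nat.div_lt_iff_lt_mul hq]
          omega
        omega
      have ht := π.hnu (2 * b + 1) (by omega) _ _ hd
      apply F.h _ _ _ ht _ hx _ hz
      rw [hxz]
      exact mem_half.1 hy
    · simp at hz

lemma wt_nZ (hp : p = 2 * π.P + 1) (hG : Inj2 G) (hB : 0 ≤ B) (hε : 0 ≤ ε)
    (hε' : ε * p ^ 2 ≤ 1) (hg : g ≤ p) (hT : (p : ℝ) ≤ T * g) (j : ℕ) :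
    Wt ε (nB T B) (nZ (p := p) π F g j) := by
  have hq := π.hq
  have hP := π.hP
  unfold nZ
  split_ifs with hj
  · set m := j - π.H with hm
    have hA : (π.H - m) * π.q ≤ π.H * π.q := Nat.mul_le_mul_right _ (Nat.sub_le _ _)
    apply wt_glue hG _ _ hB hε hε' hg hT
    · intro u
      unfold sZ
      split_ifs
      · exact wt_dbl hG (F.hK _)
      · exact F.hZ _
      · exact wt_empty
      · exact F.hZ _
      · exact wt_empty
    · intro u1 u2 u3 h1 h2 h3 hu x hx z hz y hy hxz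
      have hu3 : π.P + 1 ≤ u3 := by omega
      unfold sZ at hy
      rw [if_neg (by omega), if_neg (by omega)] at hy
      split_ifs at hy with hb
      swap
      · simp at hy
      set s := u3 - (π.P + 1) with hs
      set b := s / π.q with hbdef
      have hs1 : s < (b + 1) * π.q := by
        rw [hbdef]
        exact Nat.lt_mul_of_div_lt (Nat.lt_succ_self _) hq
      have hsum : u1 + u2 = 2 * s + 1 := by omega
      have h2b : (2 * b + 2) * π.q ≤ (π.H - m) * π.q := Nat.mul_le_mul_right _ (by omega)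
      have h2b' : (2 * b + 2) * π.q = 2 * ((b + 1) * π.q) := by ring
      unfold sZ at hx hz
      rw [if_pos (by omega)] at hx hz
      obtain ⟨x0, hx0, rfl⟩ := mem_dbl.1 hx
      obtain ⟨z0, hz0, rfl⟩ := mem_dbl.1 hz
      have hd : u1 / π.q + u2 / π.q ≤ 2 * b + 1 := by
        have h5 := div_add_div_le u1 u2 π.q
        have h6 : (u1 + u2) / π.q < 2 * b + 2 := by
          rw [Nat.div_lt_iff_lt_mul hq]
          omega
        omega
      have ht := π.hnu (2 * b + 1 + 2 * (m / 2)) (by omega) (u1 / π.q + m / 2)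
        (u2 / π.q + m / 2) (by omega)
      apply F.h _ _ _ ht _ hx0 _ hz0
      have : x0 + z0 = y := by
        apply hG
        rw [← hxz]; abel
      rw [this]; exact hy
  · apply wt_glue hG _ _ hB hε hε' hg hT
    · intro u
      unfold sY
      split_ifs
      · exact F.hZ _
      · exact wt_empty
    · intro u1 u2 u3 h1 h2 h3 hu x hx z hz y hy hxz
      unfold sY at hy
      rw [if_neg (by rintro ⟨h, -⟩; omega)] at hy
      simp at hy

/-- Description of the elements of `nK`. -/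
lemma mem_nK_cases {i : ℕ} {x : ZMod p × G} (hx : x ∈ nK π F g i) :
    (x.1.val < π.H * π.q ∧ x.1.val + 1 ≤ i * π.q ∧
      x.2 ∈ F.K (π.t (x.1.val / π.q))) ∨
    (π.P + 1 ≤ x.1.val ∧ π.H + 1 ≤ i ∧ x.1.val + 1 ≤ i * π.q + π.e) := by
  have hq := π.hq
  have hP := π.hP
  have h := (mem_glue hx).1
  rw [add_zero] at h
  unfold sK at h
  split_ifs at h with h1 h2 h3 h4
  · left
    refine ⟨h1, ?_, h⟩
    exact Nat.lt_mul_of_div_lt h2 hq
  · simp at h
  · simp at h
  · right
    obtain ⟨h5, h6⟩ := h4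
    have h9 : π.H + 1 ≤ i := by
      have := Nat.zero_le ((x.1.val - (π.P + 1)) / π.q)
      omega
    refine ⟨by omega, h9, ?_⟩
    set s := x.1.val - (π.P + 1) with hs
    have hs1 : s < (s / π.q + 1) * π.q :=
      Nat.lt_mul_of_div_lt (Nat.lt_succ_self _) hq
    have h7 : (π.H + s / π.q + 1) * π.q ≤ i * π.q := Nat.mul_le_mul_right _ (by omega)
    have h8 : (π.H + s / π.q + 1) * π.q = π.H * π.q + (s / π.q + 1) * π.q := by ring
    omega
  · simp at h

lemma nK_nZ (hp : p = 2 * π.P + 1) (i₁ i₂ j : ℕ) (hij : i₁ + i₂ ≤ j)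
    (x : ZMod p × G) (hx : x ∈ nK π F g i₁) (z : ZMod p × G)
    (hz : z ∈ nK π F g i₂) : x + z ∉ nZ π F g j := by
  intro hw
  have hq := π.hq
  have hP := π.hP
  have hx' := mem_nK_cases π F g hx
  have hz' := mem_nK_cases π F g hz
  set r1 := x.1.val with hr1
  set r2 := z.1.val with hr2
  have hr1p : r1 < p := ZMod.val_lt _
  have hr2p : r2 < p := ZMod.val_lt _
  have hijq : i₁ * π.q + i₂ * π.q ≤ j * π.q := by
    rw [← add_mul]; exact Nat.mul_le_mul_right _ hij
  -- the key contradiction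
  have key : ∀ b, r1 + r2 < π.H * π.q → (r1 + r2) / π.q ≤ b → b ≤ π.H →
      (x + z).2 ∉ F.Z (π.nu b) := by
    intro b h1 h2 h3 h4
    rcases hx' with ⟨_, _, hx3⟩ | ⟨hx1, _⟩
    swap
    · omega
    rcases hz' with ⟨_, _, hz3⟩ | ⟨hz1, _⟩
    swap
    · omega
    have h5 := div_add_div_le r1 r2 π.q
    exact F.h _ _ _ (π.hnu b h3 _ _ (by omega)) _ hx3 _ hz3 h4
  unfold nZ at hw
  split_ifs at hw with hj
  · set m := j - π.H with hm
    have hmH : m ≤ π.H := by omega
    have hA : (π.H - m) * π.q + m * π.q = π.H * π.q := by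
      rw [← add_mul]; congr 1; omega
    have hjm : j * π.q ≤ π.H * π.q + m * π.q := by
      rw [← add_mul]; exact Nat.mul_le_mul_right _ (by omega)
    have hsum : r1 + r2 + 2 ≤ π.H * π.q + m * π.q + π.e := by
      rcases hx' with ⟨_, hx2, _⟩ | ⟨_, hx2, hx3⟩ <;> rcases hz' with ⟨_, hz2, _⟩ | ⟨_, hz2, hz3⟩ <;>
        omega
    have hval : ((x + z).1 + (((π.H - m) * π.q + π.e : ℕ) : ZMod p)).val =
        r1 + r2 + ((π.H - m) * π.q + π.e) := by
      have h1 : (x + z).1 + (((π.H - m) * π.q + π.e : ℕ) : ZMod p) =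
          ((r1 + r2 + ((π.H - m) * π.q + π.e) : ℕ) : ZMod p) := by
        rw [hr1, hr2]; push_cast; simp
      rw [h1, ZMod.val_natCast, Nat.mod_eq_of_lt]
      omega
    have hw' := (mem_glue hw).1
    rw [hval] at hw'
    unfold sZ at hw'
    rw [if_neg (by omega)] at hw'
    split_ifs at hw' with h1 h2 h3
    · rw [Nat.add_sub_cancel] at hw'
      have h4 : r1 + r2 < m * π.q := by omega
      refine key _ (by omega) le_rfl ?_ hw'
      have : (r1 + r2) / π.q < m := by
        rw [Nat.div_lt_iff_lt_mul hq]; exact h4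
      omega
    · simp at hw'
    · set s := r1 + r2 + ((π.H - m) * π.q + π.e) - (π.P + 1) with hs
      have hs' : r1 + r2 = s + m * π.q := by omega
      have hs1 : s < (s / π.q + 1) * π.q :=
        Nat.lt_mul_of_div_lt (Nat.lt_succ_self _) hq
      have h5 : (s / π.q + 1) * π.q ≤ (π.H - m) * π.q := Nat.mul_le_mul_right _ (by omega)
      refine key _ (by omega) ?_ ?_ hw'
      · rw [hs', Nat.add_mul_div_right _ _ hq]
        omega
      · omega
    · simp at hw'
  · set m := j - 2 * π.H with hm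
    have hjm : j * π.q = 2 * (π.H * π.q) + m * π.q := by
      have : j = 2 * π.H + m := by omega
      rw [this]; ring
    have hsum : r1 + r2 + 2 ≤ j * π.q + 2 * π.e := by
      rcases hx' with ⟨_, hx2, _⟩ | ⟨_, hx2, hx3⟩ <;> rcases hz' with ⟨_, hz2, _⟩ | ⟨_, hz2, hz3⟩ <;>
        omega
    have hw' := (mem_glue hw).1
    rw [add_zero] at hw'
    have hval : (x + z).1.val = (r1 + r2) % p := by
      rw [Prod.fst_add, ZMod.val_add]
    rw [hval] at hw'
    unfold sY at hw'
    split_ifs at hw' with h1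
    swap
    · simp at hw'
    obtain ⟨h1, h2⟩ := h1
    rcases Nat.lt_or_ge (r1 + r2) p with h3 | h3
    · rw [Nat.mod_eq_of_lt h3] at h1 h2 hw'
      refine key _ h1 le_rfl ?_ hw'
      have : (r1 + r2) / π.q < π.H := by
        rw [Nat.div_lt_iff_lt_mul hq]; exact h1
      omega
    · have h4 : (r1 + r2) % p = r1 + r2 - p := by
        rw [Nat.mod_eq_sub_mod h3, Nat.mod_eq_of_lt (by omega)]
      rw [h4] at h2
      have h5 : (r1 + r2 - p) / π.q < m := by
        rw [Nat.div_lt_iff_lt_mul hq]; omega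
      omega

/-- The next family. -/
def next (hp : p = 2 * π.P + 1) (hG : Inj2 G) (hB : 0 ≤ B) (hε : 0 ≤ ε)
    (hε' : ε * p ^ 2 ≤ 1) (hg : g ≤ p) (hT : (p : ℝ) ≤ T * g) :
    Fam (ZMod p × G) ε (nB T B) where
  K := nK π F g
  Z := nZ π F g
  hK := wt_nK π F g hp hG hB hε hε' hg hT
  hZ := wt_nZ π F g hp hG hB hε hε' hg hT
  h := nK_nZ π F g hp

lemma card_nK (hp : p = 2 * π.P + 1) (hG : Inj2 G) (i : ℕ) :
    (π.q - g) * opK π.H π.t π.nu (fun i => (F.K i).card) (fun j => (F.Z j).card) i ≤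
      (nK (p := p) π F g i).card := by
  have hq := π.hq
  have hP := π.hP
  have hH := π.hH
  refine le_trans ?_ (card_glue _ _ _)
  have hA : min i π.H * π.q ≤ π.H * π.q := Nat.mul_le_mul_right _ (min_le_right _ _)
  have hB : min (i - π.H) (π.H / 2) * π.q ≤ π.H / 2 * π.q :=
    Nat.mul_le_mul_right _ (min_le_right _ _)
  have hB2 : 2 * (π.H / 2 * π.q) ≤ π.H * π.q := by
    rw [← mul_assoc]; exact Nat.mul_le_mul_right _ (by omega)
  have hHq : 2 * 1 ≤ π.H * π.q := Nat.mul_le_mul hH hq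
  refine le_trans ?_ (sum_ge2 (gd (sK π F i) g) (p := p)
    (a := min i π.H * π.q) (s := π.P + 1) (b := min (i - π.H) (π.H / 2) * π.q) (by omega)
    (by omega))
  rw [opK, mul_add]
  apply Nat.add_le_add
  · have := sum_gd (sK π F i) (fun a => F.K (π.t a)) g 0 (min i π.H) hq fun u hu => by
      have h1 : u / π.q < min i π.H := by rw [Nat.div_lt_iff_lt_mul hq]; exact hu
      rw [zero_add, sK, if_pos (by omega), if_pos (by omega)]
    simpa only [zero_add] using this
  · have := sum_gd (sK π F i) (fun b => half (F.Z (π.nu (2 * b + 1)))) g (π.P + 1)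
      (min (i - π.H) (π.H / 2)) hq fun v hv => by
      have h1 : v / π.q < min (i - π.H) (π.H / 2) := by
        rw [Nat.div_lt_iff_lt_mul hq]; exact hv
      have h0 : 0 ≤ v / π.q := Nat.zero_le _
      rw [sK, if_neg (by omega), if_neg (by omega), Nat.add_sub_cancel_left,
        if_pos (by constructor <;> omega)]
    simpa only [card_half hG] using this

lemma card_nZ (hp : p = 2 * π.P + 1) (hG : Inj2 G) {j : ℕ} (hj : j ≤ 2 * π.H) :
    (π.q - g) * opZ π.H π.t π.nu (fun i => (F.K i).card) (fun j => (F.Z j).card) (j - π.H) ≤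
      (nZ (p := p) π F g j).card := by
  have hq := π.hq
  have hP := π.hP
  have hH := π.hH
  rw [nZ, if_pos hj]
  refine le_trans ?_ (card_glue _ _ _)
  set m := j - π.H with hm
  have hAB : (π.H - m) * π.q + m * π.q = π.H * π.q := by
    rw [← add_mul]; congr 1; omega
  have hC : 2 * ((π.H - m) / 2 * π.q) ≤ (π.H - m) * π.q := by
    rw [← mul_assoc]; exact Nat.mul_le_mul_right _ (by omega)
  have hHq : 2 * 1 ≤ π.H * π.q := Nat.mul_le_mul hH hq
  refine le_trans ?_ (sum_ge3 (gd (sZ π F m) g) (p := p)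
    (a := (π.H - m) * π.q) (s := (π.H - m) * π.q + π.e) (b := m * π.q) (s' := π.P + 1)
    (b' := (π.H - m) / 2 * π.q) (by omega) (by omega) (by omega))
  rw [opZ, mul_add, mul_add]
  apply Nat.add_le_add
  apply Nat.add_le_add
  · have := sum_gd (sZ π F m) (fun a => dbl (F.K (π.t (a + m / 2)))) g 0 (π.H - m) hq
      fun u hu => by rw [zero_add, sZ, if_pos hu]
    simpa only [zero_add, card_dbl hG] using this
  · exact sum_gd (sZ π F m) (fun b => F.Z (π.nu b)) g _ m hq fun v hv => by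
      rw [sZ, if_neg (by omega), if_pos (by omega), if_pos (by omega), Nat.add_sub_cancel_left]
  · exact sum_gd (sZ π F m) (fun b => F.Z (π.nu (2 * b + 1 + 2 * (m / 2)))) g _ _ hq
      fun v hv => by
      have h1 : v / π.q < (π.H - m) / 2 := by rw [Nat.div_lt_iff_lt_mul hq]; exact hv
      rw [sZ, if_neg (by omega), if_neg (by omega), Nat.add_sub_cancel_left, if_pos h1]

lemma card_nY (hp : p = 2 * π.P + 1) {j : ℕ} (hj : ¬ j ≤ 2 * π.H) :
    (π.q - g) * opY π.H π.nu (fun j => (F.Z j).card) (j - 2 * π.H) ≤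
      (nZ (p := p) π F g j).card := by
  have hq := π.hq
  have hP := π.hP
  have hH := π.hH
  rw [nZ, if_neg hj]
  refine le_trans ?_ (card_glue _ _ _)
  set m := j - 2 * π.H with hm
  refine le_trans ?_ (sum_le_sum_of_subset (range_subset_range.mpr
    (show π.H * π.q ≤ p by omega)))
  have := sum_gd (sY π F m) (fun b => if m ≤ b then F.Z (π.nu b) else ∅) g 0 π.H hq
    fun u hu => by
      rw [zero_add, sY]
      by_cases h : m ≤ u / π.q
      · rw [if_pos ⟨hu, h⟩, if_pos h]
      · rw [if_neg (fun h' => h h'.2), if_neg h]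
  simpa only [zero_add, opY, apply_ite Finset.card, card_empty] using this

end

end Pool.Agent.H62Z.R3
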