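import Mathlib

/-!
Finite sets with a bounded strictly midpoint-convex weight.
-/

set_option autoImplicit false
set_option linter.unusedSectionVars false

namespace Pool.Agent.H62Z.R3

open Finset

/-- a weight with values in `[0, B]` which is midpoint convex with gap `ε` -/
def IsW {G : Type*} [AddCommGroup G] (ε B : ℝ) (S : Finset G) (w : G → ℝ) : Prop :=
  (∀ x ∈ S, 0 ≤ w x ∧ w x ≤ B) ∧
    ∀ x ∈ S, ∀ z ∈ S, ∀ y ∈ S, x + z = y + y → x ≠ z → 2 * w y + ε ≤ w x + w z

/-- existence of a weight -/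
def Wt {G : Type*} [AddCommGroup G] (ε B : ℝ) (S : Finset G) : Prop := ∃ w, IsW ε B S w

/-- doubling is injective -/
def Inj2 (G : Type*) [AddCommGroup G] : Prop := ∀ x z : G, x + x = z + z → x = z

section
variable {G G' : Type*} [AddCommGroup G] [AddCommGroup G'] {ε B B' : ℝ}

lemma wt_empty : Wt ε B (∅ : Finset G) := ⟨fun _ => 0, by simp, by simp⟩

lemma wt_comap {S : Finset G} {T : Finset G'} (hS : Wt ε B S) (f : G' →+ G)
    (hf : Function.Injective f) (h : ∀ x ∈ T, f x ∈ S) : Wt ε B T := by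
  obtain ⟨w, h1, h2⟩ := hS
  exact ⟨fun x => w (f x), fun x hx => h1 _ (h x hx), fun x hx z hz y hy e hne =>
    h2 _ (h x hx) _ (h z hz) _ (h y hy) (by rw [← map_add, e, map_add]) (hf.ne hne)⟩

lemma inj2_zmod {p : ℕ} (hp : Odd p) : Inj2 (ZMod p) := by
  intro x z h
  have h2 : IsUnit (2 : ZMod p) := by
    have : ((2 : ℕ) : ZMod p) = 2 := by norm_num
    rw [← this, ZMod.isUnit_iff_coprime]
    exact (Nat.coprime_two_left).2 hp
  have : (2 : ZMod p) * x = 2 * z := by linear_combination h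
  exact h2.mul_left_cancel this

lemma wt_prod (hG : Inj2 G) (hG' : Inj2 G') {S : Finset G} {T : Finset G'} (hε : 0 ≤ ε)
    (hS : Wt ε B S) (hT : Wt ε B' T) : Wt ε (B + B') (S ×ˢ T) := by
  obtain ⟨w, h1, h2⟩ := hS
  obtain ⟨w', h1', h2'⟩ := hT
  refine ⟨fun x => w x.1 + w' x.2, fun x hx => ?_, fun x hx z hz y hy e hne => ?_⟩
  · rw [mem_product] at hx
    have := h1 _ hx.1
    have := h1' _ hx.2
    constructor <;> linarith [this.1, this.2]
  · rw [mem_product] at hx hz hy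
    have e1 : x.1 + z.1 = y.1 + y.1 := congrArg Prod.fst e
    have e2 : x.2 + z.2 = y.2 + y.2 := congrArg Prod.snd e
    simp only
    by_cases c1 : x.1 = z.1 <;> by_cases c2 : x.2 = z.2
    · exact absurd (Prod.ext c1 c2) hne
    · have := h2' _ hx.2 _ hz.2 _ hy.2 e2 c2
      rw [← c1] at e1 ⊢
      rw [← hG _ _ e1]; linarith
    · have := h2 _ hx.1 _ hz.1 _ hy.1 e1 c1
      rw [← c2] at e2 ⊢
      rw [← hG' _ _ e2]; linarith
    · have := h2 _ hx.1 _ hz.1 _ hy.1 e1 c1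
      have := h2' _ hx.2 _ hz.2 _ hy.2 e2 c2
      linarith

variable [Fintype G] [DecidableEq G]

/-- Halving. -/
def half (S : Finset G) : Finset G := univ.filter fun x => x + x ∈ S

/-- Doubling. -/
def dbl (S : Finset G) : Finset G := S.image fun x => x + x

lemma mem_half {S : Finset G} {x : G} : x ∈ half S ↔ x + x ∈ S := by simp [half]

omit [Fintype G] in
lemma mem_dbl {S : Finset G} {x : G} : x ∈ dbl S ↔ ∃ y ∈ S, y + y = x := by simp [dbl]

omit [Fintype G] in
lemma card_dbl (hG : Inj2 G) (S : Finset G) : (dbl S).card = S.card :=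
  card_image_of_injective _ fun x z h => hG x z h

omit [DecidableEq G] in
lemma bij2 (hG : Inj2 G) : Function.Bijective fun x : G => x + x :=
  Finite.injective_iff_bijective.1 fun x z h => hG x z h

lemma card_half (hG : Inj2 G) (S : Finset G) : (half S).card = S.card := by
  refine card_bij (fun x _ => x + x) (fun x hx => mem_half.1 hx) (fun x _ z _ h => hG x z h) ?_
  intro y hy
  obtain ⟨x, hx⟩ := (bij2 hG).2 y
  refine ⟨x, mem_half.2 ?_, hx⟩
  simp only at hx
  rw [hx]; exact hy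

lemma wt_half (hG : Inj2 G) {S : Finset G} (hS : Wt ε B S) : Wt ε B (half S) :=
  wt_comap hS (AddMonoidHom.id G + AddMonoidHom.id G) (fun x z h => hG x z h)
    fun _ hx => mem_half.1 hx

lemma wt_dbl (hG : Inj2 G) {S : Finset G} (hS : Wt ε B S) : Wt ε B (dbl S) := by
  let e : G ≃+ G := AddEquiv.ofBijective (AddMonoidHom.id G + AddMonoidHom.id G) (bij2 hG)
  refine wt_comap hS e.symm.toAddMonoidHom e.symm.injective fun x hx => ?_
  obtain ⟨y, hy, rfl⟩ := mem_dbl.1 hx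
  have : e.symm (y + y) = y := e.symm_apply_apply y
  change e.symm (y + y) ∈ S
  rw [this]; exact hy

variable {p : ℕ} [NeZero p]

/-- Gluing of slices, keeping only the slices which stay the same for `g` more steps. -/
def glue (F : ℕ → Finset G) (s : ZMod p) (g : ℕ) : Finset (ZMod p × G) :=
  univ.filter fun x => x.2 ∈ F (x.1 + s).val ∧ ∀ v < g, F ((x.1 + s).val + v) = F (x.1 + s).val

lemma mem_glue {F : ℕ → Finset G} {s : ZMod p} {g : ℕ} {x : ZMod p × G} (h : x ∈ glue F s g) :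
    x.2 ∈ F (x.1 + s).val ∧ ∀ v < g, F ((x.1 + s).val + v) = F (x.1 + s).val :=
  (mem_filter.mp h).2

/-- the next bound -/
def nB (T B : ℝ) : ℝ := B + (2 * (2 * B + 1) * T ^ 2 + 2)

lemma wt_glue (hG : Inj2 G) (F : ℕ → Finset G) (s : ZMod p) {g : ℕ} {T : ℝ} (hB : 0 ≤ B)
    (hε : 0 ≤ ε) (hε' : ε * p ^ 2 ≤ 1) (hg : g ≤ p) (hT : (p : ℝ) ≤ T * g)
    (h1 : ∀ u, Wt ε B (F u))
    (h2 : ∀ u1 u2 u3, u1 < p → u2 < p → u3 < p → u1 + u2 + p = 2 * u3 →
      ∀ x ∈ F u1, ∀ z ∈ F u2, ∀ y ∈ F u3, x + z ≠ y + y) :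
    Wt ε (nB T B) (glue F s g) := by
  classical
  have hp0 : (0 : ℝ) < p := by exact_mod_cast NeZero.pos p
  have hp1 : (1 : ℝ) ≤ p := by exact_mod_cast NeZero.pos p
  have hε1 : ε ≤ 1 := le_trans (le_mul_of_one_le_right hε (one_le_pow₀ hp1)) hε'
  have : ∀ S : Finset G, ∃ w, Wt ε B S → IsW ε B S w := fun S => by
    by_cases h : Wt ε B S
    · exact h.imp fun w hw _ => hw
    · exact ⟨fun _ => 0, fun h' => absurd h' h⟩
  choose W hW using this
  set K : ℝ := 2 * (2 * B + 1) * T ^ 2 + 2 with hK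
  have hK2 : 2 ≤ K := by rw [hK]; nlinarith [sq_nonneg T]
  have hKg : 2 * (2 * B + 1) * (p : ℝ) ^ 2 ≤ K * g ^ 2 := by
    have : (p : ℝ) ^ 2 ≤ (T * g) ^ 2 := by gcongr
    rw [hK]; nlinarith [sq_nonneg (g : ℝ)]
  set f : ZMod p × G → ℕ := fun x => (x.1 + s).val with hf
  have hlt : ∀ x, f x < p := fun x => ZMod.val_lt _
  refine ⟨fun x => W (F (f x)) x.2 + K * (f x : ℝ) ^ 2 / p ^ 2, fun x hx => ?_,
    fun x hx z hz y hy e hne => ?_⟩
  · have a1 := (hW _ (h1 (f x))).1 _ (mem_glue hx).1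
    have a2 : (f x : ℝ) ≤ p := by exact_mod_cast (hlt x).le
    have a3 : K * (f x : ℝ) ^ 2 / p ^ 2 ≤ K := by
      rw [div_le_iff₀ (by positivity)]; gcongr
    have a4 : 0 ≤ K * (f x : ℝ) ^ 2 / p ^ 2 := by positivity
    unfold nB
    simp only
    constructor <;> linarith [a1.1, a1.2]
  have e1 : (x.1 + s) + (z.1 + s) = (y.1 + s) + (y.1 + s) := by
    have : x.1 + z.1 = y.1 + y.1 := congrArg Prod.fst e
    linear_combination this
  have e2 : x.2 + z.2 = y.2 + y.2 := congrArg Prod.snd e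
  have hmod : (f x + f z) % p = (f y + f y) % p := by
    have h := congrArg ZMod.val e1
    rwa [ZMod.val_add (x.1 + s) (z.1 + s), ZMod.val_add (y.1 + s) (y.1 + s)] at h
  have bx := (hW _ (h1 (f x))).1 _ (mem_glue hx).1
  have bz := (hW _ (h1 (f z))).1 _ (mem_glue hz).1
  have by' := (hW _ (h1 (f y))).1 _ (mem_glue hy).1
  have hcase : f x + f z = 2 * f y ∨ f x + f z + p = 2 * f y ∨ f x + f z = 2 * f y + p := by
    have a1 := hlt x
    have a2 := hlt z
    have a3 := hlt y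
    rcases Nat.lt_or_ge (f x + f z) p with c1 | c1 <;> rcases Nat.lt_or_ge (f y + f y) p with c2 | c2
    · rw [Nat.mod_eq_of_lt c1, Nat.mod_eq_of_lt c2] at hmod; omega
    · rw [Nat.mod_eq_of_lt c1, Nat.mod_eq_sub_mod c2, Nat.mod_eq_of_lt (by omega)] at hmod; omega
    · rw [Nat.mod_eq_of_lt c2, Nat.mod_eq_sub_mod c1, Nat.mod_eq_of_lt (by omega)] at hmod; omega
    · rw [Nat.mod_eq_sub_mod c2, Nat.mod_eq_sub_mod c1, Nat.mod_eq_of_lt (by omega),
        Nat.mod_eq_of_lt (by omega)] at hmod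
      omega
  -- reduction to a lower bound for the quadratic part
  have big : (g : ℝ) ^ 2 ≤ 2 * ((f x : ℝ) ^ 2 + (f z : ℝ) ^ 2 - 2 * (f y : ℝ) ^ 2) →
      2 * (W (F (f y)) y.2 + K * (f y : ℝ) ^ 2 / p ^ 2) + ε ≤
        W (F (f x)) x.2 + K * (f x : ℝ) ^ 2 / p ^ 2 +
          (W (F (f z)) z.2 + K * (f z : ℝ) ^ 2 / p ^ 2) := by
    intro h
    have : 2 * B + 1 ≤ K * ((f x : ℝ) ^ 2 + (f z : ℝ) ^ 2 - 2 * (f y : ℝ) ^ 2) / p ^ 2 := by
      rw [le_div_iff₀ (by positivity)]; nlinarith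
    have e3 : K * ((f x : ℝ) ^ 2 + (f z : ℝ) ^ 2 - 2 * (f y : ℝ) ^ 2) / p ^ 2 =
      K * (f x : ℝ) ^ 2 / p ^ 2 + K * (f z : ℝ) ^ 2 / p ^ 2 - 2 * (K * (f y : ℝ) ^ 2 / p ^ 2) := by
      ring
    linarith [bx.1, bz.1, by'.2]
  simp only
  rcases hcase with h | h | h
  · have hR : (f x : ℝ) + f z = 2 * f y := by exact_mod_cast h
    have hq : 2 * ((f x : ℝ) ^ 2 + (f z : ℝ) ^ 2 - 2 * (f y : ℝ) ^ 2) = ((f x : ℝ) - f z) ^ 2 := by
      have : (f y : ℝ) = (f x + f z) / 2 := by linarith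
      rw [this]; ring
    by_cases c1 : f x + g ≤ f z
    · apply big
      have : (f x : ℝ) + g ≤ f z := by exact_mod_cast c1
      rw [hq]; nlinarith [Nat.cast_nonneg (α := ℝ) g]
    by_cases c2 : f z + g ≤ f x
    · apply big
      have : (f z : ℝ) + g ≤ f x := by exact_mod_cast c2
      rw [hq]; nlinarith [Nat.cast_nonneg (α := ℝ) g]
    have hF : F (f x) = F (f y) ∧ F (f z) = F (f y) := by
      rcases le_total (f x) (f z) with c | c
      · have a1 := (mem_glue hx).2 (f y - f x) (by omega)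
        have a2 := (mem_glue hx).2 (f z - f x) (by omega)
        change F (f x + _) = F (f x) at a1 a2
        rw [Nat.add_sub_cancel' (by omega)] at a1 a2
        exact ⟨a1.symm, a2.trans a1.symm⟩
      · have a1 := (mem_glue hz).2 (f y - f z) (by omega)
        have a2 := (mem_glue hz).2 (f x - f z) (by omega)
        change F (f z + _) = F (f z) at a1 a2
        rw [Nat.add_sub_cancel' (by omega)] at a1 a2
        exact ⟨a2.trans a1.symm, a1.symm⟩
    have mx : x.2 ∈ F (f y) := hF.1 ▸ (mem_glue hx).1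
    have mz : z.2 ∈ F (f y) := hF.2 ▸ (mem_glue hz).1
    rw [hF.1, hF.2]
    have e3 : K * (f x : ℝ) ^ 2 / p ^ 2 + K * (f z : ℝ) ^ 2 / p ^ 2 -
        2 * (K * (f y : ℝ) ^ 2 / p ^ 2) = K * ((f x : ℝ) - f z) ^ 2 / (2 * p ^ 2) := by
      rw [← hq]; field_simp
    by_cases c3 : x.2 = z.2
    · have a1 : f x ≠ f z := by
        intro a
        have : x.1 + s = z.1 + s := ZMod.val_injective p a
        exact hne (Prod.ext (add_right_cancel this) c3)
      have a2 : (1 : ℝ) ≤ ((f x : ℝ) - f z) ^ 2 := by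
        have : (1 : ℤ) ≤ ((f x : ℤ) - f z) ^ 2 := by
          have : (f x : ℤ) - f z ≠ 0 := by omega
          nlinarith [Int.one_le_abs this, sq_abs ((f x : ℤ) - f z)]
        exact_mod_cast this
      have a3 : ε ≤ K * ((f x : ℝ) - f z) ^ 2 / (2 * p ^ 2) := by
        rw [le_div_iff₀ (by positivity)]; nlinarith
      rw [← c3] at e2 ⊢
      rw [← hG _ _ e2]
      linarith
    · have a1 := (hW _ (h1 (f y))).2 _ mx _ mz _ (mem_glue hy).1 e2 c3
      have a3 : 0 ≤ K * ((f x : ℝ) - f z) ^ 2 / (2 * p ^ 2) := by positivity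
      linarith
  · exact absurd e2 (h2 _ _ _ (hlt x) (hlt z) (hlt y) h _ (mem_glue hx).1 _ (mem_glue hz).1 _
      (mem_glue hy).1)
  · apply big
    have hR : (f x : ℝ) + f z = 2 * f y + p := by exact_mod_cast h
    have a1 : (g : ℝ) ≤ p := by exact_mod_cast hg
    have a2 : (g : ℝ) ^ 2 ≤ p ^ 2 := by gcongr
    have a3 : (0 : ℝ) ≤ f y := Nat.cast_nonneg _
    have : (f z : ℝ) = 2 * f y + p - f x := by linarith
    rw [this]
    nlinarith [sq_nonneg (2 * (f x : ℝ) - 2 * f y - p)]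

/-- size of a kept slice -/
def gd (F : ℕ → Finset G) (g u : ℕ) : ℕ := if ∀ v < g, F (u + v) = F u then (F u).card else 0

lemma card_glue (F : ℕ → Finset G) (s : ZMod p) (g : ℕ) :
    ∑ u ∈ range p, gd F g u ≤ (glue F s g).card := by
  have hmaps : ∀ x ∈ glue F s g, (x.1 + s).val ∈ range p := by
    intro x _
    rw [mem_range]; exact ZMod.val_lt _
  rw [card_eq_sum_card_fiberwise hmaps]
  refine sum_le_sum fun u hu => ?_
  rw [mem_range] at hu
  unfold gd
  split_ifs with h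
  swap
  · exact Nat.zero_le _
  refine card_le_card_of_injOn (fun c => ((u : ZMod p) - s, c)) (fun c hc => ?_)
    fun c _ c' _ e => (Prod.ext_iff.mp e).2
  have hval : ((u : ZMod p) - s + s).val = u := by
    rw [sub_add_cancel, ZMod.val_natCast, Nat.mod_eq_of_lt hu]
  simp only [coe_filter, Set.mem_ofPred_eq, glue, mem_filter, mem_univ, true_and, hval]
  exact ⟨⟨hc, h⟩, trivial⟩

omit [AddCommGroup G] [Fintype G] in
lemma sum_gd (F E : ℕ → Finset G) (g s A : ℕ) {q : ℕ} (hq : 1 ≤ q)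
    (h : ∀ v < A * q, F (s + v) = E (v / q)) :
    (q - g) * ∑ a ∈ range A, (E a).card ≤ ∑ v ∈ range (A * q), gd F g (s + v) := by
  induction A with
  | zero => simp
  | succ A ih =>
    rw [sum_range_succ, add_mul, one_mul, sum_range_add, mul_add]
    refine Nat.add_le_add (ih fun v hv => h v (by rw [add_mul]; omega)) ?_
    have h1 : ∀ v < q, F (s + (A * q + v)) = E A := by
      intro v hv
      rw [h _ (by rw [add_mul]; omega)]
      congr 1
      rw [Nat.div_eq_of_lt_le]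
      · omega
      · rw [add_mul, one_mul]; omega
    calc (q - g) * (E A).card = ∑ v ∈ range (q - g), gd F g (s + (A * q + v)) := by
          rw [sum_congr rfl (g := fun _ => (E A).card)]
          · simp
          · intro v hv
            rw [mem_range] at hv
            unfold gd
            rw [if_pos, h1 v (by omega)]
            intro v' hv'
            rw [h1 v (by omega), add_assoc, add_assoc, h1 _ (by omega)]
      _ ≤ _ := sum_le_sum_of_subset (range_subset_range.mpr (Nat.sub_le _ _))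

end

lemma exists_slice {G : Type*} [AddCommGroup G] [DecidableEq G] {S : Finset G} {ε B : ℝ}
    (hε : 0 < ε) (h : Wt ε B S) : ∃ A ⊆ S, S.card ≤ (⌊2 * B / ε⌋₊ + 1) * A.card ∧
      ∀ x ∈ A, ∀ z ∈ A, ∀ y ∈ A, x + z = y + y → x = z := by
  obtain ⟨w, h1, h2⟩ := h
  have hm : ∀ x ∈ S, ⌊2 * w x / ε⌋₊ ∈ range (⌊2 * B / ε⌋₊ + 1) := fun x hx => by
    rw [mem_range, Nat.lt_succ_iff]
    exact Nat.floor_le_floor (by have := (h1 x hx).2; gcongr)
  obtain ⟨k, -, hk⟩ := exists_max_image (range (⌊2 * B / ε⌋₊ + 1))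
    (fun k => (S.filter fun x => ⌊2 * w x / ε⌋₊ = k).card) ⟨0, by simp⟩
  refine ⟨S.filter fun x => ⌊2 * w x / ε⌋₊ = k, filter_subset _ _, ?_, ?_⟩
  · rw [card_eq_sum_card_fiberwise hm]
    refine le_trans (sum_le_sum hk) (by simp)
  · intro x hx z hz y hy e
    rw [mem_filter] at hx hz hy
    by_contra hne
    have a1 := h2 x hx.1 z hz.1 y hy.1 e hne
    have a2 := Nat.lt_floor_add_one (2 * w x / ε)
    have a3 := Nat.lt_floor_add_one (2 * w z / ε)
    have a4 := Nat.floor_le (a := 2 * w y / ε) (by have := (h1 y hy.1).1; positivity)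
    rw [hx.2, div_lt_iff₀ hε] at a2
    rw [hz.2, div_lt_iff₀ hε] at a3
    rw [hy.2, le_div_iff₀ hε] at a4
    linarith

end Pool.Agent.H62Z.R3
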