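import Mathlib

/-!
Complete oriented hyperbolic surfaces as quotients of the upper half-plane, their simple closed
geodesics, Nielsen convexity and the quotient distance.
-/

set_option autoImplicit false

namespace Pool.Agent.H62Z.SL

open UpperHalfPlane MatrixGroups

/-- The surface `ℍ / Γ`, with the quotient topology. -/
abbrev Surf (Γ : Subgroup SL(2, ℝ)) : Type := MulAction.orbitRel.Quotient Γ ℍ

/-- The projection `ℍ → ℍ / Γ`. -/
noncomputable def proj (Γ : Subgroup SL(2, ℝ)) (z : ℍ) : Surf Γ :=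
  Quotient.mk (MulAction.orbitRel Γ ℍ) z

/-- `Γ` is discrete, acts freely on `ℍ` and is not abelian: `ℍ / Γ` is a complete oriented
hyperbolic surface without boundary whose fundamental group `Γ` is not abelian. -/
structure IsSurfaceGroup (Γ : Subgroup SL(2, ℝ)) : Prop where
  discrete : DiscreteTopology Γ
  free : ∀ γ ∈ Γ, ∀ z : ℍ, γ • z = z → γ = 1
  nonabelian : ∃ γ ∈ Γ, ∃ δ ∈ Γ, γ * δ ≠ δ * γ

/-- The hyperbolic distance of `ℍ / Γ`: the infimum of the distances between lifts. -/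
noncomputable def qdist (Γ : Subgroup SL(2, ℝ)) (p q : Surf Γ) : ℝ :=
  sInf {d : ℝ | ∃ z w : ℍ, proj Γ z = p ∧ proj Γ w = q ∧ d = dist z w}

/-- The simple closed geodesics of length `L` of `ℍ / Γ`, as subsets of the surface: images of
unit speed geodesic lines `c` of `ℍ` whose projection has period `L > 0` and is injective on
`[0, L)`. -/
def simpleGeodesics (Γ : Subgroup SL(2, ℝ)) (L : ℝ) : Set (Set (Surf Γ)) :=
  {σ | 0 < L ∧ ∃ c : ℝ → ℍ, Isometry c ∧ (∀ t, proj Γ (c (t + L)) = proj Γ (c t)) ∧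
    Set.InjOn (fun t => proj Γ (c t)) (Set.Ico 0 L) ∧ σ = Set.range fun t => proj Γ (c t)}

/-- The point `p` lies on some simple closed geodesic. -/
def OnSimpleGeodesic (Γ : Subgroup SL(2, ℝ)) (p : Surf Γ) : Prop :=
  ∃ L : ℝ, ∃ σ ∈ simpleGeodesics Γ L, p ∈ σ

/-- Every point lies on a geodesic segment whose endpoints lie on simple closed geodesics. -/
def NielsenConvex (Γ : Subgroup SL(2, ℝ)) : Prop :=
  ∀ p : Surf Γ, ∃ c : ℝ → ℍ, Isometry c ∧ ∃ a t b : ℝ, a ≤ t ∧ t ≤ b ∧ proj Γ (c t) = p ∧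
    OnSimpleGeodesic Γ (proj Γ (c a)) ∧ OnSimpleGeodesic Γ (proj Γ (c b))

end Pool.Agent.H62Z.SL
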