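import Pool.Agent.H62Z.SLGroup

/-!
Geodesic lines of the upper half-plane, axes, and lifting of isometries.
-/

set_option autoImplicit false

namespace Pool.Agent.H62Z.SL

open UpperHalfPlane MatrixGroups Matrix Topology Filter

lemma exists_same_re (z w : ℍ) : ∃ g : SL(2, ℝ), (g • z).re = (g • w).re := by
  by_cases h : z.re = w.re
  · exact ⟨1, by simpa using h⟩
  have h' : z.re - w.re ≠ 0 := sub_ne_zero.mpr h
  set m := (z.re ^ 2 + z.im ^ 2 - w.re ^ 2 - w.im ^ 2) / (2 * (z.re - w.re)) with hm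
  have hz := z.im_pos
  set r := √((z.re - m) ^ 2 + z.im ^ 2) with hr
  have hr0 : 0 < r := Real.sqrt_pos.mpr (by positivity)
  have h1 : r ^ 2 = (z.re - m) ^ 2 + z.im ^ 2 := Real.sq_sqrt (by positivity)
  have h2 : r ^ 2 = (w.re - m) ^ 2 + w.im ^ 2 := by
    rw [h1]
    have : m * (2 * (z.re - w.re)) = z.re ^ 2 + z.im ^ 2 - w.re ^ 2 - w.im ^ 2 := by
      rw [hm]; field_simp
    linear_combination -this
  let g : SL(2, ℝ) := ⟨!![0, -1; 1, -(m - r)], by simp [Matrix.det_fin_two]⟩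
  have key : ∀ y : ℍ, r ^ 2 = (y.re - m) ^ 2 + y.im ^ 2 → (g • y).re = -1 / (2 * r) := by
    intro y hy
    have hy0 := y.im_pos
    have e1 : (g • y).re = (((g • y : ℍ) : ℂ)).re := rfl
    rw [e1, coe_specialLinearGroup_apply, Complex.div_re]
    have e2 : (y.re - (m - r)) * (y.re - (m - r)) + y.im * y.im = 2 * r * (y.re - (m - r)) := by
      linear_combination -hy
    have e3 : 0 < (y.re - (m - r)) * (y.re - (m - r)) + y.im * y.im :=
      add_pos_of_nonneg_of_pos (mul_self_nonneg _) (mul_pos hy0 hy0)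
    have e4 : y.re - (m - r) ≠ 0 := by
      intro h0; rw [e2, h0] at e3; simp at e3
    simp only [g, of_apply, cons_val', cons_val_zero, cons_val_one,
      cons_val_fin_one, Algebra.algebraMap_self, RingHom.id_apply, Complex.normSq_apply,
      Complex.add_re, Complex.mul_re, Complex.add_im, Complex.mul_im, Complex.ofReal_re,
      Complex.ofReal_im, coe_re, coe_im, zero_mul, one_mul, sub_zero, add_zero,
      ← sub_eq_add_neg, e2]
    field_simp
    ring
  exact ⟨g, by rw [key z h1, key w h2]⟩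

/-- vertical line -/
noncomputable def vl (a : ℝ) (t : ℝ) : ℍ := ⟨⟨a, Real.exp t⟩, Real.exp_pos t⟩

lemma isometry_vl (a : ℝ) : Isometry (vl a) := isometry_vertical_line a

lemma vl_log (z : ℍ) : vl z.re (Real.log z.im) = z :=
  ext_re_im rfl (Real.exp_log z.im_pos)

lemma exists_line (z w : ℍ) : ∃ c : ℝ → ℍ, Isometry c ∧ ∃ s t, c s = z ∧ c t = w := by
  obtain ⟨g, hg⟩ := exists_same_re z w
  refine ⟨fun t => g⁻¹ • vl (g • z).re t, (isometry_smul ℍ g⁻¹).comp (isometry_vl _),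
    Real.log (g • z).im, Real.log (g • w).im, ?_, ?_⟩
  · simp only [vl_log, inv_smul_smul]
  · simp only [hg, vl_log, inv_smul_smul]

lemma cosh_eq (t : ℝ) : Real.cosh t = (Real.exp t + (Real.exp t)⁻¹) / 2 := by
  rw [Real.cosh_eq, Real.exp_neg]

lemma normal_form {c : ℝ → ℍ} (hc : Isometry c) :
    ∃ (g : SL(2, ℝ)) (a s ε : ℝ), (ε = 1 ∨ ε = -1) ∧ ∀ t, g • c t = vl a (s + ε * t) := by
  obtain ⟨g, hg⟩ := exists_same_re (c 0) (c 1)
  have hd : ∀ s t, dist (g • c s) (g • c t) = |s - t| := fun s t => by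
    rw [dist_smul, hc.dist_eq, Real.dist_eq]
  set s := Real.log (g • c 0).im with hs
  set ε := Real.log (g • c 1).im - s with hε
  have h1 : |ε| = 1 := by
    have := hd 1 0
    rw [dist_of_re_eq hg.symm, Real.dist_eq] at this
    simpa using this
  have h2 : ε = 1 ∨ ε = -1 := by
    rcases abs_cases ε with h | h
    · left; linarith [h.1]
    · right; linarith [h.1]
  refine ⟨g, (g • c 0).re, s, ε, h2, fun t => ?_⟩
  have e0 : (g • c 0).im = Real.exp s := (Real.exp_log (g • c 0).im_pos).symm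
  have e1 : (g • c 1).im = Real.exp s * Real.exp ε := by
    rw [← Real.exp_add, hε, add_sub_cancel, Real.exp_log (g • c 1).im_pos]
  have a0 := cosh_dist' (g • c t) (g • c 0)
  have a1 := cosh_dist' (g • c t) (g • c 1)
  have b0 : Real.cosh |t - 0| = Real.cosh (ε * t) := by
    rw [← Real.cosh_abs (ε * t), abs_mul, h1]; simp
  have b1 : Real.cosh |t - 1| = Real.cosh (ε * t - ε) := by
    rw [← Real.cosh_abs (ε * t - ε), ← mul_sub_one, abs_mul, h1, one_mul]
  rw [hd, b0, cosh_eq, e0] at a0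
  rw [hd, b1, cosh_eq, e1, ← hg, Real.exp_sub] at a1
  have hE := Real.exp_pos (ε * t)
  have hS := Real.exp_pos s
  have he := Real.exp_pos ε
  have he1 : Real.exp ε ^ 2 - 1 ≠ 0 := by
    rw [sub_ne_zero, ← Real.exp_nat_mul, Ne, Real.exp_eq_one_iff]
    rcases h2 with h | h <;> rw [h] <;> norm_num
  have hv := (g • c t).im_pos
  set v := (g • c t).im
  set u := (g • c t).re - (g • c 0).re with hu
  field_simp at a0 a1
  have c1 : v = Real.exp s * Real.exp (ε * t) := by
    have : (Real.exp ε ^ 2 - 1) * Real.exp s * (v - Real.exp s * Real.exp (ε * t)) = 0 := by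
      linear_combination a1 - a0
    rcases mul_eq_zero.mp this with h | h
    · exact absurd h (mul_ne_zero he1 hS.ne')
    · linarith
  have c2 : u = 0 := by
    rw [c1] at a0
    have : Real.exp (ε * t) * u ^ 2 = 0 := by linear_combination -a0
    exact pow_eq_zero_iff (two_ne_zero) |>.mp ((mul_eq_zero.mp this).resolve_left hE.ne')
  exact ext_re_im (by change _ = (g • c 0).re; linarith) (by
    change v = Real.exp _
    rw [c1, Real.exp_add])

lemma range_eq_of_axis {c : ℝ → ℍ} (hc : Isometry c) {γ : SL(2, ℝ)} {L : ℝ} (hL : 0 < L)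
    (h : ∀ t, c (t + L) = γ • c t) : Set.range c = {z | dist z (γ • z) = L} := by
  ext z
  constructor
  · rintro ⟨t, rfl⟩
    change dist _ _ = _
    rw [← h, hc.dist_eq, Real.dist_eq]
    simp [hL.le]
  · intro hz
    change dist _ _ = _ at hz
    obtain ⟨g, a, s, ε, h2, hg⟩ := normal_form hc
    have key : ∀ t, dist (g • z) (vl a (s + ε * t)) =
        dist (g • γ • z) (vl a (s + ε * (t + L))) := by
      intro t
      rw [← hg, ← hg, h, dist_smul, dist_smul, dist_smul]
    have a0 := congrArg Real.cosh (key 0)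
    have a1 := congrArg Real.cosh (key 1)
    have a2 := congrArg Real.cosh ((dist_smul g z (γ • z)).trans hz)
    have b0 : Real.cosh L = Real.cosh (ε * L) := by
      rcases h2 with h | h <;> simp [h]
    rw [b0, cosh_dist', cosh_eq] at a2
    rw [cosh_dist', cosh_dist'] at a0 a1
    simp only [vl, mk_re, mk_im, mul_add, Real.exp_add, mul_zero, mul_one, Real.exp_zero,
      one_mul] at a0 a1
    have hS := Real.exp_pos s
    have he := Real.exp_pos ε
    have hl := Real.exp_pos (ε * L)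
    have he1 : Real.exp ε ^ 2 - 1 ≠ 0 := by
      rw [sub_ne_zero, ← Real.exp_nat_mul, Ne, Real.exp_eq_one_iff]
      rcases h2 with h | h <;> rw [h] <;> norm_num
    have hl1 : Real.exp (ε * L) ^ 2 - 1 ≠ 0 := by
      rw [sub_ne_zero, ← Real.exp_nat_mul, Ne, Real.exp_eq_one_iff]
      rcases h2 with h | h <;> rw [h] <;> norm_num <;> exact hL.ne'
    have hv := (g • z).im_pos
    have hv' := (g • γ • z).im_pos
    have hu : (g • z).re - (g • γ • z).re = ((g • z).re - a) - ((g • γ • z).re - a) := by ring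
    rw [hu] at a2
    have hfin : (g • z).re - a = 0 := by
      set v := (g • z).im
      set v' := (g • γ • z).im
      set u := (g • z).re - a
      set u' := (g • γ • z).re - a
      set l := Real.exp (ε * L)
      field_simp at a0 a1 a2
      have c1 : v' = l * v := by
        have : (Real.exp ε ^ 2 - 1) * Real.exp s ^ 2 * l * (v' - l * v) = 0 := by
          linear_combination a1 - a0
        rcases mul_eq_zero.mp this with h | h
        · exact absurd h (mul_ne_zero (mul_ne_zero he1 (by positivity)) hl.ne')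
        · linarith
      rw [c1] at a0 a2
      have c2 : u - u' = 0 := by
        have : l * (u - u') ^ 2 = 0 := by linear_combination a2
        exact pow_eq_zero_iff (two_ne_zero) |>.mp ((mul_eq_zero.mp this).resolve_left hl.ne')
      have c3 : u' = u := by linarith
      rw [c3] at a0
      have : v * (l ^ 2 - 1) * u ^ 2 = 0 := by linear_combination a0
      exact pow_eq_zero_iff (two_ne_zero) |>.mp ((mul_eq_zero.mp this).resolve_left
        (mul_ne_zero hv.ne' hl1))
    refine ⟨ε * (Real.log (g • z).im - s), ?_⟩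
    apply MulAction.injective g
    change g • c _ = g • z
    rw [hg, ← mul_assoc, show ε * ε = 1 by rcases h2 with h | h <;> simp [h], one_mul,
      add_sub_cancel, ← show (g • z).re = a by linarith, vl_log]

section cover

variable {Γ Γ' : Subgroup SL(2, ℝ)}

lemma IsSurfaceGroup.cov (h : IsSurfaceGroup Γ) : IsCoveringMap (proj Γ) := by
  have := h.discrete
  have : IsCancelSMul Γ ℍ := isCancelSMul_iff_eq_one_of_smul_eq.mpr fun g z hz =>
    Subtype.ext (h.free g.1 g.2 z hz)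
  exact (isQuotientCoveringMap_quotientMk_of_properlyDiscontinuousSMul (G := Γ)
    (E := ℍ)).isCoveringMap

lemma IsSurfaceGroup.deck (h : IsSurfaceGroup Γ) {A : Type} [TopologicalSpace A]
    [PreconnectedSpace A] {f g : A → ℍ} (hf : Continuous f) (hg : Continuous g)
    (he : ∀ a, proj Γ (f a) = proj Γ (g a)) (a : A) : ∃ γ ∈ Γ, ∀ a, f a = γ • g a := by
  obtain ⟨γ, h1, h2⟩ := (proj_eq_iff' Γ _ _).mp (he a)
  refine ⟨γ, h1, fun b => ?_⟩
  have := h.cov.eq_of_comp_eq hf (g₂ := fun a => γ • g a) (hg.const_smul γ) (by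
    ext b
    exact (he b).trans ((proj_eq_iff' Γ _ _).mpr ⟨γ, h1, rfl⟩).symm) a h2.symm
  exact congrFun this b

lemma IsSurfaceGroup.countable_geod (h : IsSurfaceGroup Γ) (hΓ : (Γ : Set SL(2, ℝ)).Countable)
    (L : ℝ) : (simpleGeodesics Γ L).Countable := by
  refine (hΓ.image fun γ => proj Γ '' {z | dist z (γ • z) = L}).mono ?_
  rintro _ ⟨hL, c, hc, h1, -, rfl⟩
  obtain ⟨γ, h2, h3⟩ := h.deck (f := fun t => c (t + L)) (hc.continuous.comp (by fun_prop))
    hc.continuous h1 0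
  refine ⟨γ, h2, ?_⟩
  simp only
  rw [← range_eq_of_axis hc hL h3, ← Set.range_comp]
  rfl

lemma qdist_le (z w : ℍ) : qdist Γ (proj Γ z) (proj Γ w) ≤ dist z w :=
  csInf_le ⟨0, by rintro _ ⟨_, _, _, _, rfl⟩; exact dist_nonneg⟩ ⟨z, w, rfl, rfl, rfl⟩

lemma exists_of_qdist_lt {q : Surf Γ} {w : ℍ} {e : ℝ} (h : qdist Γ q (proj Γ w) < e) :
    ∃ z, proj Γ z = q ∧ dist z w < e := by
  obtain ⟨z0, hz0⟩ := proj_surj Γ q
  have hne : {d : ℝ | ∃ z w' : ℍ, proj Γ z = q ∧ proj Γ w' = proj Γ w ∧ d = dist z w'}.Nonempty :=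
    ⟨_, z0, w, hz0, rfl, rfl⟩
  obtain ⟨_, ⟨z, w', h1, h2, rfl⟩, h3⟩ := exists_lt_of_csInf_lt hne h
  obtain ⟨γ, h4, h5⟩ := (proj_eq_iff' Γ _ _).mp h2.symm
  refine ⟨γ • z, ((proj_eq_iff' Γ _ _).mpr ⟨γ, h4, rfl⟩).trans h1, ?_⟩
  rw [← h5, dist_smul]; exact h3

lemma IsSurfaceGroup.loc (h : IsSurfaceGroup Γ) (w : ℍ) :
    ∀ᶠ z in 𝓝 w, dist z w ≤ qdist Γ (proj Γ z) (proj Γ w) := by
  have := h.discrete
  obtain ⟨U, hU, h1⟩ := ProperlyDiscontinuousSMul.exists_nhds_image_smul_eq_self Γ w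
  obtain ⟨e, he, h2⟩ := Metric.mem_nhds_iff.mp hU
  filter_upwards [Metric.ball_mem_nhds w he] with z hz
  by_contra h3
  obtain ⟨z', h4, h5⟩ := exists_of_qdist_lt (not_le.mp h3)
  obtain ⟨γ, h6, h7⟩ := (proj_eq_iff' Γ _ _).mp h4
  have h8 := h1 ⟨γ, h6⟩ ⟨z', ⟨z, h2 hz, h7⟩, h2 (lt_trans h5 hz)⟩
  have h9 := h.free γ h6 w h8
  rw [← h7, h9, one_smul] at h5
  exact lt_irrefl _ h5

lemma lip_of_loc {F : ℍ → ℍ} (hF : Continuous F)
    (h : ∀ w, ∀ᶠ z in 𝓝 w, dist (F z) (F w) ≤ dist z w) (z w : ℍ) :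
    dist (F z) (F w) ≤ dist z w := by
  have key : ∀ c : ℝ → ℍ, Isometry c → ∀ s t, s ≤ t → dist (F (c t)) (F (c s)) ≤ t - s := by
    intro c hc s t hst
    have hcc := hc.continuous
    have h1 : IsClosed {r | dist (F (c r)) (F (c s)) ≤ r - s} :=
      isClosed_le (by fun_prop) (by fun_prop)
    refine (h1.inter isClosed_Icc).Icc_subset_of_forall_mem_nhdsWithin (a := s) (b := t)
      (by simp) ?_ ⟨hst, le_rfl⟩
    rintro r ⟨hr, -⟩
    filter_upwards [self_mem_nhdsWithin, mem_nhdsWithin_of_mem_nhds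
      (hcc.continuousAt.eventually (h (c r)))] with r' e1 e2
    rw [hc.dist_eq, Real.dist_eq, abs_of_pos (sub_pos.mpr e1)] at e2
    have e3 := dist_triangle (F (c r')) (F (c r)) (F (c s))
    simp only [Set.mem_ofPred_eq] at hr ⊢
    linarith
  obtain ⟨c, hc, s, t, rfl, rfl⟩ := exists_line z w
  rw [hc.dist_eq, Real.dist_eq]
  rcases le_total s t with hst | hst
  · rw [dist_comm, abs_sub_comm]
    exact le_trans (key c hc s t hst) (le_abs_self _)
  · exact le_trans (key c hc t s hst) (le_abs_self _)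

lemma exists_lift (h' : IsSurfaceGroup Γ') {f : Surf Γ → Surf Γ'}
    (hf : ∀ p q, qdist Γ' (f p) (f q) = qdist Γ p q) (z0 w0 : ℍ) (h0 : proj Γ' w0 = f (proj Γ z0)) :
    ∃ F : ℍ → ℍ, Continuous F ∧ F z0 = w0 ∧ (∀ z, proj Γ' (F z) = f (proj Γ z)) ∧
      ∀ z w, dist (F z) (F w) ≤ dist z w := by
  have hc : Continuous fun z => f (proj Γ z) := by
    rw [continuous_iff_continuousAt]
    intro z V hV
    obtain ⟨w, hw⟩ := proj_surj Γ' (f (proj Γ z))
    simp only at hV
    rw [← hw] at hV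
    obtain ⟨e, he, h1⟩ := Metric.mem_nhds_iff.mp ((continuous_proj Γ').continuousAt hV)
    rw [mem_map]
    filter_upwards [Metric.ball_mem_nhds z he] with y hy
    have h2 : qdist Γ' (f (proj Γ y)) (proj Γ' w) < e := by
      rw [hw, hf]; exact lt_of_le_of_lt (qdist_le y z) hy
    obtain ⟨y', h3, h4⟩ := exists_of_qdist_lt h2
    have h5 := h1 h4
    rw [Set.mem_preimage, h3] at h5
    exact h5
  obtain ⟨F, ⟨h1, h2⟩, -⟩ := h'.cov.existsUnique_continuousMap_lifts ⟨_, hc⟩ z0 w0 h0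
  have h3 : ∀ z, proj Γ' (F z) = f (proj Γ z) := fun z => congrFun h2 z
  refine ⟨F, F.continuous, h1, h3, lip_of_loc F.continuous fun w => ?_⟩
  filter_upwards [F.continuous.continuousAt.eventually (h'.loc (F w))] with z hz
  rw [h3, h3, hf] at hz
  exact le_trans hz (qdist_le z w)

lemma exists_isom_lift (h : IsSurfaceGroup Γ) (h' : IsSurfaceGroup Γ') (f : Surf Γ ≃ Surf Γ')
    (hf : ∀ p q, qdist Γ' (f p) (f q) = qdist Γ p q) :
    ∃ F : ℍ → ℍ, Function.Surjective F ∧ (∀ z w, dist (F z) (F w) = dist z w) ∧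
      (∀ z w, proj Γ' (F z) = proj Γ' (F w) ↔ proj Γ z = proj Γ w) ∧
      ∀ γ ∈ Γ, ∃ δ ∈ Γ', ∀ z, F (γ • z) = δ • F z := by
  obtain ⟨w0, h0⟩ := proj_surj Γ' (f (proj Γ I))
  obtain ⟨F, F1, F2, F3, F4⟩ := exists_lift h' hf I w0 h0
  obtain ⟨G, G1, G2, G3, G4⟩ := exists_lift h (f := f.symm) (fun p q => by
    rw [← hf]; simp) w0 I (by rw [h0]; simp)
  have e1 : G ∘ F = id := h.cov.eq_of_comp_eq (G1.comp F1) continuous_id
    (by ext z; simp [G3, F3]) I (by simp [F2, G2])
  have e2 : F ∘ G = id := h'.cov.eq_of_comp_eq (F1.comp G1) continuous_id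
    (by ext z; simp [G3, F3]) w0 (by simp [F2, G2])
  refine ⟨F, fun w => ⟨G w, congrFun e2 w⟩, fun z w => le_antisymm (F4 z w) ?_, fun z w => ?_,
    fun γ hγ => ?_⟩
  · have := G4 (F z) (F w)
    rwa [show G (F z) = z from congrFun e1 z, show G (F w) = w from congrFun e1 w] at this
  · rw [F3, F3, f.injective.eq_iff]
  · exact h'.deck (f := fun z => F (γ • z)) (F1.comp (continuous_const_smul γ)) F1
      (fun z => by rw [F3, F3, (proj_eq_iff' Γ _ _).mpr ⟨γ, hγ, rfl⟩]) I

end cover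

end Pool.Agent.H62Z.SL
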