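import Pool.Agent.H62Z.SLRefl

/-!
The orientation preserving subgroup, orbits, and the local structure of the tiling.
-/

set_option autoImplicit false

namespace Pool.Agent.H62Z.SL

open UpperHalfPlane MatrixGroups Matrix Topology Filter

lemma proj_eq_iff' (Γ : Subgroup SL(2, ℝ)) (z w : ℍ) :
    proj Γ z = proj Γ w ↔ ∃ γ ∈ Γ, γ • w = z := by
  unfold proj
  rw [Quotient.eq, MulAction.orbitRel_apply, MulAction.mem_orbit_iff]
  constructor
  · rintro ⟨γ, h⟩; exact ⟨γ.1, γ.2, h⟩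
  · rintro ⟨γ, h1, h⟩; exact ⟨⟨γ, h1⟩, h⟩

lemma proj_surj (Γ : Subgroup SL(2, ℝ)) (q : Surf Γ) : ∃ z, proj Γ z = q :=
  Quotient.exists_rep q

lemma continuous_proj (Γ : Subgroup SL(2, ℝ)) : Continuous (proj Γ) :=
  continuous_quotient_mk'

lemma isQuotientMap_proj (Γ : Subgroup SL(2, ℝ)) : IsQuotientMap (proj Γ) :=
  isQuotientMap_quotient_mk'

namespace GS

variable (X : GS)

/-- the reflection group -/
def W : Subgroup (GL (Fin 2) ℝ) where
  carrier := Set.range X.wd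
  mul_mem' := by
    rintro _ _ ⟨l, rfl⟩ ⟨l', rfl⟩
    exact ⟨l ++ l', X.wd_append l l'⟩
  one_mem' := ⟨[], rfl⟩
  inv_mem' := by
    rintro _ ⟨l, rfl⟩
    exact ⟨l.reverse, eq_inv_of_mul_eq_one_left (X.wd_reverse_mul l)⟩

/-- its orientation preserving part -/
noncomputable def Γ : Subgroup SL(2, ℝ) := X.W.comap (SpecialLinearGroup.mapGL ℝ)

lemma exists_wd {γ : SL(2, ℝ)} (h : γ ∈ X.Γ) :
    ∃ l : List ℤ, Even l.length ∧ X.wd l = SpecialLinearGroup.mapGL ℝ γ := by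
  obtain ⟨l, hl⟩ := h
  refine ⟨l, ?_, hl⟩
  have h2 := X.wd_det l
  rw [hl, SpecialLinearGroup.det_mapGL] at h2
  by_contra h3
  rw [Odd.neg_one_pow (Nat.not_even_iff_odd.mp h3)] at h2
  have h4 := congrArg Units.val h2
  norm_num at h4

lemma exists_sl {l : List ℤ} (hl : Even l.length) :
    ∃ γ ∈ X.Γ, SpecialLinearGroup.mapGL ℝ γ = X.wd l := by
  have h : (X.wd l).val.det = 1 := by
    have h2 := congrArg Units.val (X.wd_det l)
    rw [hl.neg_one_pow] at h2
    exact h2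
  have h2 : SpecialLinearGroup.mapGL ℝ (⟨(X.wd l).val, h⟩ : SL(2, ℝ)) = X.wd l := by
    ext i j
    rfl
  exact ⟨_, ⟨l, h2.symm⟩, h2⟩

lemma proj_eq_iff (z w : ℍ) :
    proj X.Γ z = proj X.Γ w ↔ ∃ l : List ℤ, Even l.length ∧ X.wd l • w = z := by
  rw [proj_eq_iff']
  constructor
  · rintro ⟨γ, h1, h2⟩
    obtain ⟨l, h3, h4⟩ := X.exists_wd h1
    exact ⟨l, h3, by rw [h4]; exact h2⟩
  · rintro ⟨l, h1, h2⟩
    obtain ⟨γ, h3, h4⟩ := X.exists_sl h1
    exact ⟨γ, h3, by rw [← h4] at h2; exact h2⟩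

lemma proj_wd {l : List ℤ} (hl : Even l.length) (z : ℍ) : proj X.Γ (X.wd l • z) = proj X.Γ z :=
  (X.proj_eq_iff _ _).mpr ⟨l, hl, rfl⟩

lemma rel_iff {p p' : ℍ} (hp : p ∈ X.P) (hp' : p' ∈ X.P) (l l' : List ℤ) :
    proj X.Γ (X.wd l • p) = proj X.Γ (X.wd l' • p') ↔
      p = p' ∧ (Even (l.length + l'.length) ∨ X.OnC p) := by
  rw [proj_eq_iff]
  constructor
  · rintro ⟨m, h1, h2⟩
    have h3 : X.wd (l.reverse ++ m ++ l') • p' = p := by
      rw [wd_append, wd_append, mul_smul, mul_smul, h2, wd_rev_smul]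
    obtain ⟨rfl, h4⟩ := X.uniq hp' hp h3
    refine ⟨rfl, h4.imp (fun h => ?_) id⟩
    simp only [List.length_append, List.length_reverse] at h
    grind
  · rintro ⟨rfl, h⟩
    by_cases he : Even (l.length + l'.length)
    · refine ⟨l ++ l'.reverse, by simpa using he, ?_⟩
      rw [wd_append, mul_smul, wd_rev_smul]
    · obtain ⟨i, hi⟩ := h.resolve_left he
      refine ⟨l ++ i :: l'.reverse, ?_, ?_⟩
      · simp only [List.length_append, List.length_cons, List.length_reverse]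
        grind
      · rw [wd_append, wd_cons, mul_smul, mul_smul, wd_rev_smul, X.R_fix hi]

lemma free {γ : SL(2, ℝ)} (h : γ ∈ X.Γ) (z : ℍ) (hz : γ • z = z) : γ = 1 := by
  obtain ⟨l, h1, h2⟩ := X.exists_wd h
  obtain ⟨m, p, hp, rfl⟩ := X.fold z
  have h3 : X.wd l • X.wd m • p = X.wd m • p := by rw [h2]; exact hz
  have h4 : X.wd (m.reverse ++ l ++ m) • p = p := by
    rw [wd_append, wd_append, mul_smul, mul_smul, h3, wd_rev_smul]
  have h5 := X.wd_eq_one hp h4 (by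
    simp only [List.length_append, List.length_reverse]
    grind)
  rw [wd_append, wd_append] at h5
  have h6 : X.wd l = 1 := by
    calc X.wd l = X.wd m * (X.wd m.reverse * X.wd l * X.wd m) * X.wd m.reverse := by
          simp only [← mul_assoc, wd_mul_reverse, one_mul]
          rw [mul_assoc, wd_mul_reverse, mul_one]
      _ = 1 := by rw [h5, mul_one, wd_mul_reverse]
  apply SpecialLinearGroup.mapGL_injective (S := ℝ)
  rw [← h2, h6, map_one]

lemma discrete : DiscreteTopology X.Γ := by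
  apply discreteTopology_of_isOpen_singleton_one
  have h1 : IsOpen {γ : X.Γ | ∀ i j, |(γ : SL(2, ℝ)) i j - (1 : SL(2, ℝ)) i j| < 1} := by
    simp only [Set.ofPred_forall]
    refine isOpen_iInter_of_finite fun i => isOpen_iInter_of_finite fun j => ?_
    exact isOpen_lt (by fun_prop) continuous_const
  convert h1
  ext γ
  simp only [Set.mem_singleton_iff, Set.mem_ofPred_eq]
  constructor
  · rintro rfl; simp
  · intro h
    obtain ⟨l, -, h2⟩ := X.exists_wd γ.2
    ext i j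
    obtain ⟨n, hn⟩ := X.wd_int l i j
    obtain ⟨n', hn'⟩ := X.wd_int [] i j
    have e1 : (γ : SL(2, ℝ)) i j = n := by rw [← hn, h2]; simp
    have e2 : (1 : SL(2, ℝ)) i j = n' := by rw [← hn']; simp
    have h3 := h i j
    rw [e1, e2] at h3
    have h4 : |n - n'| < 1 := by exact_mod_cast h3
    have h5 : n = n' := by
      have := abs_lt.mp h4
      omega
    change (γ : SL(2, ℝ)) i j = (1 : SL(2, ℝ)) i j
    rw [e1, e2, h5]

/-- a point above an endpoint -/
noncomputable def up (i : ℤ) : ℍ := ⟨⟨X.a i, 1⟩, by simp⟩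

lemma pw_up (i j : ℤ) : 0 < X.pw j (X.up i) := by
  by_cases h : j = i
  · subst h; exact X.pw_pos_of_le le_rfl
  · exact X.pw_pos_of_strip (i := i) le_rfl (X.a_lt i).le h

lemma up_mem (i : ℤ) : X.up i ∈ X.P := fun j => (X.pw_up i j).le

lemma isSurfaceGroup : IsSurfaceGroup X.Γ := by
  refine ⟨X.discrete, fun γ h z hz => X.free h z hz, ?_⟩
  obtain ⟨γ, h1, h2⟩ := X.exists_sl (l := [0, 1]) (by decide)
  obtain ⟨δ, h3, h4⟩ := X.exists_sl (l := [1, 2]) (by decide)
  refine ⟨γ, h1, δ, h3, fun h => ?_⟩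
  have h5 := congrArg (SpecialLinearGroup.mapGL ℝ) h
  rw [map_mul, map_mul, h2, h4, ← wd_append, ← wd_append] at h5
  have h6 := (X.pingpong (X.up_mem 0) [1, 1, 2].tail.tail 0 (by simp)).1
  have h7 := (X.pingpong (X.up_mem 0) [2, 0, 1] 1 (by simp)).1
  have h8 : X.wd ([0, 1] ++ [1, 2]) = X.wd (0 :: [1, 1, 2].tail.tail) := by
    simp only [wd_append, wd_cons, wd_nil, mul_one, List.tail_cons]
    rw [mul_assoc, ← mul_assoc (X.R 1), R_mul, one_mul]
  rw [← h8, h5] at h6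
  exact absurd (X.pw_pos_of_ne h6 (j := 1) (by decide)) (not_lt.mpr h7)

lemma continuous_pw (i : ℤ) : Continuous (X.pw i) := by
  unfold pw; fun_prop

lemma isClosed_P : IsClosed X.P := by
  unfold P
  simp only [Set.ofPred_forall]
  exact isClosed_iInter fun i => isClosed_le continuous_const (X.continuous_pw i)

lemma exists_strip (u : ℝ) : ∃ i, X.a i ≤ u ∧ u < X.a (i + 1) := by
  have h1 : ∃ b : ℤ, ∀ i, X.a i ≤ u → i ≤ b := by
    obtain ⟨n, hn⟩ := exists_nat_gt (u - X.a 0)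
    refine ⟨n, fun i hi => ?_⟩
    by_contra h
    have h2 := X.a_mono (not_le.mp h)
    have h3 := X.add_le 0 n
    have h4 : X.a 0 + n ≤ X.a n := by
      unfold a
      rw [zero_add] at h3
      exact_mod_cast h3
    linarith
  have h2 : ∃ i, X.a i ≤ u := by
    obtain ⟨n, hn⟩ := exists_nat_gt (X.a 0 - u)
    refine ⟨-n, ?_⟩
    have h3 := X.add_le (-n) n
    have h4 : X.a (-n) + n ≤ X.a 0 := by
      unfold a
      rw [neg_add_cancel] at h3
      exact_mod_cast h3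
    linarith
  obtain ⟨i, hi, hmax⟩ := Int.exists_greatest_of_bdd h1 h2
  refine ⟨i, hi, ?_⟩
  by_contra h
  have := hmax _ (not_lt.mp h)
  omega

lemma eventually_pw {z : ℍ} {i : ℤ} (h : ∀ j, j ≠ i → 0 < X.pw j z) :
    ∀ᶠ w in 𝓝 z, ∀ j, j ≠ i → 0 < X.pw j w := by
  obtain ⟨k, hk1, hk2⟩ := X.exists_strip z.re
  have h1 : ∀ j, ∀ᶠ w in 𝓝 z, j ≠ i → 0 < X.pw j w := by
    intro j
    by_cases hj : j = i
    · simp [hj]
    · exact ((X.continuous_pw j).continuousAt.eventually (lt_mem_nhds (h j hj))).mono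
        fun w hw _ => hw
  have h2 : ∀ᶠ w in 𝓝 z, w.re < X.a (k + 1) :=
    continuous_re.continuousAt.eventually (gt_mem_nhds hk2)
  have h3 : ∀ᶠ w in 𝓝 z, X.a (k - 1) < w.re :=
    continuous_re.continuousAt.eventually
      (lt_mem_nhds (lt_of_lt_of_le (X.a_mono (by omega)) hk1))
  filter_upwards [h1 k, h1 (k - 1), h2, h3] with w e1 e2 e3 e4 j hj
  rcases lt_trichotomy j (k - 1) with h | h | h
  · exact X.pw_pos_of_ge (le_trans (X.a_mono.monotone (by omega)) e4.le)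
  · subst h; exact e2 hj
  · rcases eq_or_lt_of_le (show k ≤ j by omega) with h | h
    · subst h; exact e1 hj
    · exact X.pw_pos_of_le (le_trans e3.le (X.a_mono.monotone (by omega)))

lemma local_tiles {p : ℍ} (hp : p ∈ X.P) :
    ∃ i, ∀ᶠ w in 𝓝 p, w ∈ X.P ∨ X.R i • w ∈ X.P := by
  obtain ⟨i, hi1, hi2⟩ := X.exists_strip p.re
  refine ⟨i, ?_⟩
  have h1 := X.eventually_pw (z := p) (i := i) fun j hj => X.pw_pos_of_strip hi1 hi2.le hj
  have h2 := X.eventually_pw (z := X.R i • p) (i := i)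
    fun j hj => X.pw_pos_of_ne (X.pw_R_nonpos (hp i)) hj
  have h3 := (continuous_const_smul (X.R i)).continuousAt.eventually h2
  filter_upwards [h1, h3] with w e1 e2
  by_cases h : 0 ≤ X.pw i w
  · left
    intro j
    by_cases hj : j = i
    · rw [hj]; exact h
    · exact (e1 j hj).le
  · right
    intro j
    by_cases hj : j = i
    · rw [hj]; exact X.pw_R_nonneg (not_le.mp h).le
    · exact (e2 j hj).le

lemma local_tiles' (z : ℍ) : ∃ l l' : List ℤ, ∀ᶠ w in 𝓝 z,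
    X.wd l.reverse • w ∈ X.P ∨ X.wd l'.reverse • w ∈ X.P := by
  obtain ⟨l, p, hp, rfl⟩ := X.fold z
  obtain ⟨i, hi⟩ := X.local_tiles hp
  refine ⟨l, l ++ [i], ?_⟩
  have h1 : Tendsto (fun w => X.wd l.reverse • w) (𝓝 (X.wd l • p)) (𝓝 p) := by
    have := (continuous_const_smul (X.wd l.reverse)).tendsto (X.wd l • p)
    rwa [wd_rev_smul] at this
  filter_upwards [h1.eventually hi] with w hw
  simpa [mul_smul] using hw

/-- representation inside the window of size `N` -/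
def Win (N : ℕ) (z : ℍ) : Prop := ∃ (l : List ℤ) (p : ℍ), (∀ i ∈ l, |i| < N) ∧ p ∈ X.P ∧
  X.a (-N) ≤ p.re ∧ p.re ≤ X.a N ∧ X.wd l • p = z

lemma Win.mono {X : GS} {N M : ℕ} {z : ℍ} (h : X.Win N z) (hNM : N ≤ M) : X.Win M z := by
  obtain ⟨l, p, h1, h2, h3, h4, h5⟩ := h
  refine ⟨l, p, fun i hi => lt_of_lt_of_le (h1 i hi) (by exact_mod_cast hNM), h2,
    le_trans (X.a_mono.monotone (by omega)) h3, le_trans h4 (X.a_mono.monotone (by omega)), h5⟩

lemma exists_bound (l : List ℤ) : ∃ N : ℕ, ∀ i ∈ l, |i| < N := by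
  induction l with
  | nil => exact ⟨0, by simp⟩
  | cons j l ih =>
    obtain ⟨N, hN⟩ := ih
    refine ⟨N + j.natAbs + 1, fun i hi => ?_⟩
    rcases List.mem_cons.mp hi with rfl | hi
    · push_cast; omega
    · have := hN i hi
      push_cast; have := abs_nonneg j; omega

lemma win_aux (l : List ℤ) (z : ℍ) :
    ∃ N : ℕ, ∀ᶠ w in 𝓝 z, X.wd l.reverse • w ∈ X.P → X.Win N w := by
  obtain ⟨N, hN⟩ := exists_bound l
  obtain ⟨k, hk1, hk2⟩ := X.exists_strip (X.wd l.reverse • z).re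
  have hc : Continuous fun w : ℍ => (X.wd l.reverse • w).re := by fun_prop
  refine ⟨N + k.natAbs + 1, ?_⟩
  filter_upwards [hc.continuousAt.eventually (gt_mem_nhds hk2), hc.continuousAt.eventually
    (lt_mem_nhds (lt_of_lt_of_le (X.a_mono (show k - 1 < k by omega)) hk1))] with w e1 e2 hw
  refine ⟨l, _, fun i hi => lt_of_lt_of_le (hN i hi) (by omega), hw,
    le_trans (X.a_mono.monotone (by omega)) e2.le, le_trans e1.le (X.a_mono.monotone (by omega)),
    X.wd_smul_rev l w⟩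

lemma win_compact {K : Set ℍ} (hK : IsCompact K) : ∃ N : ℕ, ∀ z ∈ K, X.Win N z := by
  refine hK.induction_on (p := fun K => ∃ N : ℕ, ∀ z ∈ K, X.Win N z) ⟨0, by simp⟩ ?_ ?_ ?_
  · rintro s t hst ⟨N, hN⟩
    exact ⟨N, fun z hz => hN z (hst hz)⟩
  · rintro s t ⟨N, hN⟩ ⟨M, hM⟩
    exact ⟨max N M, fun z hz => hz.elim (fun h => (hN z h).mono (le_max_left _ _))
      fun h => (hM z h).mono (le_max_right _ _)⟩
  · intro z _
    obtain ⟨l, l', h⟩ := X.local_tiles' z
    obtain ⟨N, hN⟩ := X.win_aux l z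
    obtain ⟨M, hM⟩ := X.win_aux l' z
    refine ⟨_, mem_nhdsWithin_of_mem_nhds (h.and (hN.and hM)), max N M, fun w hw => ?_⟩
    exact hw.1.elim (fun h => (hw.2.1 h).mono (le_max_left _ _))
      fun h => (hw.2.2 h).mono (le_max_right _ _)

end GS

end Pool.Agent.H62Z.SL
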