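import Pool.Agent.H62Z.SLGroup

/-!
All the quotients are homeomorphic.
-/

set_option autoImplicit false

namespace Pool.Agent.H62Z.SL

open UpperHalfPlane MatrixGroups Matrix Topology Filter

namespace GS

variable (X Y : GS)

/-- ratio of radii -/
noncomputable def lam (i : ℤ) : ℝ := Y.ρ i / X.ρ i

lemma ρ_cases (i : ℤ) : X.ρ i = 1 / 2 ∨ X.ρ i = 1 := by
  unfold ρ
  rcases X.a_gap i with h | h <;> rw [h]
  · left; ring
  · right; ring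

lemma lam_ge (i : ℤ) : 1 / 2 ≤ X.lam Y i := by
  unfold lam
  rcases X.ρ_cases i with h | h <;> rcases Y.ρ_cases i with h' | h' <;> rw [h, h'] <;> norm_num

lemma lam_mul (i : ℤ) : X.lam Y i * Y.lam X i = 1 := by
  have := (X.ρ_pos i).ne'
  have := (Y.ρ_pos i).ne'
  unfold lam; field_simp

lemma lam_gap (i : ℤ) : Y.a (i + 1) = Y.a i + X.lam Y i * (X.a (i + 1) - X.a i) := by
  have := (X.ρ_pos i).ne'
  unfold lam
  rw [X.a_eq i, X.a_succ_eq i, Y.a_eq i, Y.a_succ_eq i]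
  field_simp; ring

/-- the map on the strip `i` -/
noncomputable def Φi (i : ℤ) (z : ℍ) : ℍ :=
  ⟨⟨Y.a i + X.lam Y i * (z.re - X.a i), √(max (z.im ^ 2 / 4)
    (z.im ^ 2 + (X.lam Y i ^ 2 - 1) * ((z.re - X.a i) * (X.a (i + 1) - z.re))))⟩,
    Real.sqrt_pos.mpr (lt_max_of_lt_left (by have := z.im_pos; positivity))⟩

lemma continuous_Φi (i : ℤ) : Continuous (X.Φi Y i) := by
  unfold Φi
  apply Continuous.upperHalfPlaneMk
  have : Continuous fun p : ℝ × ℝ => (⟨p.1, p.2⟩ : ℂ) := Complex.equivRealProdCLM.symm.continuous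
  exact this.comp (f := fun z : ℍ => (Y.a i + X.lam Y i * (z.re - X.a i), √(max (z.im ^ 2 / 4)
    (z.im ^ 2 + (X.lam Y i ^ 2 - 1) * ((z.re - X.a i) * (X.a (i + 1) - z.re)))))) (by fun_prop)

lemma Φi_re (i : ℤ) (z : ℍ) : (X.Φi Y i z).re = Y.a i + X.lam Y i * (z.re - X.a i) := rfl

/-- closed strip -/
def St (i : ℤ) : Set ℍ := {z | X.a i ≤ z.re ∧ z.re ≤ X.a (i + 1)}

lemma Φi_im_sq {i : ℤ} {z : ℍ} (hz : z ∈ X.P) (hs : z ∈ X.St i) : (X.Φi Y i z).im ^ 2 =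
    z.im ^ 2 + (X.lam Y i ^ 2 - 1) * ((z.re - X.a i) * (X.a (i + 1) - z.re)) := by
  have h1 := hz i
  unfold pw at h1
  have h2 : 0 ≤ (z.re - X.a i) * (X.a (i + 1) - z.re) :=
    mul_nonneg (by linarith [hs.1]) (by linarith [hs.2])
  have h3 := X.lam_ge Y i
  have h4 : 1 / 4 ≤ X.lam Y i ^ 2 := by nlinarith
  have h5 : z.im ^ 2 / 4 ≤
      z.im ^ 2 + (X.lam Y i ^ 2 - 1) * ((z.re - X.a i) * (X.a (i + 1) - z.re)) := by nlinarith
  change √(max _ _) ^ 2 = _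
  rw [max_eq_right h5, Real.sq_sqrt (le_trans (by positivity) h5)]

lemma Φi_mem {i : ℤ} {z : ℍ} (hs : z ∈ X.St i) : X.Φi Y i z ∈ Y.St i := by
  have h3 := X.lam_ge Y i
  have h1 := hs.1
  have h2 := hs.2
  constructor
  · rw [Φi_re]; nlinarith
  · rw [Φi_re, X.lam_gap Y]; nlinarith

lemma pw_Φi {i : ℤ} {z : ℍ} (hz : z ∈ X.P) (hs : z ∈ X.St i) :
    Y.pw i (X.Φi Y i z) = X.pw i z := by
  unfold pw
  rw [X.Φi_im_sq Y hz hs, Φi_re, X.lam_gap Y]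
  ring

lemma Φi_memP {i : ℤ} {z : ℍ} (hz : z ∈ X.P) (hs : z ∈ X.St i) : X.Φi Y i z ∈ Y.P := by
  intro j
  by_cases h : j = i
  · rw [h, X.pw_Φi Y hz hs]; exact hz i
  · exact (Y.pw_pos_of_strip (X.Φi_mem Y hs).1 (X.Φi_mem Y hs).2 h).le

lemma ext_sq {z w : ℍ} (h1 : z.re = w.re) (h2 : z.im ^ 2 = w.im ^ 2) : z = w :=
  ext_re_im h1 ((sq_eq_sq₀ z.im_pos.le w.im_pos.le).mp h2)

lemma Φi_Φi {i : ℤ} {z : ℍ} (hz : z ∈ X.P) (hs : z ∈ X.St i) :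
    Y.Φi X i (X.Φi Y i z) = z := by
  have h := X.lam_mul Y i
  apply ext_sq
  · rw [Φi_re, Φi_re]
    linear_combination (z.re - X.a i) * h
  · rw [Y.Φi_im_sq X (X.Φi_memP Y hz hs) (X.Φi_mem Y hs), X.Φi_im_sq Y hz hs, Φi_re, X.lam_gap Y]
    linear_combination (z.re - X.a i) * (X.a (i + 1) - z.re) * (X.lam Y i * Y.lam X i + 1) * h

lemma Φi_succ {i : ℤ} {z : ℍ} (hz : z ∈ X.P) (h : z.re = X.a (i + 1)) :
    X.Φi Y (i + 1) z = X.Φi Y i z := by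
  have h1 : z ∈ X.St i := ⟨by rw [h]; exact (X.a_lt i).le, h.le⟩
  have h2 : z ∈ X.St (i + 1) := ⟨h.ge, by rw [h]; exact (X.a_lt _).le⟩
  apply ext_sq
  · rw [Φi_re, Φi_re, h, X.lam_gap Y]; ring
  · rw [X.Φi_im_sq Y hz h1, X.Φi_im_sq Y hz h2, h]; ring

/-- index of the strip -/
noncomputable def idx (u : ℝ) : ℤ := (X.exists_strip u).choose

lemma idx_spec (u : ℝ) : X.a (X.idx u) ≤ u ∧ u < X.a (X.idx u + 1) := (X.exists_strip u).choose_spec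

/-- the map between the fundamental regions -/
noncomputable def Φ (z : ℍ) : ℍ := X.Φi Y (X.idx z.re) z

lemma mem_St (z : ℍ) : z ∈ X.St (X.idx z.re) := ⟨(X.idx_spec _).1, (X.idx_spec _).2.le⟩

lemma Φ_eq {i : ℤ} {z : ℍ} (hz : z ∈ X.P) (hs : z ∈ X.St i) : X.Φ Y z = X.Φi Y i z := by
  obtain ⟨h1, h2⟩ := X.idx_spec z.re
  have h3 : i < X.idx z.re + 1 := X.a_mono.lt_iff_lt.mp (lt_of_le_of_lt hs.1 h2)
  have h4 : X.idx z.re ≤ i + 1 := X.a_mono.le_iff_le.mp (le_trans h1 hs.2)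
  unfold Φ
  rcases eq_or_lt_of_le h4 with h | h
  · rw [h] at h1 ⊢
    exact X.Φi_succ Y hz (le_antisymm hs.2 h1)
  · rw [show X.idx z.re = i by omega]

lemma Φ_memP {z : ℍ} (hz : z ∈ X.P) : X.Φ Y z ∈ Y.P := X.Φi_memP Y hz (X.mem_St z)

lemma Φ_Φ {z : ℍ} (hz : z ∈ X.P) : Y.Φ X (X.Φ Y z) = z := by
  rw [Y.Φ_eq X (X.Φ_memP Y hz) (X.Φi_mem Y (X.mem_St z))]
  exact X.Φi_Φi Y hz (X.mem_St z)

lemma Φ_onC {z : ℍ} (hz : z ∈ X.P) (h : X.OnC z) : Y.OnC (X.Φ Y z) := by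
  obtain ⟨i, hi⟩ := h
  have hs : z ∈ X.St i := ⟨(X.re_mem_of_pw hi.le).1.le, (X.re_mem_of_pw hi.le).2.le⟩
  exact ⟨i, by rw [X.Φ_eq Y hz hs, X.pw_Φi Y hz hs, hi]⟩

lemma isClosed_St (i : ℤ) : IsClosed (X.St i) :=
  (isClosed_le continuous_const continuous_re).inter (isClosed_le continuous_re continuous_const)

lemma continuousOn_Φ : ContinuousOn (X.Φ Y) X.P := by
  have h1 : ∀ i, ContinuousOn (X.Φ Y) (X.P ∩ X.St i) := fun i =>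
    (X.continuous_Φi Y i).continuousOn.congr fun z hz => X.Φ_eq Y hz.1 hz.2
  intro z hz
  obtain ⟨k, hk1, hk2⟩ := X.exists_strip z.re
  have h2 := (h1 (k - 1)).union_of_isClosed (h1 k) (X.isClosed_P.inter (X.isClosed_St _))
    (X.isClosed_P.inter (X.isClosed_St _))
  refine (h2 z (Or.inr ⟨hz, hk1, hk2.le⟩)).mono_of_mem_nhdsWithin ?_
  have h3 : ∀ᶠ w in 𝓝 z, w.re < X.a (k + 1) :=
    continuous_re.continuousAt.eventually (gt_mem_nhds hk2)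
  have h4 : ∀ᶠ w in 𝓝 z, X.a (k - 1) < w.re :=
    continuous_re.continuousAt.eventually
      (lt_mem_nhds (lt_of_lt_of_le (X.a_mono (by omega)) hk1))
  filter_upwards [self_mem_nhdsWithin, mem_nhdsWithin_of_mem_nhds h3,
    mem_nhdsWithin_of_mem_nhds h4] with w e1 e2 e3
  by_cases h : w.re ≤ X.a k
  · exact Or.inl ⟨e1, e3.le, by rw [sub_add_cancel]; exact h⟩
  · exact Or.inr ⟨e1, (not_le.mp h).le, e2.le⟩

lemma exists_rep (q : Surf X.Γ) :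
    ∃ lp : List ℤ × ℍ, lp.2 ∈ X.P ∧ proj X.Γ (X.wd lp.1 • lp.2) = q := by
  obtain ⟨z, rfl⟩ := proj_surj _ q
  obtain ⟨l, p, hp, rfl⟩ := X.fold z
  exact ⟨(l, p), hp, rfl⟩

/-- chosen representative -/
noncomputable def rep (q : Surf X.Γ) : List ℤ × ℍ := (X.exists_rep q).choose

lemma rep_spec {p : ℍ} (hp : p ∈ X.P) (l : List ℤ) :
    (X.rep (proj X.Γ (X.wd l • p))).2 = p ∧
      (Even ((X.rep (proj X.Γ (X.wd l • p))).1.length + l.length) ∨ X.OnC p) := by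
  obtain ⟨h1, h2⟩ := (X.exists_rep (proj X.Γ (X.wd l • p))).choose_spec
  obtain ⟨h3, h4⟩ := (X.rel_iff h1 hp _ _).mp h2
  refine ⟨h3, ?_⟩
  rw [h3] at h4
  exact h4

/-- the map between the quotients -/
noncomputable def Ψ (q : Surf X.Γ) : Surf Y.Γ := proj Y.Γ (Y.wd (X.rep q).1 • X.Φ Y (X.rep q).2)

lemma Ψ_spec {p : ℍ} (hp : p ∈ X.P) (l : List ℤ) :
    X.Ψ Y (proj X.Γ (X.wd l • p)) = proj Y.Γ (Y.wd l • X.Φ Y p) := by
  obtain ⟨h1, h2⟩ := X.rep_spec hp l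
  unfold Ψ
  rw [h1, Y.rel_iff (X.Φ_memP Y hp) (X.Φ_memP Y hp)]
  exact ⟨rfl, h2.imp id (X.Φ_onC Y hp)⟩

lemma Ψ_Ψ (q : Surf X.Γ) : Y.Ψ X (X.Ψ Y q) = q := by
  obtain ⟨⟨l, p⟩, hp, rfl⟩ := X.exists_rep q
  rw [X.Ψ_spec Y hp, Y.Ψ_spec X (X.Φ_memP Y hp), X.Φ_Φ Y hp]

lemma continuous_Ψ : Continuous (X.Ψ Y) := by
  rw [(isQuotientMap_proj X.Γ).continuous_iff, continuous_iff_continuousAt]
  have h1 : ∀ l : List ℤ, ContinuousOn (X.Ψ Y ∘ proj X.Γ) {w | X.wd l.reverse • w ∈ X.P} := by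
    intro l
    have h2 : ContinuousOn (fun w : ℍ => X.Φ Y (X.wd l.reverse • w))
        {w | X.wd l.reverse • w ∈ X.P} :=
      (X.continuousOn_Φ Y).comp (continuous_const_smul _).continuousOn fun w hw => hw
    have h3 := ((continuous_proj Y.Γ).comp (continuous_const_smul (Y.wd l))).comp_continuousOn h2
    refine h3.congr fun w hw => ?_
    have h4 := X.Ψ_spec Y hw l
    rw [wd_smul_rev] at h4
    exact h4
  have h2 : ∀ l : List ℤ, IsClosed {w | X.wd l.reverse • w ∈ X.P} := fun l =>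
    X.isClosed_P.preimage (continuous_const_smul _)
  intro z
  obtain ⟨l, l', h⟩ := X.local_tiles' z
  exact ((h1 l).union_of_isClosed (h1 l') (h2 l) (h2 l')).continuousAt h

lemma homeo : Nonempty (Surf X.Γ ≃ₜ Surf Y.Γ) :=
  ⟨⟨⟨X.Ψ Y, Y.Ψ X, X.Ψ_Ψ Y, Y.Ψ_Ψ X⟩, X.continuous_Ψ Y, Y.continuous_Ψ X⟩⟩

end GS

end Pool.Agent.H62Z.SL
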