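import Pool.Agent.H62Z.SLGroup

/-!
Common perpendiculars give simple closed geodesics; Nielsen convexity.
-/

set_option autoImplicit false

namespace Pool.Agent.H62Z.SL

open UpperHalfPlane MatrixGroups Matrix Topology Filter

/-- the half circle over `[α, β]` -/
noncomputable def geo {α β : ℝ} (h : α < β) (t : ℝ) : ℍ :=
  ⟨⟨(α + β * Real.exp t ^ 2) / (1 + Real.exp t ^ 2),
    (β - α) * Real.exp t / (1 + Real.exp t ^ 2)⟩, by
      have := sub_pos.mpr h
      have := Real.exp_pos t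
      change 0 < (β - α) * Real.exp t / (1 + Real.exp t ^ 2)
      positivity⟩

section
variable {α β : ℝ} (h : α < β)

lemma geo_re (t : ℝ) : (geo h t).re = (α + β * Real.exp t ^ 2) / (1 + Real.exp t ^ 2) := rfl
lemma geo_im (t : ℝ) : (geo h t).im = (β - α) * Real.exp t / (1 + Real.exp t ^ 2) := rfl

lemma isometry_geo : Isometry (geo h) := by
  refine Isometry.of_dist_eq fun s t => ?_
  apply Real.cosh_injOn (by simp) (by simp)
  rw [cosh_dist', Real.dist_eq, Real.cosh_abs, Real.cosh_eq, neg_sub, Real.exp_sub, Real.exp_sub,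
    geo_re, geo_re, geo_im, geo_im]
  have := (sub_pos.mpr h).ne'
  have := Real.exp_pos t
  have := Real.exp_pos s
  field_simp
  ring

lemma geo_re_lt {s t : ℝ} (hst : s < t) : (geo h s).re < (geo h t).re := by
  have h1 := Real.exp_pos s
  have h2 := Real.exp_lt_exp.mpr hst
  have h3 : Real.exp s ^ 2 < Real.exp t ^ 2 := by nlinarith
  rw [geo_re, geo_re, div_lt_div_iff₀ (by positivity) (by positivity)]
  nlinarith [mul_pos (sub_pos.mpr h) (sub_pos.mpr h3)]

lemma exists_geo {z : ℍ} (hz : z.im ^ 2 = (z.re - α) * (β - z.re)) : ∃ t, geo h t = z := by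
  have hv := z.im_pos
  have h0 : 0 < (z.re - α) * (β - z.re) := by rw [← hz]; positivity
  have h1 : 0 < z.re - α := by nlinarith
  refine ⟨Real.log ((z.re - α) / z.im), ?_⟩
  have h2 : 1 + ((z.re - α) / z.im) ^ 2 = (z.re - α) * (β - α) / z.im ^ 2 := by
    field_simp; linear_combination hz
  have h3 := (sub_pos.mpr h).ne'
  apply ext_re_im
  · rw [geo_re, Real.exp_log (by positivity), h2]
    field_simp
    linear_combination α * hz
  · rw [geo_im, Real.exp_log (by positivity), h2]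
    field_simp

end

namespace GS

variable (X : GS)

lemma pw_geo {α β : ℝ} (h : α < β) (k : ℤ) (t : ℝ) : X.pw k (geo h t) =
    ((α - X.a k) * (α - X.a (k + 1)) + (β - X.a k) * (β - X.a (k + 1)) * Real.exp t ^ 2) /
      (1 + Real.exp t ^ 2) := by
  unfold pw
  rw [geo_re, geo_im]
  field_simp
  ring

lemma R_geo {α β : ℝ} (h : α < β) {i : ℤ} (hi : (α - X.c i) * (β - X.c i) = X.ρ i ^ 2) {s : ℝ}
    (hs : Real.exp s ^ 2 * (β - X.c i) = α - X.c i) (t : ℝ) :
    X.R i • geo h t = geo h (2 * s - t) := by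
  have h1 := X.ρ_pos i
  have hb : β - X.c i ≠ 0 := by
    intro h0; rw [h0] at hi; nlinarith
  have h2 := Real.exp_pos t
  have h3 := Real.exp_pos s
  have e1 : Real.exp (2 * s - t) = Real.exp s ^ 2 / Real.exp t := by
    rw [Real.exp_sub, ← Real.exp_nat_mul]; norm_num
  obtain ⟨b, hb'⟩ : ∃ b, b = β - X.c i := ⟨_, rfl⟩
  have e3 : β = X.c i + b := by linarith
  have e4 : α = X.c i + Real.exp s ^ 2 * b := by rw [hb']; linarith
  have e5 : X.ρ i ^ 2 = Real.exp s ^ 2 * b ^ 2 := by rw [← hi, ← hs, hb']; ring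
  rw [← hb'] at hb
  have e2 : X.nn i (geo h t) = b ^ 2 * (Real.exp s ^ 4 + Real.exp t ^ 2) / (1 + Real.exp t ^ 2) := by
    unfold nn
    rw [geo_re, geo_im, e3, e4]
    field_simp
    ring
  apply ext_re_im
  · rw [R_re, e2, geo_re, geo_re, e1, e5, e3, e4]
    field_simp
    ring
  · rw [R_im, e2, geo_im, geo_im, e1, e5]
    field_simp
    ring

lemma exists_perp {i j : ℤ} (hij : i + 1 < j) : ∃ α β : ℝ, X.c i < α ∧ α < X.a (i + 1) ∧
    X.a j < β ∧ β < X.c j ∧ (α - X.c i) * (β - X.c i) = X.ρ i ^ 2 ∧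
    (α - X.c j) * (β - X.c j) = X.ρ j ^ 2 := by
  have h1 := X.a_mono hij
  rw [X.a_succ_eq i, X.a_eq j] at *
  have h2 := X.ρ_pos i
  have h3 := X.ρ_pos j
  set d := X.c j - X.c i with hd
  set r := X.ρ i
  set r' := X.ρ j
  have h4 : r + r' < d := by linarith
  have hd0 : 0 < d := by linarith
  set σ := (d ^ 2 + r ^ 2 - r' ^ 2) / d with hσ
  have h5 : σ * d = d ^ 2 + r ^ 2 - r' ^ 2 := by rw [hσ]; field_simp
  have h6 : 2 * r < σ := by
    rw [hσ, lt_div_iff₀ hd0]; nlinarith
  have h7 : (0 : ℝ) ∈ Set.Ioo (r ^ 2 - σ * r + r ^ 2) ((0 : ℝ) ^ 2 - σ * 0 + r ^ 2) := by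
    constructor <;> nlinarith
  obtain ⟨y, ⟨y1, y2⟩, hy⟩ := intermediate_value_Ioo' h2.le
    (f := fun y => y ^ 2 - σ * y + r ^ 2) (by fun_prop) h7
  simp only at hy
  have h8 : (d - y) * (d - (σ - y)) = r' ^ 2 := by linear_combination -hy - h5
  have h9 : 0 < d - (σ - y) := by
    by_contra h
    nlinarith
  have h10 : d - (σ - y) < r' := by
    by_contra h
    nlinarith
  refine ⟨X.c i + y, X.c i + (σ - y), by linarith, by linarith, by linarith, by linarith,
    by linear_combination -hy, ?_⟩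
  rw [← h8, hd]; ring

/-- points all of whose images lie on simple closed geodesics -/
def G0 : Set ℍ := {z | ∀ l : List ℤ, OnSimpleGeodesic X.Γ (proj X.Γ (X.wd l • z))}

lemma G0_R {z : ℍ} (hz : z ∈ X.G0) (i : ℤ) : X.R i • z ∈ X.G0 := fun l => by
  simpa [mul_smul] using hz (l ++ [i])

lemma exists_big (s1 s2 : ℝ) (h12 : s1 ≤ s2) :
    ∃ α β : ℝ, ∃ h : α < β, α < s1 ∧ s2 < β ∧ ∀ t, geo h t ∈ X.G0 := by
  obtain ⟨k, hk, -⟩ := X.exists_strip s1
  obtain ⟨k', -, hk'⟩ := X.exists_strip s2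
  obtain ⟨i, rfl⟩ : ∃ i, k = i + 1 := ⟨k - 1, by ring⟩
  obtain ⟨j, hj⟩ : ∃ j, j = k' + 1 := ⟨_, rfl⟩
  rw [← hj] at hk'
  have hij : i + 1 < j := X.a_mono.lt_iff_lt.mp (by linarith)
  obtain ⟨α, β, a1, a2, a3, a4, a5, a6⟩ := X.exists_perp hij
  have h : α < β := by linarith
  refine ⟨α, β, h, by linarith, by linarith, ?_⟩
  have hsq : ∀ y : ℝ, 0 < y → Real.exp (Real.log y / 2) ^ 2 = y := fun y hy => by
    rw [← Real.exp_nat_mul, show ((2 : ℕ) : ℝ) * (Real.log y / 2) = Real.log y by push_cast; ring,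
      Real.exp_log hy]
  obtain ⟨s, hs⟩ : ∃ s, Real.exp s ^ 2 * (β - X.c i) = α - X.c i := by
    have e : 0 < β - X.c i := by linarith
    refine ⟨_, by rw [hsq ((α - X.c i) / (β - X.c i)) (div_pos (by linarith) e)]; field_simp⟩
  obtain ⟨s', hs'⟩ : ∃ s, Real.exp s ^ 2 * (β - X.c j) = α - X.c j := by
    have e : β - X.c j < 0 := by linarith
    have e' := e.ne
    refine ⟨_, by
      rw [hsq ((α - X.c j) / (β - X.c j)) (div_pos_of_neg_of_neg (by linarith) e)]; field_simp⟩
  have hexp : StrictMono fun t => Real.exp t ^ 2 := fun a b hab => by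
    have h1 := Real.exp_pos a
    have h2 := Real.exp_lt_exp.mpr hab
    simp only; nlinarith
  have hss : s < s' := hexp.lt_iff_lt.mp (by
    have c1 : Real.exp s ^ 2 < 1 := by nlinarith
    have c2 : 1 < Real.exp s' ^ 2 := by nlinarith
    exact lt_trans c1 c2)
  have hpi : ∀ t, X.pw i (geo h t) = (β - α) * (β - X.c i) * (Real.exp t ^ 2 - Real.exp s ^ 2) /
      (1 + Real.exp t ^ 2) := fun t => by
    rw [pw_geo, X.a_succ_eq i, X.a_eq i]
    congr 1
    linear_combination (1 + Real.exp t ^ 2) * a5 + (β - α) * hs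
  have hpj : ∀ t, X.pw j (geo h t) = (β - α) * (X.c j - β) * (Real.exp s' ^ 2 - Real.exp t ^ 2) /
      (1 + Real.exp t ^ 2) := fun t => by
    rw [pw_geo, X.a_succ_eq j, X.a_eq j]
    congr 1
    linear_combination (1 + Real.exp t ^ 2) * a6 + (β - α) * hs'
  have hout : ∀ (y : ℝ) (n k : ℤ), X.a n < y → y < X.a (n + 1) → k ≠ n →
      0 < (y - X.a k) * (y - X.a (k + 1)) := by
    intro y n k e1 e2 e3
    have := X.a_lt k
    rcases lt_or_gt_of_ne e3 with e | e
    · have := X.a_mono.monotone (show k + 1 ≤ n by omega)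
      exact mul_pos (by linarith) (by linarith)
    · have := X.a_mono.monotone (show n + 1 ≤ k by omega)
      exact mul_pos_of_neg_of_neg (by linarith) (by linarith)
  have hpk : ∀ t k, k ≠ i → k ≠ j → 0 < X.pw k (geo h t) := fun t k e1 e2 => by
    rw [pw_geo]
    have := X.ρ_pos i
    have := X.ρ_pos j
    have := hout α i k (by rw [X.a_eq]; linarith) a2 e1
    have := hout β j k a3 (by rw [X.a_succ_eq]; linarith) e2
    positivity
  have b1 : 0 < β - α := by linarith
  have b2 : 0 < β - X.c i := by linarith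
  have b3 : 0 < X.c j - β := by linarith
  have hP : ∀ t, s ≤ t → t ≤ s' → geo h t ∈ X.P := fun t e1 e2 k => by
    by_cases e3 : k = i
    · have := sub_nonneg.mpr (hexp.monotone e1)
      rw [e3, hpi]; positivity
    by_cases e4 : k = j
    · have := sub_nonneg.mpr (hexp.monotone e2)
      rw [e4, hpj]; positivity
    exact (hpk t k e3 e4).le
  have hC : ∀ t, s < t → t < s' → ¬ X.OnC (geo h t) := by
    rintro t e1 e2 ⟨k, hk⟩
    refine ne_of_gt ?_ hk
    by_cases e3 : k = i
    · have := sub_pos.mpr (hexp e1)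
      rw [e3, hpi]; positivity
    by_cases e4 : k = j
    · have := sub_pos.mpr (hexp e2)
      rw [e4, hpj]; positivity
    exact hpk t k e3 e4
  have hinj := (isometry_geo h).injective
  have hS : (Set.range fun t => proj X.Γ (geo h (t + s))) ∈
      simpleGeodesics X.Γ (2 * (s' - s)) := by
    refine ⟨by linarith, fun t => geo h (t + s), (isometry_geo h).comp (isometry_add_right s),
      fun t => ?_, ?_, rfl⟩
    · have e : geo h (t + 2 * (s' - s) + s) = X.wd [j, i] • geo h (t + s) := by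
        simp only [wd_cons, wd_nil, mul_one, mul_smul]
        rw [X.R_geo h a5 hs, X.R_geo h a6 hs']
        congr 1; ring
      simp only
      rw [e]
      exact X.proj_wd (by simp) _
    · have e0 : ∀ t, geo h t = X.wd [] • geo h t := fun t => by simp
      have e1 : ∀ t, geo h t = X.wd [j] • geo h (2 * s' - t) := fun t => by
        simp only [wd_cons, wd_nil, mul_one]
        rw [X.R_geo h a6 hs']
        congr 1; ring
      rintro u ⟨u1, u2⟩ v ⟨v1, v2⟩ huv
      simp only at huv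
      rcases le_or_gt (u + s) s' with c1 | c1 <;> rcases le_or_gt (v + s) s' with c2 | c2
      · rw [e0 (u + s), e0 (v + s), X.rel_iff (hP _ (by linarith) c1) (hP _ (by linarith) c2)] at huv
        linarith [hinj huv.1]
      · rw [e0 (u + s), e1 (v + s), X.rel_iff (hP _ (by linarith) c1)
          (hP _ (by linarith) (by linarith))] at huv
        obtain ⟨d1, d2⟩ := huv
        rw [d1] at d2
        exact absurd (d2.resolve_left (by simp)) (hC _ (by linarith) (by linarith))
      · rw [e1 (u + s), e0 (v + s), X.rel_iff (hP _ (by linarith) (by linarith))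
          (hP _ (by linarith) c2)] at huv
        exact absurd (huv.2.resolve_left (by simp)) (hC _ (by linarith) (by linarith))
      · rw [e1 (u + s), e1 (v + s), X.rel_iff (hP _ (by linarith) (by linarith))
          (hP _ (by linarith) (by linarith))] at huv
        linarith [hinj huv.1]
  intro t l
  refine ⟨_, _, hS, ?_⟩
  by_cases hl : Even l.length
  · exact ⟨t - s, by simp only; rw [sub_add_cancel, X.proj_wd hl]⟩
  · refine ⟨s - t, ?_⟩
    have e : X.wd l • geo h t = X.wd (l ++ [i]) • geo h (s - t + s) := by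
      simp only [wd_append, wd_cons, wd_nil, mul_one, mul_smul]
      rw [X.R_geo h a5 hs]
      congr 2; ring
    simp only
    rw [e, X.proj_wd]
    simp only [List.length_append, List.length_singleton]
    grind

/-- boundary points approached by `G0` -/
def NN (s : ℝ) : Prop := (s, (0 : ℝ)) ∈ closure ((fun z : ℍ => (z.re, z.im)) '' X.G0)

lemma isClosed_NN : IsClosed {s | X.NN s} :=
  isClosed_closure.preimage (f := fun s : ℝ => (s, (0 : ℝ))) (by fun_prop)

lemma NN_R {s : ℝ} (hs : X.NN s) (i : ℤ) (h : s - X.c i ≠ 0) :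
    X.NN (X.c i + X.ρ i ^ 2 / (s - X.c i)) := by
  have h1 : ContinuousAt (fun p : ℝ × ℝ =>
      (X.c i + X.ρ i ^ 2 * (p.1 - X.c i) / ((p.1 - X.c i) ^ 2 + p.2 ^ 2),
        X.ρ i ^ 2 * p.2 / ((p.1 - X.c i) ^ 2 + p.2 ^ 2))) (s, 0) := by
    fun_prop (disch := simpa using h)
  have h2 := h1.continuousWithinAt.mem_closure hs
    (t := (fun z : ℍ => (z.re, z.im)) '' X.G0) (by
      rintro _ ⟨z, hz, rfl⟩
      exact ⟨X.R i • z, X.G0_R hz i, by simp only; rw [R_re, R_im]; rfl⟩)
  unfold NN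
  convert h2 using 2
  · simp only; field_simp; ring
  · simp

lemma NN_c (i : ℤ) : X.NN (X.c i) := by
  refine Metric.mem_closure_iff.mpr fun e he => ?_
  have h0 := X.ρ_pos i
  obtain ⟨α, β, h, h1, h2, h3⟩ := X.exists_big (-(X.ρ i ^ 2 / e)) (X.ρ i ^ 2 / e)
    (neg_le_self (by positivity))
  refine ⟨_, ⟨_, X.G0_R (h3 0) i, rfl⟩, ?_⟩
  have h4 : X.ρ i ^ 2 < e * (geo h 0).im := by
    rw [geo_im, Real.exp_zero, ← div_lt_iff₀' he]
    linarith
  set z := geo h 0
  have h5 := X.nn_pos i z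
  have h6 := z.im_pos
  have h7 : |z.re - X.c i| * z.im ≤ X.nn i z := by
    unfold nn
    rw [← sq_abs (z.re - X.c i)]
    nlinarith [sq_nonneg (|z.re - X.c i| - z.im), abs_nonneg (z.re - X.c i)]
  have h8 : z.im * z.im ≤ X.nn i z := by
    unfold nn
    nlinarith [sq_nonneg (z.re - X.c i)]
  rw [Prod.dist_eq, max_lt_iff, Real.dist_eq, Real.dist_eq]
  simp only
  rw [R_re, R_im, sub_add_cancel_left, abs_neg, zero_sub, abs_neg, abs_div, abs_div, abs_mul,
    abs_mul, abs_of_pos h5, abs_of_pos h6, abs_of_pos (pow_pos h0 2), div_lt_iff₀ h5,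
    div_lt_iff₀ h5]
  constructor
  · by_cases h9 : |z.re - X.c i| = 0
    · rw [h9]; simp; positivity
    · have := lt_of_le_of_ne (abs_nonneg _) (Ne.symm h9)
      nlinarith
  · nlinarith

lemma NN_a (k : ℤ) : X.NN (X.a k) := by
  have h1 := X.ρ_pos k
  have h2 := X.ρ_pos (k - 1)
  have h3 : X.ρ k ≤ 1 := by
    unfold ρ
    rcases X.a_gap k with h | h <;> rw [h] <;> linarith
  have e1 : X.c k = X.a k + X.ρ k := by rw [X.a_eq]; ring
  have e2 : X.c (k - 1) = X.a k - X.ρ (k - 1) := by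
    have := X.a_succ_eq (k - 1)
    rw [sub_add_cancel] at this
    linarith
  have key : ∀ n : ℕ, ∃ u : ℝ, n < u ∧ X.NN (X.a k + 1 / u) := by
    intro n
    induction n with
    | zero => exact ⟨1 / X.ρ k, by simpa using h1, by simpa [e1] using X.NN_c k⟩
    | succ n ih =>
      obtain ⟨u, hu, ih⟩ := ih
      have hu0 : 0 < u := lt_of_le_of_lt (Nat.cast_nonneg n) hu
      have f1 := X.NN_R ih (k - 1) (by
        rw [e2]
        have : 0 < 1 / u := by positivity
        linarith)
      have g1 : X.c (k - 1) + X.ρ (k - 1) ^ 2 / (X.a k + 1 / u - X.c (k - 1)) =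
          X.a k - 1 / (1 / X.ρ (k - 1) + u) := by
        rw [e2, show X.a k + 1 / u - (X.a k - X.ρ (k - 1)) = 1 / u + X.ρ (k - 1) by ring]
        field_simp; ring
      rw [g1] at f1
      have f2 := X.NN_R f1 k (by
        rw [e1]
        have : 0 < 1 / (1 / X.ρ (k - 1) + u) := by positivity
        linarith)
      refine ⟨1 / X.ρ k + (1 / X.ρ (k - 1) + u), ?_, ?_⟩
      · have : 1 ≤ 1 / X.ρ k := by rw [le_div_iff₀ h1]; linarith
        have : 0 < 1 / X.ρ (k - 1) := by positivity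
        push_cast; linarith
      · convert f2 using 1
        have : 0 < 1 / X.ρ (k - 1) + u := by positivity
        generalize 1 / X.ρ (k - 1) + u = w at *
        rw [e1, show X.a k - 1 / w - (X.a k + X.ρ k) = -(1 / w + X.ρ k) by ring]
        field_simp; ring
  refine X.isClosed_NN.closure_subset (Metric.mem_closure_iff.mpr fun e he => ?_)
  obtain ⟨n, hn⟩ := exists_nat_gt (1 / e)
  obtain ⟨u, hu, h⟩ := key n
  have hu0 : 0 < u := lt_of_le_of_lt (Nat.cast_nonneg n) hu
  refine ⟨_, h, ?_⟩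
  rw [Real.dist_eq, sub_add_cancel_left, abs_neg, abs_of_pos (by positivity), div_lt_iff₀ hu0,
    ← div_lt_iff₀' he]
  linarith

lemma NN_rat (n : ℕ) : ∀ q : ℤ, q.natAbs = n → q ≠ 0 → ∀ p : ℤ, X.NN (p / q) := by
  induction n using Nat.strong_induction_on with
  | _ n ih =>
  intro q hq hq0 p
  obtain ⟨i, h1, h2⟩ := X.exists_strip (p / q)
  rcases eq_or_lt_of_le h1 with h1 | h1
  · rw [← h1]; exact X.NN_a i
  by_cases h3 : (p : ℝ) / q - X.c i = 0
  · rw [sub_eq_zero.mp h3]; exact X.NN_c i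
  obtain ⟨A, hA⟩ := X.wd_int [i] 0 0
  obtain ⟨B, hB⟩ := X.wd_int [i] 0 1
  obtain ⟨C, hC⟩ := X.wd_int [i] 1 0
  simp only [wd_cons, wd_nil, mul_one, R, Rm, of_apply, cons_val', cons_val_zero, cons_val_one,
    cons_val_fin_one] at hA hB hC
  have h0 := X.ρ_pos i
  have hq' : (q : ℝ) ≠ 0 := by exact_mod_cast hq0
  have e1 : ((C * p - A * q : ℤ) : ℝ) = q * ((p / q - X.c i) / X.ρ i) := by
    push_cast; rw [← hA, ← hC]; field_simp
  have e2 : C * p - A * q ≠ 0 := by
    intro h
    rw [h] at e1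
    have := mul_ne_zero hq' (div_ne_zero h3 h0.ne')
    exact this (by rw [← e1]; simp)
  have e3 : (C * p - A * q).natAbs < n := by
    rw [← hq]
    have : |((C * p - A * q : ℤ) : ℝ)| < |(q : ℝ)| := by
      rw [e1, abs_mul]
      have : |(p / q - X.c i) / X.ρ i| < 1 := by
        rw [abs_div, abs_of_pos h0, div_lt_one h0, abs_lt]
        rw [X.a_eq] at h1
        rw [X.a_succ_eq] at h2
        constructor <;> linarith
      have := abs_pos.mpr hq'
      nlinarith
    have h5 : |C * p - A * q| < |q| := by exact_mod_cast this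
    rw [Int.abs_eq_natAbs, Int.abs_eq_natAbs] at h5
    exact_mod_cast h5
  have f1 := ih _ e3 _ rfl e2 (A * p + B * q)
  have e4 : ((A * p + B * q : ℤ) : ℝ) / ((C * p - A * q : ℤ) : ℝ) - X.c i =
      X.ρ i ^ 2 / (p / q - X.c i) := by
    rw [e1]; push_cast; rw [← hA, ← hB]
    have e5 : (p : ℝ) = q * ((p / q - X.c i) + X.c i) := by field_simp; ring
    generalize (p : ℝ) / q - X.c i = y at *
    rw [e5]
    have : y ≠ 0 := h3
    field_simp; ring
  have f2 := X.NN_R f1 i (by rw [e4]; exact div_ne_zero (by positivity) h3)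
  convert f2 using 1
  rw [e4]; field_simp; ring

lemma NN_all (s : ℝ) : X.NN s := by
  refine Rat.denseRange_cast.induction_on s X.isClosed_NN fun q => ?_
  rw [Rat.cast_def]
  exact_mod_cast X.NN_rat _ q.den rfl (by exact_mod_cast q.den_nz) q.num

lemma nielsen : NielsenConvex X.Γ := by
  intro p0
  obtain ⟨p, rfl⟩ := proj_surj _ p0
  have hv := p.im_pos
  obtain ⟨α, β, h, h1, h2, h3⟩ := X.exists_big (p.re - p.im) (p.re + p.im) (by linarith)
  have hR : 0 < β - α := by linarith
  set δ := p.im ^ 2 / ((β - α) + p.im + 1) with hδ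
  have hδ0 : 0 < δ := by positivity
  have hδ1 : δ * ((β - α) + p.im + 1) = p.im ^ 2 := by rw [hδ]; field_simp
  have hδ2 : δ < p.im := by nlinarith
  have hU : IsOpen {y : ℝ × ℝ | y.1 < p.re ∧
      (p.re - y.1) * (β - α) < p.im ^ 2 - (p.re - y.1) ^ 2 - y.2 ^ 2} :=
    IsOpen.and (isOpen_lt (by fun_prop) (by fun_prop)) (isOpen_lt (by fun_prop) (by fun_prop))
  obtain ⟨_, ⟨q1, q2⟩, q, hq, rfl⟩ := mem_closure_iff.mp (X.NN_all (p.re - δ)) _ hU
    ⟨by simpa using hδ0, by simp only; nlinarith⟩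
  simp only at q1 q2
  have he : 0 < p.re - q.re := by linarith
  set M := (p.im ^ 2 - (p.re - q.re) ^ 2 - q.im ^ 2) / (2 * (p.re - q.re)) with hM
  have hM1 : M * (2 * (p.re - q.re)) = p.im ^ 2 - (p.re - q.re) ^ 2 - q.im ^ 2 := by
    rw [hM]; field_simp
  have hM2 : (β - α) / 2 < M := by
    rw [hM, lt_div_iff₀ (by linarith)]; linarith
  set r := √(M ^ 2 + p.im ^ 2) with hr
  have hr0 : 0 < r := Real.sqrt_pos.mpr (by positivity)
  have hr1 : r ^ 2 = M ^ 2 + p.im ^ 2 := Real.sq_sqrt (by positivity)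
  have h' : p.re + M - r < p.re + M + r := by linarith
  obtain ⟨tp, htp⟩ := exists_geo h' (z := p) (by linear_combination -hr1)
  obtain ⟨tq, htq⟩ := exists_geo h' (z := q) (by linear_combination -hr1 + hM1)
  have e1 : tq ≤ tp := by
    by_contra e
    have := geo_re_lt h' (not_le.mp e)
    rw [htp, htq] at this; linarith
  have e0 : (geo h' 0).re = p.re + M := by rw [geo_re, Real.exp_zero]; ring
  have e0' : (geo h' 0).im = r := by rw [geo_im, Real.exp_zero]; ring
  have e2 : tp ≤ 0 := by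
    by_contra e
    have := geo_re_lt h' (not_le.mp e)
    rw [htp, e0] at this; linarith
  have hc := (isometry_geo h').continuous
  obtain ⟨b, ⟨b1, -⟩, hb⟩ := intermediate_value_Icc e2
    (f := fun t => (geo h' t).im ^ 2 - ((geo h' t).re - α) * (β - (geo h' t).re)) (by fun_prop)
    (show (0 : ℝ) ∈ _ from ⟨by simp only [htp]; nlinarith, by
      simp only [e0, e0']; nlinarith [sq_nonneg (2 * (p.re + M) - α - β)]⟩)
  obtain ⟨t, ht⟩ := exists_geo h (z := geo h' b) (by simp only at hb; linarith)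
  refine ⟨geo h', isometry_geo h', tq, tp, b, e1, b1, by rw [htp], ?_, ?_⟩
  · simpa [htq] using hq []
  · simpa [ht] using h3 t []

end GS

end Pool.Agent.H62Z.SL
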