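import Pool.Agent.H62Z.SLSpec
import Pool.Agent.H62Z.SLNielsen

/-!
An uncountable family with one simple length spectrum and countable isometry classes.
-/

set_option autoImplicit false

namespace Pool.Agent.H62Z.SL

open UpperHalfPlane MatrixGroups Matrix Topology Filter

namespace GS

lemma cosh_par (X : GS) (i : ℤ) (z : ℍ) :
    Real.cosh (dist z (X.wd [i, i + 1] • z)) = 1 + (1 / X.ρ i + 1 / X.ρ (i + 1)) ^ 2 / 2 *
      (((z.re - X.a (i + 1)) ^ 2 + z.im ^ 2) / z.im) ^ 2 := by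
  have e : dist z (X.wd [i, i + 1] • z) = dist (X.R i • z) (X.R (i + 1) • z) := by
    rw [← X.R_dist i z]
    simp only [wd_cons, wd_nil, mul_one, mul_smul, R_R]
  have h1 := (X.ρ_pos i).ne'
  have h1' := (X.ρ_pos (i + 1)).ne'
  have h2 := (X.nn_pos i z).ne'
  have h3 := (X.nn_pos (i + 1) z).ne'
  have h4 := z.im_pos.ne'
  have e1 : X.c i = X.a (i + 1) - X.ρ i := by rw [X.a_succ_eq]; ring
  have e2 : X.c (i + 1) = X.a (i + 1) + X.ρ (i + 1) := by rw [X.a_eq (i + 1)]; ring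
  rw [e, cosh_dist', R_re, R_re, R_im, R_im]
  field_simp
  unfold nn
  rw [e1, e2]
  ring

lemma eq_of_par (X : GS) {z w : ℍ}
    (h : ∀ n : Fin 3, dist z (X.wd [-(n : ℤ) - 2, -(n : ℤ) - 2 + 1] • z) =
      dist w (X.wd [-(n : ℤ) - 2, -(n : ℤ) - 2 + 1] • w)) : z = w := by
  have hz := z.im_pos
  have hw := w.im_pos
  have key : ∀ n : Fin 3, ((z.re - X.a (-(n : ℤ) - 2 + 1)) ^ 2 + z.im ^ 2) * w.im =
      ((w.re - X.a (-(n : ℤ) - 2 + 1)) ^ 2 + w.im ^ 2) * z.im := by
    intro n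
    have h1 := congrArg Real.cosh (h n)
    rw [cosh_par, cosh_par, add_right_inj] at h1
    have := X.ρ_pos (-(n : ℤ) - 2)
    have := X.ρ_pos (-(n : ℤ) - 2 + 1)
    have h2 := mul_left_cancel₀ (by positivity) h1
    rw [sq_eq_sq₀ (by positivity) (by positivity), div_eq_div_iff hz.ne' hw.ne'] at h2
    exact h2
  have k0 := key 0
  have k1 := key 1
  have k2 := key 2
  have l1 : X.a (-((1 : Fin 3) : ℤ) - 2 + 1) < X.a (-((0 : Fin 3) : ℤ) - 2 + 1) :=
    X.a_mono (by decide)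
  have l2 : X.a (-((2 : Fin 3) : ℤ) - 2 + 1) < X.a (-((1 : Fin 3) : ℤ) - 2 + 1) :=
    X.a_mono (by decide)
  generalize X.a (-((0 : Fin 3) : ℤ) - 2 + 1) = x0 at *
  generalize X.a (-((1 : Fin 3) : ℤ) - 2 + 1) = x1 at *
  generalize X.a (-((2 : Fin 3) : ℤ) - 2 + 1) = x2 at *
  have m1 : (x0 + x1) * (w.im - z.im) = 2 * (z.re * w.im - w.re * z.im) :=
    mul_left_cancel₀ (sub_pos.mpr l1).ne' (by linear_combination k0 - k1)
  have m2 : (x1 + x2) * (w.im - z.im) = 2 * (z.re * w.im - w.re * z.im) :=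
    mul_left_cancel₀ (sub_pos.mpr l2).ne' (by linear_combination k1 - k2)
  have m3 : w.im - z.im = 0 :=
    mul_left_cancel₀ (sub_pos.mpr (lt_trans l2 l1)).ne' (by linear_combination m1 - m2)
  have m4 : z.im = w.im := by linarith
  refine ext_re_im (mul_right_cancel₀ hw.ne' ?_) m4
  rw [m3, m4] at m1
  linarith

lemma R_congr {X Y : GS} {i : ℤ} (h1 : X.x i = Y.x i) (h2 : X.x (i + 1) = Y.x (i + 1)) :
    X.R i = Y.R i := by
  have e1 : X.c i = Y.c i := by unfold c a; rw [h1, h2]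
  have e2 : X.ρ i = Y.ρ i := by unfold ρ a; rw [h1, h2]
  ext : 1
  change X.Rm i = Y.Rm i
  unfold Rm
  rw [e1, e2]

lemma not_same {X Y : GS} (h0 : X.R (-1) = Y.R (-1)) {n : ℤ} (h1 : X.x n = Y.x n)
    (h2 : X.x (n + 1) = X.x n + 1) (h3 : Y.x (n + 1) = Y.x n + 2)
    (h : ∀ z w, proj X.Γ z = proj X.Γ w ↔ proj Y.Γ z = proj Y.Γ w) : False := by
  have e1 : Y.a n = X.a n := by unfold a; rw [h1]
  have e2 : X.a (n + 1) = X.a n + 1 := by unfold a; rw [h2]; push_cast; ring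
  have e3 : Y.a (n + 1) = X.a n + 2 := by unfold a; rw [h3, h1]; push_cast; ring
  have e4 : Y.pw n (X.up (n + 1)) = 0 := by
    unfold pw
    change (X.a (n + 1) - _) * (X.a (n + 1) - _) + (1 : ℝ) ^ 2 = 0
    rw [e1, e2, e3]; ring
  have e5 : X.up (n + 1) ∈ Y.P := fun j => by
    by_cases hj : j = n
    · rw [hj, e4]
    · exact (Y.pw_pos_of_ne e4.le hj).le
  have f1 := (Y.rel_iff e5 e5 [] [-1]).mpr ⟨rfl, Or.inr ⟨n, e4⟩⟩
  rw [← h] at f1
  have f2 := (X.rel_iff (X.up_mem (n + 1)) (X.up_mem (n + 1)) [] [-1]).mp (by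
    simpa [h0] using f1)
  obtain ⟨j, hj⟩ := f2.2.resolve_left (by simp)
  exact (X.pw_up _ j).ne' hj

end GS

/-- partial sums of the gaps -/
noncomputable def xs (b : ℤ → Bool) (i : ℤ) : ℤ :=
  i + ((Finset.Ico 0 i).filter fun j => b j).card - ((Finset.Ico i 0).filter fun j => b j).card

lemma xs_succ (b : ℤ → Bool) (i : ℤ) : xs b (i + 1) = xs b i + if b i then 2 else 1 := by
  unfold xs
  rcases le_or_gt 0 i with h | h
  · rw [← Finset.insert_Ico_right_eq_Ico_add_one h, Finset.Ico_eq_empty (by omega : ¬ i + 1 < 0),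
      Finset.Ico_eq_empty (by omega : ¬ i < 0), Finset.filter_insert]
    split_ifs
    · rw [Finset.card_insert_of_notMem (by simp)]; push_cast; ring
    · ring
  · rw [← Finset.insert_Ico_add_one_left_eq_Ico h, Finset.Ico_eq_empty (by omega : ¬ 0 < i + 1),
      Finset.Ico_eq_empty (by omega : ¬ 0 < i), Finset.filter_insert]
    split_ifs
    · rw [Finset.card_insert_of_notMem (by simp)]; push_cast; ring
    · ring

/-- the sequence with prescribed gaps -/
noncomputable def mkGS (b : ℤ → Bool) : GS := ⟨xs b, fun i => by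
  rw [xs_succ]; split_ifs <;> simp⟩

lemma xs_match {b b' : ℤ → Bool} {s k : ℤ} (n : ℕ) (h : ∀ j : ℕ, j < n → b' (s + j + k) = b (s + j)) :
    xs b' (s + n + k) = xs b' (s + k) - xs b s + xs b (s + n) := by
  induction n with
  | zero => simp
  | succ n ih =>
    push_cast
    rw [← add_assoc s, add_right_comm _ 1 k, xs_succ, xs_succ, ih fun j hj => h j (by omega),
      h n (by omega)]
    ring

lemma exists_D : ∃ D : ℕ → Bool, ∀ (w : ℕ → Bool) (n B : ℕ), ∃ s, B ≤ s ∧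
    ∀ j < n, D (s + j) = w j := by
  obtain ⟨F, hF⟩ := exists_surjective_nat (Finset ℕ)
  refine ⟨fun m => decide (m - m.sqrt * m.sqrt ∈ F (Nat.unpair m.sqrt).1), fun w n B => ?_⟩
  obtain ⟨t, ht⟩ := hF ((Finset.range n).filter fun j => w j)
  have h1 := Nat.right_le_pair t (n + B)
  generalize hk : Nat.pair t (n + B) = k at h1
  refine ⟨k * k, le_trans (by omega) (Nat.le_mul_self k), fun j hj => ?_⟩
  have h2 : (k * k + j).sqrt = k := Nat.sqrt_add_eq k (by omega)
  simp only [h2, Nat.add_sub_cancel_left]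
  rw [← hk, Nat.unpair_pair, ht]
  simp [hj]

/-- the family -/
def fam (D a : ℕ → Bool) (i : ℤ) : Bool := if 0 ≤ i then a i.toNat else D (-1 - i).toNat

lemma fam_rec {D : ℕ → Bool} (hD : ∀ (w : ℕ → Bool) (n B : ℕ), ∃ s, B ≤ s ∧
    ∀ j < n, D (s + j) = w j) (X : ℤ → Bool) (a : ℕ → Bool) :
    (mkGS X).Rec (mkGS (fam D a)) := by
  intro N B
  obtain ⟨B', hB'⟩ := exists_nat_gt (B + |(xs X (-N) : ℝ)|)
  obtain ⟨s, h1, h2⟩ := hD (fun j => X (N - 1 - j)) (2 * N) B'
  have key : ∀ n : ℕ, n ≤ 2 * N → xs (fam D a) (-N + n + (-N - s)) =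
      xs (fam D a) (-N + (-N - s)) - xs X (-N) + xs X (-N + n) := by
    intro n hn
    refine xs_match n fun j hj => ?_
    have h3 := h2 (2 * N - 1 - j) (by omega)
    unfold fam
    rw [if_neg (by omega), show (-1 - (-(N : ℤ) + j + (-N - s))).toNat = s + (2 * N - 1 - j) by
      omega, h3]
    congr 1
    omega
  refine ⟨-N - s, (xs (fam D a) (-N + (-N - s)) - xs X (-N) : ℤ), ?_, fun i hi => ?_⟩
  · have h3 := (mkGS (fam D a)).add_le (-N + (-N - s)) (2 * N + s)
    rw [show -(N : ℤ) + (-N - s) + ((2 * N + s : ℕ) : ℤ) = 0 by push_cast; ring] at h3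
    change xs _ _ + _ ≤ xs _ 0 at h3
    rw [show xs (fam D a) 0 = 0 by simp [xs]] at h3
    have h4 : (xs (fam D a) (-N + (-N - s)) : ℝ) + B' ≤ 0 := by
      have : xs (fam D a) (-N + (-N - s)) + B' ≤ 0 := by omega
      exact_mod_cast this
    push_cast
    have := neg_abs_le (xs X (-N) : ℝ)
    rw [lt_abs]; right; linarith
  · have h3 := abs_le.mp hi
    have h4 := key (i + N).toNat (by omega)
    rw [show -(N : ℤ) + ((i + N).toNat : ℕ) = i by omega] at h4
    change ((xs _ _ : ℤ) : ℝ) = _ + ((xs _ _ : ℤ) : ℝ)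
    exact_mod_cast h4

lemma xs_neg (D a a' : ℕ → Bool) {i : ℤ} (hi : i ≤ 0) : xs (fam D a) i = xs (fam D a') i := by
  unfold xs
  rw [Finset.Ico_eq_empty (by omega : ¬ 0 < i)]
  congr 3
  refine Finset.filter_congr fun j hj => ?_
  have := (Finset.mem_Ico.mp hj).2
  unfold fam
  rw [if_neg (by omega), if_neg (by omega)]

lemma fam_R (D a a' : ℕ → Bool) {i : ℤ} (hi : i < 0) :
    (mkGS (fam D a)).R i = (mkGS (fam D a')).R i :=
  GS.R_congr (xs_neg D a a' hi.le) (xs_neg D a a' (by omega))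

lemma fam_inj {D a a' : ℕ → Bool} (h : ∀ z w, proj (mkGS (fam D a)).Γ z = proj (mkGS (fam D a)).Γ w ↔
    proj (mkGS (fam D a')).Γ z = proj (mkGS (fam D a')).Γ w) : a = a' := by
  have key : ∀ n : ℕ, xs (fam D a) n = xs (fam D a') n → a n = a' n := by
    intro n hn
    have e1 := xs_succ (fam D a) n
    have e2 := xs_succ (fam D a') n
    rw [show fam D a n = a n by simp [fam]] at e1
    rw [show fam D a' n = a' n by simp [fam]] at e2
    by_contra hne
    cases h1 : a n <;> cases h2 : a' n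
    · exact hne (h1.trans h2.symm)
    · exact GS.not_same (fam_R D a a' (by decide)) hn (by simpa [h1, mkGS] using e1)
        (by simpa [h2, mkGS] using e2) h
    · exact GS.not_same (fam_R D a' a (by decide)) hn.symm (by simpa [h2, mkGS] using e2)
        (by simpa [h1, mkGS] using e1) fun z w => (h z w).symm
    · exact hne (h1.trans h2.symm)
  have key2 : ∀ n : ℕ, xs (fam D a) n = xs (fam D a') n := by
    intro n
    induction n with
    | zero => simp [xs]
    | succ n ih =>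
      push_cast
      rw [xs_succ, xs_succ, ih, show fam D a n = a n by simp [fam],
        show fam D a' n = a' n by simp [fam], key n ih]
  exact funext fun n => key n (key2 n)

lemma exists_noniso (D : ℕ → Bool) (Y : GS) : ∃ a : ℕ → Bool,
    ¬ ∃ f : Surf (mkGS (fam D a)).Γ ≃ Surf Y.Γ,
      ∀ p q, qdist Y.Γ (f p) (f q) = qdist (mkGS (fam D a)).Γ p q := by
  by_contra hcon
  push Not at hcon
  choose f hf using hcon
  choose F F1 F2 F3 F4 using fun a => exists_isom_lift (mkGS (fam D a)).isSurfaceGroup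
    Y.isSurfaceGroup (f a) (hf a)
  let X0 := mkGS (fam D fun _ => false)
  have h1 : ∀ (a : ℕ → Bool) (n : Fin 3), ∃ δ : Y.Γ, ∀ z,
      F a (X0.wd [-(n : ℤ) - 2, -(n : ℤ) - 2 + 1] • z) = (δ : SL(2, ℝ)) • F a z := by
    intro a n
    obtain ⟨γ, h2, h3⟩ := (mkGS (fam D a)).exists_sl (l := [-(n : ℤ) - 2, -(n : ℤ) - 2 + 1])
      (by simp)
    obtain ⟨δ, h4, h5⟩ := F4 a γ h2
    refine ⟨⟨δ, h4⟩, fun z => ?_⟩
    rw [← h5]
    congr 1
    change _ = SpecialLinearGroup.mapGL ℝ γ • z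
    rw [h3]
    simp only [GS.wd_cons, GS.wd_nil, X0]
    rw [fam_R D (fun _ => false) a (by omega), fam_R D (fun _ => false) a (by omega)]
  choose δ hδ using h1
  have := Y.countable_Γ.to_subtype
  have h2 : Function.Injective δ := by
    intro a a' h
    have h3 : F a = F a' := by
      ext1 z
      obtain ⟨w, hw⟩ := F1 a' (F a z)
      rw [← hw, X0.eq_of_par (z := z) (w := w) fun n => ?_]
      rw [← F2 a z, ← F2 a' w, hδ, hδ, hw, h]
    exact fam_inj (D := D) fun z w => by rw [← F3 a, ← F3 a', h3]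
  have h3 : Countable (ℕ → Bool) := h2.countable
  obtain ⟨e, he⟩ := exists_surjective_nat (ℕ → Bool)
  obtain ⟨n, hn⟩ := he fun n => !(e n n)
  simpa using congrFun hn n

theorem main : ∃ Γ Γ' : Subgroup SL(2, ℝ), IsSurfaceGroup Γ ∧ IsSurfaceGroup Γ' ∧
    NielsenConvex Γ ∧ NielsenConvex Γ' ∧ Nonempty (Surf Γ ≃ₜ Surf Γ') ∧
    (∀ L : ℝ, Cardinal.mk (simpleGeodesics Γ L) = Cardinal.mk (simpleGeodesics Γ' L)) ∧
    ¬ ∃ f : Surf Γ ≃ Surf Γ', ∀ p q, qdist Γ' (f p) (f q) = qdist Γ p q := by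
  obtain ⟨D, hD⟩ := exists_D
  obtain ⟨a, ha⟩ := exists_noniso D (mkGS (fam D fun _ => false))
  exact ⟨_, _, GS.isSurfaceGroup _, GS.isSurfaceGroup _, GS.nielsen _, GS.nielsen _, GS.homeo _ _,
    GS.card_eq (fam_rec hD _ _) (fam_rec hD _ _), ha⟩

end Pool.Agent.H62Z.SL
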