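import Pool.Agent.H62Z.SLDefs

/-!
Reflection groups generated by the reflections in the half circles over `[x i, x (i+1)]`.
-/

set_option autoImplicit false

namespace Pool.Agent.H62Z.SL

open UpperHalfPlane MatrixGroups Matrix

/-- integer sequences with gaps one or two -/
structure GS where
  x : ℤ → ℤ
  gap : ∀ i, x (i + 1) = x i + 1 ∨ x (i + 1) = x i + 2

namespace GS

variable (X : GS)

lemma lt_succ (i : ℤ) : X.x i < X.x (i + 1) := by
  rcases X.gap i with h | h <;> omega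

lemma strictMono : StrictMono X.x := strictMono_int_of_lt_succ X.lt_succ

lemma add_le (i : ℤ) (n : ℕ) : X.x i + n ≤ X.x (i + n) := by
  induction n with
  | zero => simp
  | succ n ih =>
    have := X.lt_succ (i + n)
    push_cast
    rw [← add_assoc i]
    omega

/-- real endpoints -/
def a (i : ℤ) : ℝ := X.x i

lemma a_lt (i : ℤ) : X.a i < X.a (i + 1) := by
  unfold a; exact_mod_cast X.lt_succ i

lemma a_mono : StrictMono X.a := fun _ _ h => by
  unfold a; exact_mod_cast X.strictMono h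

lemma a_gap (i : ℤ) : X.a (i + 1) = X.a i + 1 ∨ X.a (i + 1) = X.a i + 2 := by
  unfold a
  rcases X.gap i with h | h
  · left; exact_mod_cast h
  · right; exact_mod_cast h

/-- centre -/
noncomputable def c (i : ℤ) : ℝ := (X.a i + X.a (i + 1)) / 2
/-- radius -/
noncomputable def ρ (i : ℤ) : ℝ := (X.a (i + 1) - X.a i) / 2

lemma ρ_pos (i : ℤ) : 0 < X.ρ i := by
  have := X.a_lt i
  unfold ρ; linarith

lemma a_eq (i : ℤ) : X.a i = X.c i - X.ρ i := by unfold c ρ; ring
lemma a_succ_eq (i : ℤ) : X.a (i + 1) = X.c i + X.ρ i := by unfold c ρ; ring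

/-- matrix of the reflection -/
noncomputable def Rm (i : ℤ) : Matrix (Fin 2) (Fin 2) ℝ :=
  !![X.c i / X.ρ i, (X.ρ i ^ 2 - X.c i ^ 2) / X.ρ i; 1 / X.ρ i, -X.c i / X.ρ i]

lemma Rm_mul (i : ℤ) : X.Rm i * X.Rm i = 1 := by
  have := (X.ρ_pos i).ne'
  ext j k
  fin_cases j <;> fin_cases k <;> simp [Rm, Matrix.mul_apply, Fin.sum_univ_two] <;> field_simp <;>
    ring

/-- the reflection -/
noncomputable def R (i : ℤ) : GL (Fin 2) ℝ := ⟨X.Rm i, X.Rm i, X.Rm_mul i, X.Rm_mul i⟩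

lemma R_mul (i : ℤ) : X.R i * X.R i = 1 := Units.ext (X.Rm_mul i)

lemma R_R (i : ℤ) (z : ℍ) : X.R i • X.R i • z = z := by
  rw [← mul_smul, R_mul, one_smul]

lemma R_det (i : ℤ) : (X.R i).det = -1 := by
  have := (X.ρ_pos i).ne'
  ext
  simp [R, Rm, Matrix.det_fin_two]
  field_simp
  ring

/-- squared distance to the centre -/
noncomputable def nn (i : ℤ) (z : ℍ) : ℝ := (z.re - X.c i) ^ 2 + z.im ^ 2

lemma nn_pos (i : ℤ) (z : ℍ) : 0 < X.nn i z := by
  have := z.im_pos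
  unfold nn; positivity

lemma denom_R (i : ℤ) (z : ℍ) :
    Complex.normSq (denom (X.R i) z) = X.nn i z / X.ρ i ^ 2 := by
  have := (X.ρ_pos i).ne'
  simp [denom, R, Rm, Complex.normSq_apply, nn]
  field_simp
  ring

lemma R_im (i : ℤ) (z : ℍ) : (X.R i • z).im = X.ρ i ^ 2 * z.im / X.nn i z := by
  have := (X.ρ_pos i).ne'
  have := (X.nn_pos i z).ne'
  rw [im_smul_eq_div_normSq, R_det, denom_R]
  simp
  field_simp

lemma R_re (i : ℤ) (z : ℍ) :
    (X.R i • z).re = X.c i + X.ρ i ^ 2 * (z.re - X.c i) / X.nn i z := by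
  have := (X.ρ_pos i).ne'
  have := (X.nn_pos i z).ne'
  rw [re_smul, Complex.div_re, denom_R]
  simp only [num, denom, R, Rm, Complex.add_re, Complex.mul_re, Complex.add_im, Complex.mul_im,
    Complex.ofReal_re, Complex.ofReal_im, coe_re, coe_im, of_apply, cons_val', cons_val_zero,
    cons_val_one, cons_val_fin_one]
  field_simp
  unfold nn
  ring

lemma R_dist (i : ℤ) (z w : ℍ) : dist (X.R i • z) (X.R i • w) = dist z w := by
  have h1 := (X.ρ_pos i).ne'
  have h2 := (X.nn_pos i z).ne'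
  have h3 := (X.nn_pos i w).ne'
  have h4 := z.im_pos.ne'
  have h5 := w.im_pos.ne'
  apply Real.cosh_injOn (by simp) (by simp)
  rw [cosh_dist', cosh_dist', R_re, R_re, R_im, R_im]
  field_simp
  unfold nn
  ring

/-- power with respect to the circle -/
noncomputable def pw (i : ℤ) (z : ℍ) : ℝ := (z.re - X.a i) * (z.re - X.a (i + 1)) + z.im ^ 2

lemma pw_eq (i : ℤ) (z : ℍ) : X.pw i z = X.nn i z - X.ρ i ^ 2 := by
  unfold pw nn
  rw [X.a_eq i, X.a_succ_eq i]; ring

lemma nn_R (i : ℤ) (z : ℍ) : X.nn i (X.R i • z) = X.ρ i ^ 4 / X.nn i z := by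
  have h2 := (X.nn_pos i z).ne'
  conv_lhs => unfold nn
  rw [R_re, R_im]
  field_simp
  unfold nn
  ring

lemma pw_R (i : ℤ) (z : ℍ) : X.pw i (X.R i • z) = -(X.ρ i ^ 2 / X.nn i z) * X.pw i z := by
  have h2 := (X.nn_pos i z).ne'
  rw [pw_eq, pw_eq, nn_R]
  field_simp
  ring

lemma pw_R_neg {i : ℤ} {z : ℍ} (h : 0 < X.pw i z) : X.pw i (X.R i • z) < 0 := by
  rw [pw_R]
  have := X.ρ_pos i
  have := X.nn_pos i z
  have : 0 < X.ρ i ^ 2 / X.nn i z := by positivity
  nlinarith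

lemma pw_R_nonpos {i : ℤ} {z : ℍ} (h : 0 ≤ X.pw i z) : X.pw i (X.R i • z) ≤ 0 := by
  rw [pw_R]
  have := X.ρ_pos i
  have := X.nn_pos i z
  have : 0 < X.ρ i ^ 2 / X.nn i z := by positivity
  nlinarith

lemma pw_R_nonneg {i : ℤ} {z : ℍ} (h : X.pw i z ≤ 0) : 0 ≤ X.pw i (X.R i • z) := by
  rw [pw_R]
  have := X.ρ_pos i
  have := X.nn_pos i z
  have : 0 < X.ρ i ^ 2 / X.nn i z := by positivity
  nlinarith

lemma R_fix {i : ℤ} {z : ℍ} (h : X.pw i z = 0) : X.R i • z = z := by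
  have h1 := (X.ρ_pos i).ne'
  have h2 : X.nn i z = X.ρ i ^ 2 := by rw [pw_eq] at h; linarith
  apply ext_re_im
  · rw [R_re, h2]; field_simp; ring
  · rw [R_im, h2]; field_simp

lemma pw_pos_of_le {i : ℤ} {z : ℍ} (h : z.re ≤ X.a i) : 0 < X.pw i z := by
  have := X.a_lt i
  have := z.im_pos
  unfold pw
  have : 0 ≤ (z.re - X.a i) * (z.re - X.a (i + 1)) := mul_nonneg_of_nonpos_of_nonpos (by linarith)
    (by linarith)
  positivity

lemma pw_pos_of_ge {i : ℤ} {z : ℍ} (h : X.a (i + 1) ≤ z.re) : 0 < X.pw i z := by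
  have := X.a_lt i
  have := z.im_pos
  unfold pw
  have : 0 ≤ (z.re - X.a i) * (z.re - X.a (i + 1)) := mul_nonneg (by linarith) (by linarith)
  positivity

lemma re_mem_of_pw {i : ℤ} {z : ℍ} (h : X.pw i z ≤ 0) : X.a i < z.re ∧ z.re < X.a (i + 1) := by
  constructor
  · by_contra h1
    exact absurd (X.pw_pos_of_le (not_lt.mp h1)) (not_lt.mpr h)
  · by_contra h1
    exact absurd (X.pw_pos_of_ge (not_lt.mp h1)) (not_lt.mpr h)

lemma pw_pos_of_strip {i j : ℤ} {z : ℍ} (h1 : X.a i ≤ z.re) (h2 : z.re ≤ X.a (i + 1))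
    (hij : j ≠ i) : 0 < X.pw j z := by
  rcases lt_or_gt_of_ne hij with h | h
  · exact X.pw_pos_of_ge (le_trans (X.a_mono.monotone (by omega)) h1)
  · exact X.pw_pos_of_le (le_trans h2 (X.a_mono.monotone (by omega)))

lemma pw_pos_of_ne {i j : ℤ} {z : ℍ} (h : X.pw i z ≤ 0) (hij : j ≠ i) : 0 < X.pw j z :=
  X.pw_pos_of_strip (X.re_mem_of_pw h).1.le (X.re_mem_of_pw h).2.le hij

/-- the region above all circles -/
def P : Set ℍ := {z | ∀ i, 0 ≤ X.pw i z}

/-- points on one of the circles -/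
def OnC (z : ℍ) : Prop := ∃ i, X.pw i z = 0

/-- words -/
noncomputable def wd (l : List ℤ) : GL (Fin 2) ℝ := (l.map X.R).prod

@[simp] lemma wd_nil : X.wd [] = 1 := rfl
@[simp] lemma wd_cons (i : ℤ) (l : List ℤ) : X.wd (i :: l) = X.R i * X.wd l := by simp [wd]
@[simp] lemma wd_append (l l' : List ℤ) : X.wd (l ++ l') = X.wd l * X.wd l' := by simp [wd]

lemma wd_reverse_mul (l : List ℤ) : X.wd l.reverse * X.wd l = 1 := by
  induction l with
  | nil => simp
  | cons i l ih =>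
    simp only [List.reverse_cons, wd_append, wd_cons, wd_nil, mul_one]
    rw [mul_assoc, ← mul_assoc (X.R i), R_mul, one_mul, ih]

lemma wd_mul_reverse (l : List ℤ) : X.wd l * X.wd l.reverse = 1 := by
  simpa using X.wd_reverse_mul l.reverse

lemma wd_rev_smul (l : List ℤ) (z : ℍ) : X.wd l.reverse • X.wd l • z = z := by
  rw [← mul_smul, wd_reverse_mul, one_smul]

lemma wd_smul_rev (l : List ℤ) (z : ℍ) : X.wd l • X.wd l.reverse • z = z := by
  rw [← mul_smul, wd_mul_reverse, one_smul]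

lemma wd_det (l : List ℤ) : (X.wd l).det = (-1) ^ l.length := by
  induction l with
  | nil => simp
  | cons i l ih => simp [ih, R_det, pow_succ]

lemma wd_dist (l : List ℤ) (z w : ℍ) : dist (X.wd l • z) (X.wd l • w) = dist z w := by
  induction l with
  | nil => simp
  | cons i l ih => rw [wd_cons, mul_smul, mul_smul, R_dist, ih]

lemma exists_red (l : List ℤ) : ∃ l' : List ℤ, l'.IsChain (· ≠ ·) ∧ X.wd l' = X.wd l := by
  induction l with
  | nil => exact ⟨[], by simp, rfl⟩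
  | cons i l ih =>
    obtain ⟨l', h1, h2⟩ := ih
    cases l' with
    | nil => exact ⟨[i], by simp, by rw [wd_cons, wd_cons, h2]⟩
    | cons j l'' =>
      by_cases hij : i = j
      · subst hij
        refine ⟨l'', h1.tail, ?_⟩
        rw [wd_cons, ← h2, wd_cons, ← mul_assoc, R_mul, one_mul]
      · exact ⟨i :: j :: l'', List.isChain_cons_cons.mpr ⟨hij, h1⟩, by rw [wd_cons, h2, wd_cons]⟩

lemma pingpong {z : ℍ} (hz : z ∈ X.P) (l : List ℤ) (i : ℤ) (h : (i :: l).IsChain (· ≠ ·)) :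
    X.pw i (X.wd (i :: l) • z) ≤ 0 ∧ (l ≠ [] → X.pw i (X.wd (i :: l) • z) < 0) := by
  induction l generalizing i with
  | nil => exact ⟨by simpa using X.pw_R_nonpos (hz i), fun h => absurd rfl h⟩
  | cons j l ih =>
    obtain ⟨hij, h⟩ := List.isChain_cons_cons.mp h
    have h1 := X.pw_R_neg (X.pw_pos_of_ne (ih j h).1 hij)
    rw [← mul_smul, ← wd_cons] at h1
    exact ⟨h1.le, fun _ => h1⟩

lemma uniq0 {p : ℍ} (hp : p ∈ X.P) (l : List ℤ) (hp' : X.wd l • p ∈ X.P) :
    X.wd l = 1 ∨ ∃ i, X.wd l = X.R i ∧ X.pw i p = 0 := by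
  obtain ⟨l', h1, h2⟩ := X.exists_red l
  rw [← h2] at hp' ⊢
  cases l' with
  | nil => left; rfl
  | cons i l'' =>
    right
    have h3 := X.pingpong hp l'' i h1
    by_cases h4 : l'' = []
    · subst h4
      refine ⟨i, by simp, ?_⟩
      by_contra h5
      have h6 := X.pw_R_neg (lt_of_le_of_ne (hp i) (Ne.symm h5))
      have h7 := hp' i
      simp only [wd_cons, wd_nil, mul_one] at h7
      linarith
    · exact absurd (h3.2 h4) (not_lt.mpr (hp' i))

lemma uniq {p p' : ℍ} (hp : p ∈ X.P) (hp' : p' ∈ X.P) {l : List ℤ} (h : X.wd l • p = p') :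
    p = p' ∧ (Even l.length ∨ X.OnC p) := by
  rcases X.uniq0 hp l (h ▸ hp') with h1 | ⟨i, h1, h2⟩
  · refine ⟨by rw [← h, h1, one_smul], Or.inl ?_⟩
    have h2 := X.wd_det l
    rw [h1, map_one] at h2
    by_contra h3
    rw [Odd.neg_one_pow (Nat.not_even_iff_odd.mp h3)] at h2
    have h4 := congrArg Units.val h2
    norm_num at h4
  · exact ⟨by rw [← h, h1, X.R_fix h2], Or.inr ⟨i, h2⟩⟩

lemma wd_eq_one {p : ℍ} (hp : p ∈ X.P) {l : List ℤ} (h : X.wd l • p = p) (hl : Even l.length) :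
    X.wd l = 1 := by
  rcases X.uniq0 hp l (h.symm ▸ hp) with h1 | ⟨i, h1, -⟩
  · exact h1
  · have h2 := X.wd_det l
    rw [h1, R_det, hl.neg_one_pow] at h2
    have h4 := congrArg Units.val h2
    norm_num at h4

lemma wd_int (l : List ℤ) (j k : Fin 2) : ∃ n : ℤ, (X.wd l).val j k = n := by
  induction l generalizing j k with
  | nil =>
    by_cases h : j = k
    · exact ⟨1, by simp [h]⟩
    · exact ⟨0, by simp [h]⟩
  | cons i l ih =>
    have hR : ∀ j k : Fin 2, ∃ n : ℤ, X.Rm i j k = n := by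
      intro j k
      have hx : X.a i = X.x i := rfl
      rcases X.a_gap i with h | h
      · have h1 : X.c i = X.x i + 1 / 2 := by unfold c; rw [h, hx]; ring
        have h2 : X.ρ i = 1 / 2 := by unfold ρ; rw [h]; ring
        fin_cases j <;> fin_cases k
        · exact ⟨2 * X.x i + 1, by simp [Rm, h1, h2]; ring⟩
        · exact ⟨-2 * X.x i * (X.x i + 1), by simp [Rm, h1, h2]; ring⟩
        · exact ⟨2, by simp [Rm, h1, h2]⟩
        · exact ⟨-(2 * X.x i + 1), by simp [Rm, h1, h2]; ring⟩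
      · have h1 : X.c i = X.x i + 1 := by unfold c; rw [h, hx]; ring
        have h2 : X.ρ i = 1 := by unfold ρ; rw [h]; ring
        fin_cases j <;> fin_cases k
        · exact ⟨X.x i + 1, by simp [Rm, h1, h2]⟩
        · exact ⟨-X.x i * (X.x i + 2), by simp [Rm, h1, h2]; ring⟩
        · exact ⟨1, by simp [Rm, h1, h2]⟩
        · exact ⟨-(X.x i + 1), by simp [Rm, h1, h2]⟩
    obtain ⟨n1, h1⟩ := hR j 0
    obtain ⟨n2, h2⟩ := hR j 1
    obtain ⟨n3, h3⟩ := ih 0 k
    obtain ⟨n4, h4⟩ := ih 1 k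
    refine ⟨n1 * n3 + n2 * n4, ?_⟩
    rw [wd_cons, Units.val_mul, Matrix.mul_apply, Fin.sum_univ_two, h3, h4]
    change X.Rm i j 0 * _ + X.Rm i j 1 * _ = _
    rw [h1, h2]; push_cast; ring

lemma fold (z : ℍ) : ∃ (l : List ℤ) (p : ℍ), p ∈ X.P ∧ X.wd l • p = z := by
  have h1 := ModularGroup.tendsto_normSq_coprime_pair z
  have h2 : {q : Fin 2 → ℤ | Complex.normSq ((q 0 : ℂ) * z + q 1) ≤ 1}.Finite := by
    have := h1.eventually (Filter.eventually_gt_atTop 1)
    rw [Filter.eventually_cofinite] at this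
    simpa using this
  have h3 : ((fun l => (X.wd l • z).im) '' {l | z.im ≤ (X.wd l • z).im}).Finite := by
    refine (h2.image fun q => z.im / Complex.normSq ((q 0 : ℂ) * z + q 1)).subset ?_
    rintro _ ⟨l, hl, rfl⟩
    obtain ⟨n1, e1⟩ := X.wd_int l 1 0
    obtain ⟨n2, e2⟩ := X.wd_int l 1 1
    have e3 : denom (X.wd l) z = (n1 : ℂ) * z + n2 := by
      unfold denom
      rw [e1, e2]; simp
    have e4 : (X.wd l • z).im = z.im / Complex.normSq ((n1 : ℂ) * z + n2) := by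
      rw [im_smul_eq_div_normSq, wd_det, e3]; simp
    refine ⟨![n1, n2], ?_, by simp [e4]⟩
    have e5 := normSq_denom_pos (X.wd l) z.im_ne_zero
    rw [e3] at e5
    simp only [Set.mem_ofPred_eq, e4] at hl
    rw [le_div_iff₀ e5] at hl
    have := z.im_pos
    simp only [Set.mem_ofPred_eq, cons_val_zero, cons_val_one]
    nlinarith
  obtain ⟨l, hl, hmax⟩ := Set.exists_max_image _ id h3 ⟨z.im, [], by simp, by simp⟩
  obtain ⟨l, hl, rfl⟩ := hl
  refine ⟨l.reverse, X.wd l • z, fun i => ?_, X.wd_rev_smul l z⟩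
  by_contra h4
  push Not at h4
  have h5 : (X.wd l • z).im < (X.wd (i :: l) • z).im := by
    rw [wd_cons, mul_smul, R_im, lt_div_iff₀ (X.nn_pos _ _)]
    rw [pw_eq] at h4
    have := (X.wd l • z).im_pos
    nlinarith
  have h6 := hmax _ ⟨i :: l, le_trans hl h5.le, rfl⟩
  simp only [id] at h6
  linarith

end GS

end Pool.Agent.H62Z.SL
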