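import Pool.Agent.H62Z.SLHomeo
import Pool.Agent.H62Z.SLGeo

/-!
Transfer of simple closed geodesics between surfaces with common windows.
-/

set_option autoImplicit false

namespace Pool.Agent.H62Z.SL

open UpperHalfPlane MatrixGroups Matrix Topology Filter

namespace GS

variable (X Y : GS)

/-- the window of size `N` of `X` occurs in `Y` at index shift `k`, translated by `m` -/
def Match (N : ℕ) (k : ℤ) (m : ℝ) : Prop := ∀ i : ℤ, |i| ≤ N → Y.a (i + k) = m + X.a i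

variable {X Y}

section
variable {N : ℕ} {k : ℤ} {m : ℝ} (h : X.Match Y N k m)
include h

lemma Match.R_vadd {i : ℤ} (hi : |i| < N) (z : ℍ) :
    Y.R (i + k) • (m +ᵥ z) = m +ᵥ (X.R i • z) := by
  have h1 := h i hi.le
  have h2 := h (i + 1) (by have := abs_lt.mp hi; rw [abs_le]; omega)
  rw [add_right_comm] at h2
  have h3 : Y.c (i + k) = m + X.c i := by unfold c; rw [h1, h2]; ring
  have h4 : Y.ρ (i + k) = X.ρ i := by unfold ρ; rw [h1, h2]; ring
  have h5 : Y.nn (i + k) (m +ᵥ z) = X.nn i z := by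
    unfold nn; rw [h3, vadd_re, vadd_im]; ring
  apply ext_re_im
  · rw [R_re, vadd_re, vadd_re, R_re, h3, h4, h5]; ring
  · rw [R_im, vadd_im, vadd_im, R_im, h4, h5]

lemma Match.wd_vadd {l : List ℤ} (hl : ∀ i ∈ l, |i| < N) (z : ℍ) :
    Y.wd (l.map (· + k)) • (m +ᵥ z) = m +ᵥ (X.wd l • z) := by
  induction l with
  | nil => simp
  | cons i l ih =>
    rw [List.map_cons, wd_cons, wd_cons, mul_smul, mul_smul,
      ih fun j hj => hl j (List.mem_cons_of_mem _ hj), h.R_vadd (hl i List.mem_cons_self)]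

lemma Match.pw {p : ℍ} (h1 : X.a (-N) ≤ p.re) (h2 : p.re ≤ X.a N) (i : ℤ) :
    Y.pw (i + k) (m +ᵥ p) = X.pw i p ∨ (0 < Y.pw (i + k) (m +ᵥ p) ∧ 0 < X.pw i p) := by
  by_cases h3 : (N : ℤ) ≤ i
  · right
    have e1 := h N (by simp)
    refine ⟨Y.pw_pos_of_le ?_, X.pw_pos_of_le (le_trans h2 (X.a_mono.monotone h3))⟩
    have e2 := Y.a_mono.monotone (show N + k ≤ i + k by omega)
    rw [vadd_re]; linarith
  by_cases h4 : i < -N
  · right
    have e1 := h (-N) (by simp)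
    refine ⟨Y.pw_pos_of_ge ?_, X.pw_pos_of_ge (le_trans (X.a_mono.monotone (by omega)) h1)⟩
    have e2 := Y.a_mono.monotone (show i + k + 1 ≤ -N + k by omega)
    rw [vadd_re]; linarith
  left
  have e1 := h i (by rw [abs_le]; omega)
  have e2 := h (i + 1) (by rw [abs_le]; omega)
  rw [add_right_comm] at e2
  unfold GS.pw
  rw [e1, e2, vadd_re, vadd_im]; ring

lemma Match.memP {p : ℍ} (hp : p ∈ X.P) (h1 : X.a (-N) ≤ p.re) (h2 : p.re ≤ X.a N) :
    m +ᵥ p ∈ Y.P := by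
  intro j
  have := h.pw h1 h2 (j - k)
  rw [sub_add_cancel] at this
  rcases this with e | e
  · rw [e]; exact hp _
  · exact e.1.le

lemma Match.onC {p : ℍ} (h1 : X.a (-N) ≤ p.re) (h2 : p.re ≤ X.a N) :
    Y.OnC (m +ᵥ p) ↔ X.OnC p := by
  constructor
  · rintro ⟨j, hj⟩
    have := h.pw h1 h2 (j - k)
    rw [sub_add_cancel, hj] at this
    exact ⟨j - k, (this.resolve_right fun e => lt_irrefl _ e.1).symm⟩
  · rintro ⟨j, hj⟩
    have := h.pw h1 h2 j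
    rw [hj] at this
    exact ⟨j + k, this.resolve_right fun e => lt_irrefl _ e.2⟩

lemma Match.proj_iff {z w : ℍ} (hz : X.Win N z) (hw : X.Win N w) :
    proj Y.Γ (m +ᵥ z) = proj Y.Γ (m +ᵥ w) ↔ proj X.Γ z = proj X.Γ w := by
  obtain ⟨l, p, a1, a2, a3, a4, rfl⟩ := hz
  obtain ⟨l', p', b1, b2, b3, b4, rfl⟩ := hw
  rw [← h.wd_vadd a1, ← h.wd_vadd b1, Y.rel_iff (h.memP a2 a3 a4) (h.memP b2 b3 b4),
    X.rel_iff a2 b2, h.onC a3 a4, List.length_map, List.length_map, vadd_left_cancel_iff]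

lemma Match.rep_re {z : ℍ} (hz : X.Win N z) :
    (Y.rep (proj Y.Γ (m +ᵥ z))).2.re = m + (X.rep (proj X.Γ z)).2.re := by
  obtain ⟨l, p, a1, a2, a3, a4, rfl⟩ := hz
  rw [← h.wd_vadd a1, (Y.rep_spec (h.memP a2 a3 a4) _).1, (X.rep_spec a2 _).1, vadd_re]

end

lemma range_periodic {Γ : Subgroup SL(2, ℝ)} {c : ℝ → ℍ} {L : ℝ} (hL : 0 < L)
    (h : ∀ t, proj Γ (c (t + L)) = proj Γ (c t)) (t : ℝ) :
    ∃ s ∈ Set.Ico 0 L, proj Γ (c t) = proj Γ (c s) :=
  Function.Periodic.exists_mem_Ico₀ (f := fun t => proj Γ (c t)) h hL t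

lemma rep_bound (Y : GS) {L : ℝ} {σ : Set (Surf Y.Γ)} (hσ : σ ∈ simpleGeodesics Y.Γ L) :
    ∃ B : ℝ, ∀ q ∈ σ, |(Y.rep q).2.re| ≤ B := by
  obtain ⟨hL, c, hc, h1, -, rfl⟩ := hσ
  obtain ⟨N, hN⟩ := Y.win_compact (isCompact_Icc (a := 0) (b := L) |>.image hc.continuous)
  refine ⟨max |Y.a (-N)| |Y.a N|, ?_⟩
  rintro _ ⟨t, rfl⟩
  obtain ⟨s, hs, e⟩ := range_periodic hL h1 t
  obtain ⟨l, p, -, a2, a3, a4, a5⟩ := hN (c s) ⟨s, Set.Ico_subset_Icc_self hs, rfl⟩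
  simp only
  rw [e, ← a5, (Y.rep_spec a2 _).1]
  exact abs_le_max_abs_abs a3 a4

/-- every window of `X` occurs arbitrarily far away in `Y` -/
def Rec (X Y : GS) : Prop := ∀ (N : ℕ) (B : ℝ), ∃ (k : ℤ) (m : ℝ), B < |m| ∧ X.Match Y N k m

lemma infinite_geod (h : X.Rec Y) {L : ℝ} (hne : (simpleGeodesics X.Γ L).Nonempty) :
    (simpleGeodesics Y.Γ L).Infinite := by
  intro hfin
  obtain ⟨B, hB⟩ : ∃ B : ℝ, ∀ σ ∈ simpleGeodesics Y.Γ L, ∀ q ∈ σ, |(Y.rep q).2.re| ≤ B := by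
    choose! f hf using fun σ (hσ : σ ∈ simpleGeodesics Y.Γ L) => rep_bound Y hσ
    obtain ⟨B, hB⟩ := (hfin.image f).bddAbove
    exact ⟨B, fun σ hσ q hq => le_trans (hf σ hσ q hq) (hB ⟨σ, hσ, rfl⟩)⟩
  obtain ⟨_, hL, c, hc, h1, h2, rfl⟩ := hne
  obtain ⟨γ, hγ, h3⟩ := X.isSurfaceGroup.deck (f := fun t => c (t + L))
    (hc.continuous.comp (by fun_prop)) hc.continuous h1 0
  obtain ⟨l, hl, e⟩ := X.exists_wd hγ
  have h4 : ∀ t, c (t + L) = X.wd l • c t := fun t => by rw [e]; exact h3 t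
  obtain ⟨N1, hN1⟩ := exists_bound l
  obtain ⟨N2, hN2⟩ := X.win_compact (isCompact_Icc (a := 0) (b := L) |>.image hc.continuous)
  obtain ⟨k, m, hm, hM⟩ := h (max N1 N2) (B + |(X.rep (proj X.Γ (c 0))).2.re|)
  have hw : ∀ t ∈ Set.Ico 0 L, X.Win (max N1 N2) (c t) := fun t ht =>
    (hN2 _ ⟨t, Set.Ico_subset_Icc_self ht, rfl⟩).mono (le_max_right _ _)
  have h5 : (Set.range fun t => proj Y.Γ (m +ᵥ c t)) ∈ simpleGeodesics Y.Γ L := by
    refine ⟨hL, fun t => m +ᵥ c t, (isometry_real_vadd m).comp hc, fun t => ?_, ?_, rfl⟩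
    · simp only
      rw [h4, ← hM.wd_vadd fun i hi => lt_of_lt_of_le (hN1 i hi) (by simp)]
      exact Y.proj_wd (by simpa using hl) _
    · intro s hs t ht hst
      exact h2 hs ht ((hM.proj_iff (hw s hs) (hw t ht)).mp hst)
  have h6 := hB _ h5 _ ⟨0, rfl⟩
  simp only at h6
  rw [hM.rep_re (hw 0 ⟨le_rfl, hL⟩)] at h6
  have h7 := abs_sub (m + (X.rep (proj X.Γ (c 0))).2.re) (X.rep (proj X.Γ (c 0))).2.re
  rw [add_sub_cancel_right] at h7
  linarith

lemma countable_Γ (X : GS) : (X.Γ : Set SL(2, ℝ)).Countable :=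
  (Set.countable_range X.wd).preimage (SpecialLinearGroup.mapGL_injective (S := ℝ))

lemma card_eq (h : X.Rec Y) (h' : Y.Rec X) (L : ℝ) :
    Cardinal.mk (simpleGeodesics X.Γ L) = Cardinal.mk (simpleGeodesics Y.Γ L) := by
  by_cases h1 : (simpleGeodesics X.Γ L).Nonempty
  · have h2 := infinite_geod h h1
    have h3 := infinite_geod h' h2.nonempty
    have := h2.to_subtype
    have := h3.to_subtype
    have := (X.isSurfaceGroup.countable_geod X.countable_Γ L).to_subtype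
    have := (Y.isSurfaceGroup.countable_geod Y.countable_Γ L).to_subtype
    rw [Cardinal.mk_eq_aleph0, Cardinal.mk_eq_aleph0]
  · have h2 : ¬ (simpleGeodesics Y.Γ L).Nonempty := fun h2 => h1 (infinite_geod h' h2).nonempty
    rw [Set.not_nonempty_iff_eq_empty] at h1 h2
    rw [h1, h2]; simp

end GS

end Pool.Agent.H62Z.SL
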