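import Mathlib

/-!
Finitely supported measures on the integers acting on functions by convolution.
-/

set_option autoImplicit false

namespace Pool.Agent.H62Z.Sq

open Finset

/-- The group algebra of the integers. -/
abbrev GA := AddMonoidAlgebra ℝ ℤ

/-- The point mass at `j`. -/
noncomputable def e (j : ℤ) : GA := AddMonoidAlgebra.single j 1

lemma e_add (i j : ℤ) : e (i + j) = e i * e j := by
  rw [e, e, e, AddMonoidAlgebra.single_mul_single, one_mul]

lemma e_zero : e 0 = 1 := rfl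

lemma e_pow (j : ℤ) (n : ℕ) : e j ^ n = e (n * j) := by
  induction n with
  | zero => simp [e_zero]
  | succ n ih => rw [pow_succ, ih, ← e_add]; congr 1; push_cast; ring

/-- Translation of functions. -/
def shift (j : ℤ) : Module.End ℝ (ℤ → ℝ) where
  toFun φ := fun x => φ (x - j)
  map_add' _ _ := rfl
  map_smul' _ _ := rfl

/-- Translation as a monoid map. -/
def shiftHom : Multiplicative ℤ →* Module.End ℝ (ℤ → ℝ) where
  toFun j := shift j.toAdd
  map_one' := by ext φ x; simp [shift]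
  map_mul' i j := by
    ext φ x
    simp [shift, sub_sub]

/-- Convolution action. -/
noncomputable def act : GA →ₐ[ℝ] Module.End ℝ (ℤ → ℝ) :=
  AddMonoidAlgebra.lift ℝ _ ℤ shiftHom

lemma act_e (j : ℤ) (φ : ℤ → ℝ) (x : ℤ) : act (e j) φ x = φ (x - j) := by
  rw [act, e, AddMonoidAlgebra.lift_single, one_smul]; rfl

lemma act_apply (a : GA) (φ : ℤ → ℝ) (x : ℤ) :
    act a φ x = ∑ j ∈ a.coeff.support, a.coeff j * φ (x - j) := by
  simp [act, AddMonoidAlgebra.lift_apply, Finsupp.sum, shiftHom, shift]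

lemma hasSum_act (a : GA) (φ : ℤ → ℝ) (x : ℤ) :
    HasSum (fun j => a.coeff j * φ (x - j)) (act a φ x) := by
  rw [act_apply]
  apply hasSum_sum_of_ne_finset_zero
  intro j hj
  simp [Finsupp.notMem_support_iff.mp hj]

lemma act_mul (a b : GA) (φ : ℤ → ℝ) : act (a * b) φ = act a (act b φ) := by
  simp [map_mul]

/-- Positivity of an element, through its action. -/
def Pos (a : GA) : Prop := ∀ φ : ℤ → ℝ, (∀ x, 0 ≤ φ x) → ∀ x, 0 ≤ act a φ x

/-- Total mass one. -/
def Mass (a : GA) : Prop := ∀ c : ℝ, act a (fun _ => c) = fun _ => c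

/-- Supported in the set `S`. -/
def Supp (a : GA) (S : Set ℤ) : Prop :=
  ∀ (φ : ℤ → ℝ) (x : ℤ), (∀ j ∈ S, φ (x - j) = 0) → act a φ x = 0

lemma Pos.mul {a b : GA} (ha : Pos a) (hb : Pos b) : Pos (a * b) := fun φ h => by
  rw [act_mul]; exact ha _ (hb φ h)

lemma Pos.add {a b : GA} (ha : Pos a) (hb : Pos b) : Pos (a + b) := fun φ h x => by
  rw [map_add]; exact add_nonneg (ha φ h x) (hb φ h x)

lemma Pos.smul {a : GA} (ha : Pos a) {c : ℝ} (hc : 0 ≤ c) : Pos (c • a) := fun φ h x => by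
  rw [map_smul]; exact mul_nonneg hc (ha φ h x)

lemma pos_one : Pos 1 := fun φ h x => by rw [map_one]; exact h x

lemma pos_zero : Pos 0 := fun φ h x => by rw [map_zero]; exact le_rfl

lemma pos_e (j : ℤ) : Pos (e j) := fun φ h x => by rw [act_e]; exact h _

lemma Pos.pow {a : GA} (ha : Pos a) (n : ℕ) : Pos (a ^ n) := by
  induction n with
  | zero => simpa using pos_one
  | succ n ih => rw [pow_succ]; exact ih.mul ha

lemma pos_sum {ι : Type*} (s : Finset ι) (f : ι → GA) (h : ∀ i ∈ s, Pos (f i)) :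
    Pos (∑ i ∈ s, f i) :=
  Finset.sum_induction f Pos (fun _ _ => Pos.add) pos_zero h

lemma pos_prod {ι : Type*} (s : Finset ι) (f : ι → GA) (h : ∀ i ∈ s, Pos (f i)) :
    Pos (∏ i ∈ s, f i) :=
  Finset.prod_induction f Pos (fun _ _ => Pos.mul) pos_one h

lemma Pos.coeff {a : GA} (ha : Pos a) (j : ℤ) : 0 ≤ a.coeff j := by
  have h := ha (fun x => if x = 0 then 1 else 0) (fun x => by split_ifs <;> norm_num) j
  have h2 := hasSum_act a (fun x => if x = 0 then 1 else 0) j
  have h3 : HasSum (fun i => a.coeff i * (if j - i = 0 then (1 : ℝ) else 0)) (a.coeff j) := by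
    have := hasSum_single (f := fun i => a.coeff i * (if j - i = 0 then (1 : ℝ) else 0)) j
      (fun i hi => by simp [sub_eq_zero, Ne.symm hi])
    simpa using this
  rwa [h2.unique h3] at h

lemma Mass.mul {a b : GA} (ha : Mass a) (hb : Mass b) : Mass (a * b) := fun c => by
  rw [act_mul, hb, ha]

lemma mass_one : Mass 1 := fun c => by rw [map_one]; rfl

lemma Mass.pow {a : GA} (ha : Mass a) (n : ℕ) : Mass (a ^ n) := by
  induction n with
  | zero => simpa using mass_one
  | succ n ih => rw [pow_succ]; exact ih.mul ha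

lemma mass_prod {ι : Type*} (s : Finset ι) (f : ι → GA) (h : ∀ i ∈ s, Mass (f i)) :
    Mass (∏ i ∈ s, f i) :=
  Finset.prod_induction f Mass (fun _ _ => Mass.mul) mass_one h

lemma Mass.hasSum {a : GA} (ha : Mass a) : HasSum (fun j => a.coeff j) 1 := by
  have h := hasSum_act a (fun _ => 1) 0
  rw [ha 1] at h
  simpa using h

lemma Supp.mul {a b : GA} {S T U : Set ℤ} (ha : Supp a S) (hb : Supp b T)
    (h : ∀ i ∈ S, ∀ j ∈ T, i + j ∈ U) : Supp (a * b) U := fun φ x hφ => by
  rw [act_mul]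
  refine ha _ _ fun i hi => hb _ _ fun j hj => ?_
  rw [sub_sub]; exact hφ _ (h i hi j hj)

lemma Supp.add {a b : GA} {S : Set ℤ} (ha : Supp a S) (hb : Supp b S) : Supp (a + b) S :=
  fun φ x hφ => by
    rw [map_add]
    show act a φ x + act b φ x = 0
    rw [ha φ x hφ, hb φ x hφ, add_zero]

lemma Supp.smul {a : GA} {S : Set ℤ} (ha : Supp a S) (c : ℝ) : Supp (c • a) S :=
  fun φ x hφ => by
    rw [map_smul]
    show c * act a φ x = 0
    rw [ha φ x hφ, mul_zero]

lemma Supp.mono {a : GA} {S T : Set ℤ} (ha : Supp a S) (h : S ⊆ T) : Supp a T :=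
  fun φ x hφ => ha φ x fun j hj => hφ j (h hj)

lemma supp_zero (S : Set ℤ) : Supp 0 S := fun φ x _ => by rw [map_zero]; rfl

lemma supp_e {S : Set ℤ} {j : ℤ} (h : j ∈ S) : Supp (e j) S := fun φ x hφ => by
  rw [act_e]; exact hφ j h

lemma supp_one {S : Set ℤ} (h : (0 : ℤ) ∈ S) : Supp 1 S := supp_e h

lemma supp_sum {ι : Type*} (s : Finset ι) (f : ι → GA) (S : Set ℤ) (h : ∀ i ∈ s, Supp (f i) S) :
    Supp (∑ i ∈ s, f i) S :=
  Finset.sum_induction f (fun a => Supp a S) (fun _ _ => Supp.add) (supp_zero S) h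

lemma supp_support (a : GA) : Supp a (a.coeff.support : Set ℤ) := fun φ x hφ => by
  rw [act_apply]
  exact Finset.sum_eq_zero fun j hj => by rw [hφ j hj, mul_zero]

lemma act_periodic (a : GA) {φ : ℤ → ℝ} {N : ℤ} (h : Function.Periodic φ N) :
    Function.Periodic (act a φ) N := fun x => by
  rw [act_apply, act_apply]
  refine Finset.sum_congr rfl fun j _ => ?_
  rw [show x + N - j = (x - j) + N by ring, h]

/-- The ideal of elements that kill `N`-periodic functions contains `e N - 1`. -/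
noncomputable def perI (N : ℤ) : Ideal GA := Ideal.span {e N - 1}

/-- Reduction modulo `N`. -/
noncomputable def red (N : ℤ) : GA →ₐ[ℝ] GA ⧸ perI N := Ideal.Quotient.mkₐ ℝ (perI N)

lemma red_e (N : ℤ) : red N (e N) = 1 := by
  have : red N (e N - 1) = 0 :=
    Ideal.Quotient.eq_zero_iff_mem.mpr (Ideal.subset_span (Set.mem_singleton _))
  rwa [map_sub, map_one, sub_eq_zero] at this

lemma red_e_of_dvd {N j : ℤ} (h : N ∣ j) : red N (e j) = 1 := by
  obtain ⟨c, rfl⟩ := h
  have hneg : red N (e (-N)) = 1 := by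
    have := congrArg (red N) (e_add N (-N))
    rw [map_mul, red_e, one_mul, add_neg_cancel, e_zero, map_one] at this
    exact this.symm
  obtain ⟨n, rfl | rfl⟩ := c.eq_nat_or_neg
  · rw [mul_comm, ← e_pow, map_pow, red_e, one_pow]
  · rw [show N * -(n : ℤ) = n * (-N) by ring, ← e_pow, map_pow, hneg, one_pow]

lemma act_eq_of_red {N : ℤ} {a b : GA} (h : red N a = red N b) {φ : ℤ → ℝ}
    (hφ : Function.Periodic φ N) : act a φ = act b φ := by
  have h1 : a - b ∈ perI N := Ideal.Quotient.eq.mp h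
  obtain ⟨c, hc⟩ := Ideal.mem_span_singleton'.mp h1
  have h2 : act (e N - 1) φ = 0 := by
    rw [map_sub, map_one]
    ext x
    show act (e N) φ x - φ x = 0
    rw [act_e, hφ.sub_eq, sub_self]
  have h3 : act (a - b) φ = 0 := by rw [← hc, act_mul, h2, map_zero]
  rw [map_sub] at h3
  exact sub_eq_zero.mp h3

/-- The character `j ↦ exp (i t j)`. -/
noncomputable def chHom (t : ℝ) : Multiplicative ℤ →* ℂ where
  toFun j := Complex.exp (((t * ((j.toAdd : ℤ) : ℝ) : ℝ) : ℂ) * Complex.I)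
  map_one' := by simp
  map_mul' i j := by
    rw [← Complex.exp_add]; congr 1
    simp; ring

/-- Fourier transform. -/
noncomputable def ft (t : ℝ) : GA →ₐ[ℝ] ℂ := AddMonoidAlgebra.lift ℝ _ ℤ (chHom t)

lemma ft_e (t : ℝ) (j : ℤ) :
    ft t (e j) = Complex.exp (((t * (j : ℝ) : ℝ) : ℂ) * Complex.I) := by
  rw [ft, e, AddMonoidAlgebra.lift_single, one_smul]; rfl

lemma hasSum_ft (t : ℝ) (a : GA) :
    HasSum (fun j => a.coeff j • Complex.exp (((t * (j : ℝ) : ℝ) : ℂ) * Complex.I)) (ft t a) := by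
  have : ft t a = ∑ j ∈ a.coeff.support,
      a.coeff j • Complex.exp (((t * (j : ℝ) : ℝ) : ℂ) * Complex.I) := by
    simp [ft, AddMonoidAlgebra.lift_apply, Finsupp.sum, chHom]
  rw [this]
  apply hasSum_sum_of_ne_finset_zero
  intro j hj
  simp [Finsupp.notMem_support_iff.mp hj]

lemma ft_e_add (t : ℝ) (j : ℤ) : ft t (e j) + ft t (e (-j)) = ((2 * Real.cos (t * j) : ℝ) : ℂ) := by
  rw [ft_e, ft_e]
  push_cast
  rw [Complex.two_cos]
  congr 2; ring

/-- The symmetric average over the multiples `a Q`, `|a| < p`. -/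
noncomputable def u (p : ℕ) (Q : ℤ) : GA :=
  (1 / (2 * p) : ℝ) • ∑ a ∈ range p, (e Q ^ a + e (-Q) ^ a)

lemma pos_u (p : ℕ) (Q : ℤ) : Pos (u p Q) :=
  (pos_sum _ _ fun a _ => ((pos_e Q).pow a).add ((pos_e (-Q)).pow a)).smul (by positivity)

lemma mass_u {p : ℕ} (hp : 0 < p) (Q : ℤ) : Mass (u p Q) := fun c => by
  ext x
  have hp' : (p : ℝ) ≠ 0 := by positivity
  simp only [u, map_smul, map_sum, map_add, e_pow, LinearMap.smul_apply, LinearMap.coe_sum,
    LinearMap.add_apply, Finset.sum_apply, Pi.smul_apply, Pi.add_apply, act_e, sum_const,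
    card_range, smul_eq_mul, nsmul_eq_mul]
  field_simp
  ring

lemma supp_u (p : ℕ) (Q : ℤ) {m : ℤ} (h : m ∣ Q) : Supp (u p Q) {y | m ∣ y} := by
  refine Supp.smul (supp_sum _ _ _ fun a _ => ?_) _
  rw [e_pow, e_pow]
  exact (supp_e (Dvd.dvd.mul_left h _)).add (supp_e (Dvd.dvd.mul_left (dvd_neg.mpr h) _))

lemma ft_u {p : ℕ} (hp : 0 < p) (Q : ℤ) (t : ℝ) :
    ∃ y : ℝ, -1 ≤ y ∧ y ≤ 1 ∧ ft t (u p Q) = y := by
  have hp' : (0 : ℝ) < p := by positivity
  refine ⟨(1 / (2 * p) : ℝ) * ∑ a ∈ range p, 2 * Real.cos (t * ((a * Q : ℤ) : ℝ)), ?_, ?_, ?_⟩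
  · have : ∑ a ∈ range p, (-2 : ℝ) ≤ ∑ a ∈ range p, 2 * Real.cos (t * ((a * Q : ℤ) : ℝ)) :=
      Finset.sum_le_sum fun a _ => by linarith [Real.neg_one_le_cos (t * ((a * Q : ℤ) : ℝ))]
    rw [sum_const, card_range, nsmul_eq_mul] at this
    rw [one_div, inv_mul_eq_div, le_div_iff₀ (by positivity)]
    linarith
  · have : ∑ a ∈ range p, 2 * Real.cos (t * ((a * Q : ℤ) : ℝ)) ≤ ∑ a ∈ range p, (2 : ℝ) :=
      Finset.sum_le_sum fun a _ => by linarith [Real.cos_le_one (t * ((a * Q : ℤ) : ℝ))]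
    rw [sum_const, card_range, nsmul_eq_mul] at this
    rw [one_div, inv_mul_eq_div, div_le_iff₀ (by positivity)]
    linarith
  · rw [u, map_smul, map_sum, Complex.real_smul, Complex.ofReal_mul, Complex.ofReal_sum]
    congr 1
    refine Finset.sum_congr rfl fun a _ => ?_
    rw [map_add, e_pow, e_pow, mul_neg, ft_e_add]

lemma red_u_of_dvd {p : ℕ} (hp : 0 < p) {Q M : ℤ} (h : M ∣ Q) : red M (u p Q) = 1 := by
  have hp' : (p : ℝ) ≠ 0 := by positivity
  rw [u, map_smul, map_sum]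
  simp only [map_add, map_pow, red_e_of_dvd h, red_e_of_dvd (dvd_neg.mpr h), one_pow, sum_const,
    card_range]
  rw [← Nat.cast_smul_eq_nsmul ℝ, ← two_smul ℝ, smul_smul, smul_smul]
  have : 1 / (2 * (p : ℝ)) * p * 2 = 1 := by field_simp
  rw [this, one_smul]

lemma red_e_mul_u {p : ℕ} {Q N : ℤ} (h : N ∣ p * Q) :
    red N (e Q) * red N (u p Q) = red N (u p Q) := by
  have hx : red N (e Q) ^ p = 1 := by rw [← map_pow, e_pow]; exact red_e_of_dvd h
  have hy : red N (e (-Q)) ^ p = 1 := by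
    rw [← map_pow, e_pow, mul_neg]; exact red_e_of_dvd (dvd_neg.mpr h)
  have hxy : red N (e Q) * red N (e (-Q)) = 1 := by
    rw [← map_mul, ← e_add, add_neg_cancel, e_zero, map_one]
  have h1 := mul_geom_sum (red N (e Q)) p
  have h2 := mul_geom_sum (red N (e (-Q))) p
  rw [hx, sub_self] at h1
  rw [hy, sub_self] at h2
  rw [u, map_smul, map_sum, mul_smul_comm]
  congr 1
  simp only [map_add, map_pow, sum_add_distrib]
  linear_combination h1 - red N (e Q) * h2 + (∑ i ∈ range p, red N (e (-Q)) ^ i) * hxy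

lemma red_u_mul_of_inv {p : ℕ} (hp : 0 < p) {Q N : ℤ} {w : GA ⧸ perI N}
    (h : red N (e Q) * w = w) : red N (u p Q) * w = w := by
  have hp' : (p : ℝ) ≠ 0 := by positivity
  have hxy : red N (e (-Q)) * red N (e Q) = 1 := by
    rw [← map_mul, ← e_add, neg_add_cancel, e_zero, map_one]
  have h' : red N (e (-Q)) * w = w := by
    conv_lhs => rw [← h]
    rw [← mul_assoc, hxy, one_mul]
  have hp1 : ∀ a : ℕ, red N (e Q) ^ a * w = w := fun a => by
    induction a with
    | zero => simp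
    | succ a ih => rw [pow_succ, mul_assoc, h, ih]
  have hp2 : ∀ a : ℕ, red N (e (-Q)) ^ a * w = w := fun a => by
    induction a with
    | zero => simp
    | succ a ih => rw [pow_succ, mul_assoc, h', ih]
  rw [u, map_smul, map_sum, smul_mul_assoc, Finset.sum_mul]
  simp only [map_add, map_pow, add_mul, hp1, hp2, sum_const, card_range]
  rw [← Nat.cast_smul_eq_nsmul ℝ, ← two_smul ℝ, smul_smul, smul_smul]
  have : 1 / (2 * (p : ℝ)) * p * 2 = 1 := by field_simp
  rw [this, one_smul]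

lemma idem_pow {B : Type*} [CommRing B] [Algebra ℝ B] {w : B} (hw : w * w = w) (r : ℝ) (n : ℕ) :
    (r • (1 : B) + (1 - r) • w) ^ n = r ^ n • (1 : B) + (1 - r ^ n) • w := by
  induction n with
  | zero => simp
  | succ n ih =>
    rw [pow_succ, ih]
    simp only [add_mul, mul_add, smul_mul_assoc, mul_smul_comm, one_mul, mul_one, hw]
    module

end Pool.Agent.H62Z.Sq
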