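import Pool.Agent.H62Z.SqStep

/-!
The analytic part: a sharp change of the convolution powers, tested on a comb, contradicts the
weak type inequality.
-/

set_option autoImplicit false

namespace Pool.Agent.H62Z.Sq

open Finset

/-- Convolution powers of `μ`. -/
noncomputable def PP (μ : ℤ → ℝ) (n : ℕ) : ℤ → ℝ :=
  Nat.iterate (fun g : ℤ → ℝ => fun m => ∑' i : ℤ, μ i * g (m - i)) n
    (fun m => if m = 0 then (1 : ℝ) else 0)

lemma PP_succ (μ : ℤ → ℝ) (n : ℕ) (m : ℤ) : PP μ (n + 1) m = ∑' i : ℤ, μ i * PP μ n (m - i) := by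
  unfold PP
  rw [Function.iterate_succ_apply']

/-- The weak type inequality with constant `A`. -/
def Ineq (μ : ℤ → ℝ) (A : ℝ) : Prop :=
  ∀ f : ℤ → ℝ, Summable (fun k => |f k|) → ∀ lam : ℝ, 0 < lam →
    MeasureTheory.Measure.count
      {k : ℤ | ENNReal.ofReal (lam ^ 2) <
        ∑' n : ℕ, ENNReal.ofReal (((n : ℝ) + 1) *
          (∑' j : ℤ, (PP μ (n + 1) j - PP μ (n + 2) j) * f (k - j)) ^ 2)}
      ≤ ENNReal.ofReal (A * (∑' k : ℤ, |f k|) / lam)

lemma hasSum_conv {a b : ℤ → ℝ} (ha0 : ∀ i, 0 ≤ a i) (hb0 : ∀ i, 0 ≤ b i) (ha : Summable a)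
    (hb : Summable b) {φ : ℤ → ℝ} {B : ℝ} (hφ : ∀ x, |φ x| ≤ B) (k : ℤ) :
    HasSum (fun j => (∑' i, a i * b (j - i)) * φ (k - j))
      (∑' i, a i * ∑' j, b j * φ (k - i - j)) := by
  have h1 : Summable fun p : ℤ × ℤ => a p.1 * b p.2 := ha.mul_of_nonneg hb ha0 hb0
  have h2 : Summable fun p : ℤ × ℤ => a p.1 * (b p.2 * φ (k - p.1 - p.2)) := by
    refine Summable.of_norm_bounded (h1.mul_right B) fun p => ?_
    rw [Real.norm_eq_abs, ← mul_assoc, abs_mul, abs_of_nonneg (mul_nonneg (ha0 _) (hb0 _))]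
    exact mul_le_mul_of_nonneg_left (hφ _) (mul_nonneg (ha0 _) (hb0 _))
  have h3 : ∑' p : ℤ × ℤ, a p.1 * (b p.2 * φ (k - p.1 - p.2)) =
      ∑' i, a i * ∑' j, b j * φ (k - i - j) := by
    rw [h2.tsum_prod]
    refine tsum_congr fun i => ?_
    show ∑' j, a i * (b j * φ (k - i - j)) = _
    rw [tsum_mul_left]
  let E : ℤ × ℤ ≃ ℤ × ℤ :=
    { toFun := fun p => (p.2, p.1 - p.2)
      invFun := fun p => (p.1 + p.2, p.1)
      left_inv := fun p => by simp
      right_inv := fun p => by simp }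
  have h4 := (E.hasSum_iff.mpr h2.hasSum)
  rw [h3] at h4
  refine h4.prod_fiberwise fun j => ?_
  have h5 : Summable fun i => a i * b (j - i) := (E.summable_iff.mpr h1).prod_factor j
  have h6 := h5.hasSum.mul_right (φ (k - j))
  have h7 : (fun i => a i * b (j - i) * φ (k - j)) =
      fun i => ((fun p : ℤ × ℤ => a p.1 * (b p.2 * φ (k - p.1 - p.2))) ∘ E) (j, i) := by
    ext i
    show _ = a i * (b (j - i) * φ (k - i - (j - i)))
    rw [show k - i - (j - i) = k - j by ring]; ring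
  rwa [h7] at h6

lemma PP_prob {μ : ℤ → ℝ} (h0 : ∀ k, 0 ≤ μ k) (h1 : HasSum μ 1) (n : ℕ) :
    (∀ j, 0 ≤ PP μ n j) ∧ HasSum (PP μ n) 1 := by
  induction n with
  | zero =>
    refine ⟨fun j => ?_, ?_⟩
    · show 0 ≤ if j = 0 then (1 : ℝ) else 0
      split_ifs <;> norm_num
    · exact hasSum_ite_eq (0 : ℤ) (1 : ℝ)
  | succ n ih =>
    refine ⟨fun j => ?_, ?_⟩
    · rw [PP_succ]; exact tsum_nonneg fun i => mul_nonneg (h0 _) (ih.1 _)
    · have := hasSum_conv h0 ih.1 h1.summable ih.2.summable (φ := fun _ => 1) (B := 1)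
        (fun _ => by simp) 0
      simp only [mul_one, ih.2.tsum_eq, h1.tsum_eq] at this
      convert this using 2 with j
      exact PP_succ μ n j

lemma periodic_bdd {φ : ℤ → ℝ} {N : ℕ} (hN : 0 < N) (h : Function.Periodic φ (N : ℤ)) :
    ∃ B, ∀ x, |φ x| ≤ B := by
  have hN' : (0 : ℤ) < N := by exact_mod_cast hN
  refine ⟨∑ y ∈ Ico (0 : ℤ) N, |φ y|, fun x => ?_⟩
  obtain ⟨y, hy, hxy⟩ := h.exists_mem_Ico₀ hN' x
  rw [hxy]
  exact Finset.single_le_sum (f := fun y => |φ y|) (fun _ _ => abs_nonneg _)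
    (Finset.mem_Ico.mpr hy)

lemma PP_pair {μ : ℤ → ℝ} (h0 : ∀ k, 0 ≤ μ k) (h1 : HasSum μ 1) {N : ℕ} (hN : 0 < N) {ρ : GA}
    (H : ∀ φ : ℤ → ℝ, Function.Periodic φ (N : ℤ) → ∀ k, ∑' i, μ i * φ (k - i) = act ρ φ k)
    {φ : ℤ → ℝ} (hφ : Function.Periodic φ (N : ℤ)) (n : ℕ) (k : ℤ) :
    ∑' j, PP μ n j * φ (k - j) = act (ρ ^ n) φ k := by
  induction n generalizing k with
  | zero =>
    rw [pow_zero, map_one, tsum_eq_single 0]
    · simp [PP]
    · intro j hj; simp [PP, hj]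
  | succ n ih =>
    obtain ⟨B, hB⟩ := periodic_bdd hN hφ
    have := (hasSum_conv h0 (PP_prob h0 h1 n).1 h1.summable (PP_prob h0 h1 n).2.summable hB
      k).tsum_eq
    simp only [PP_succ]
    rw [this, pow_succ', act_mul, ← H _ (act_periodic _ hφ)]
    exact tsum_congr fun i => by rw [ih]

lemma card_mod_le (a b v : ℤ) (hab : a ≤ b) {r : ℕ} (hr : 0 < r) :
    ((#{x ∈ Ico a b | (r : ℤ) ∣ x - v} : ℕ) : ℝ) ≤ ((b : ℝ) - a) / r + 1 := by
  have hr' : (0 : ℤ) < r := by exact_mod_cast hr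
  have hrq : (0 : ℚ) < r := by exact_mod_cast hr
  have h := Int.Ico_filter_modEq_card a b hr' v
  have h2 : (Finset.filter (fun x => (r : ℤ) ∣ x - v) (Ico a b)) =
      Finset.filter (fun x => x ≡ v [ZMOD r]) (Ico a b) := by
    refine Finset.filter_congr fun x _ => ?_
    rw [Int.modEq_comm, Int.modEq_iff_dvd]
  rw [h2]
  have h3 : ((#{x ∈ Ico a b | x ≡ v [ZMOD r]} : ℕ) : ℚ) ≤ ((b : ℚ) - a) / r + 1 := by
    have h4 : ((#{x ∈ Ico a b | x ≡ v [ZMOD r]} : ℕ) : ℚ) =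
        (((#{x ∈ Ico a b | x ≡ v [ZMOD r]} : ℕ) : ℤ) : ℚ) := by simp
    rw [h4, h]
    have hab' : (a : ℚ) ≤ b := by exact_mod_cast hab
    have h5 : 0 ≤ ((b : ℚ) - a) / r := div_nonneg (by linarith) hrq.le
    push_cast
    refine max_le ?_ (by linarith)
    have h6 := Int.ceil_lt_add_one (((b : ℚ) - v) / r)
    have h7 := Int.le_ceil (((a : ℚ) - v) / r)
    have h8 : ((b : ℚ) - v) / r - ((a : ℚ) - v) / r = ((b : ℚ) - a) / r := by ring
    linarith
  have h9 := (Rat.cast_le (K := ℝ)).mpr h3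
  push_cast at h9
  exact h9

lemma sq_lower (G : ℕ → ℝ) (n1 m : ℕ) (hm : 0 < m) (lam : ℝ)
    (h : lam ^ 2 * m < (n1 + 1) * (G (n1 + m + 1) - G (n1 + 1)) ^ 2) :
    ENNReal.ofReal (lam ^ 2) <
      ∑' n : ℕ, ENNReal.ofReal (((n : ℝ) + 1) * (G (n + 1) - G (n + 2)) ^ 2) := by
  have hm' : (0 : ℝ) < m := by exact_mod_cast hm
  have h1 : G (n1 + 1) - G (n1 + m + 1) =
      ∑ i ∈ range m, (G (n1 + i + 1) - G (n1 + i + 2)) := by
    exact (Finset.sum_range_sub' (fun i => G (n1 + i + 1)) m).symm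
  have h2 : (∑ i ∈ range m, (G (n1 + i + 1) - G (n1 + i + 2))) ^ 2 ≤
      m * ∑ i ∈ range m, (G (n1 + i + 1) - G (n1 + i + 2)) ^ 2 := by
    have := sq_sum_le_card_mul_sum_sq (s := range m)
      (f := fun i => G (n1 + i + 1) - G (n1 + i + 2))
    simpa using this
  have h3 : lam ^ 2 < ∑ i ∈ range m, (((n1 + i : ℕ) : ℝ) + 1) *
      (G (n1 + i + 1) - G (n1 + i + 2)) ^ 2 := by
    have h4 : ((n1 : ℝ) + 1) * ∑ i ∈ range m, (G (n1 + i + 1) - G (n1 + i + 2)) ^ 2 ≤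
        ∑ i ∈ range m, (((n1 + i : ℕ) : ℝ) + 1) * (G (n1 + i + 1) - G (n1 + i + 2)) ^ 2 := by
      rw [Finset.mul_sum]
      refine Finset.sum_le_sum fun i _ => mul_le_mul_of_nonneg_right ?_ (sq_nonneg _)
      push_cast
      have : (0 : ℝ) ≤ i := by positivity
      linarith
    rw [← neg_sub, neg_sq, h1] at h
    have h5 : (0 : ℝ) ≤ (n1 : ℝ) + 1 := by positivity
    have h6 := mul_le_mul_of_nonneg_left h2 h5
    have h7 : lam ^ 2 * m < (((n1 : ℝ) + 1) *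
        ∑ i ∈ range m, (G (n1 + i + 1) - G (n1 + i + 2)) ^ 2) * m := by nlinarith
    exact lt_of_lt_of_le (lt_of_mul_lt_mul_right h7 hm'.le) h4
  calc ENNReal.ofReal (lam ^ 2)
      < ENNReal.ofReal (∑ i ∈ range m, (((n1 + i : ℕ) : ℝ) + 1) *
          (G (n1 + i + 1) - G (n1 + i + 2)) ^ 2) :=
        (ENNReal.ofReal_lt_ofReal_iff (lt_of_le_of_lt (sq_nonneg _) h3)).mpr h3
    _ = ∑ i ∈ range m, ENNReal.ofReal ((((n1 + i : ℕ) : ℝ) + 1) *
          (G (n1 + i + 1) - G (n1 + i + 2)) ^ 2) :=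
        ENNReal.ofReal_sum_of_nonneg fun i _ => by positivity
    _ = ∑ n ∈ (range m).map ⟨fun i => n1 + i, add_right_injective n1⟩,
          ENNReal.ofReal (((n : ℝ) + 1) * (G (n + 1) - G (n + 2)) ^ 2) := by
        rw [Finset.sum_map]; rfl
    _ ≤ _ := ENNReal.sum_le_tsum _

lemma not_ineq {μ : ℤ → ℝ} (h0 : ∀ k, 0 ≤ μ k) (h1 : HasSum μ 1) {N : ℕ} (hN : 0 < N) {ρ : GA}
    (H : ∀ φ : ℤ → ℝ, Function.Periodic φ (N : ℤ) → ∀ k, ∑' i, μ i * φ (k - i) = act ρ φ k)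
    {A : ℝ} (hA : 0 < A) {n1 m : ℕ} (hm : 0 < m) (hn : 16 * (4 * A + 1) ^ 2 * m < n1 + 1)
    (good : ℤ → Prop) [DecidablePred good] (C : ℝ)
    (hlow : ∀ x, 3 / (4 * (N : ℝ)) ≤ act (ρ ^ (n1 + m + 1)) (ind N) x)
    (hup : ∀ x, good x → act (ρ ^ (n1 + 1)) (ind N) x ≤ 1 / (4 * (N : ℝ)))
    (hgood : ∀ W : ℕ, ((#{x ∈ Ico (0 : ℤ) W | ¬ good x} : ℕ) : ℝ) ≤ W / 4 + C) :
    ¬ Ineq μ A := by
  intro hI
  have hN' : (0 : ℝ) < N := by exact_mod_cast hN
  have hP := PP_prob h0 h1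
  -- tail bound
  obtain ⟨S, hS⟩ : ∃ S : Finset ℤ, 1 - 1 / (4 * (N : ℝ)) ≤ ∑ j ∈ S, PP μ (n1 + m + 1) j := by
    have := (hP (n1 + m + 1)).2.eventually
      (lt_mem_nhds (show 1 - 1 / (4 * (N : ℝ)) < 1 by
        have : 0 < 1 / (4 * (N : ℝ)) := by positivity
        linarith))
    obtain ⟨S, hS⟩ := this.exists
    exact ⟨S, hS.le⟩
  obtain ⟨Hh, hH⟩ : ∃ Hh : ℕ, ∀ j ∈ S, |j| ≤ Hh := by
    refine ⟨S.sup Int.natAbs, fun j hj => ?_⟩
    rw [← Int.natCast_natAbs]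
    exact_mod_cast Finset.le_sup (f := Int.natAbs) hj
  obtain ⟨W, hW⟩ := exists_nat_ge (4 * |C| + 2 * Hh + N + 1)
  have hC := le_abs_self C
  have hC0 := abs_nonneg C
  have hH0 : (0 : ℝ) ≤ Hh := by positivity
  set I : Finset ℤ := Ico (-(Hh : ℤ)) (W + Hh) with hI'
  set f : ℤ → ℝ := fun x => if x ∈ I then ind N x else 0 with hf
  have hf0 : ∀ x, 0 ≤ f x := fun x => by
    simp only [hf]; split_ifs; exacts [ind_nonneg _ _, le_rfl]
  have hf1 : ∀ x, f x ≤ ind N x := fun x => by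
    simp only [hf]; split_ifs; exacts [le_rfl, ind_nonneg _ _]
  have hfs : HasSum (fun x => |f x|) (∑ x ∈ I, |f x|) :=
    hasSum_sum_of_ne_finset_zero fun x hx => by simp [hf, hx]
  have hfn : ∑ x ∈ I, |f x| ≤ 2 * W / N := by
    have h2 : ∑ x ∈ I, |f x| = ((#{x ∈ I | (N : ℤ) ∣ x - 0} : ℕ) : ℝ) := by
      rw [Finset.card_filter]
      push_cast
      refine Finset.sum_congr rfl fun x hx => ?_
      rw [abs_of_nonneg (hf0 x)]
      simp [hf, hx, ind]
    rw [h2]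
    refine (card_mod_le _ _ 0 (by omega) hN).trans ?_
    push_cast
    rw [div_add_one hN'.ne']
    gcongr
    linarith
  set lam : ℝ := (4 * A + 1) / N with hlam
  have hlam0 : 0 < lam := by positivity
  have hsumm : ∀ (n : ℕ) (k : ℤ) (φ : ℤ → ℝ), (∀ x, 0 ≤ φ x) → (∀ x, φ x ≤ 1) →
      Summable fun j => PP μ n j * φ (k - j) := fun n k φ a b =>
    Summable.of_nonneg_of_le (fun j => mul_nonneg ((hP n).1 j) (a _))
      (fun j => mul_le_of_le_one_right ((hP n).1 j) (b _)) (hP n).2.summable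
  have hf2 : ∀ x, f x ≤ 1 := fun x => (hf1 x).trans (ind_le_one _ _)
  have hI2 := hI f hfs.summable lam hlam0
  have hsub : ((Finset.filter good (Ico (0 : ℤ) W) : Finset ℤ) : Set ℤ) ⊆
      {k : ℤ | ENNReal.ofReal (lam ^ 2) <
        ∑' n : ℕ, ENNReal.ofReal (((n : ℝ) + 1) *
          (∑' j : ℤ, (PP μ (n + 1) j - PP μ (n + 2) j) * f (k - j)) ^ 2)} := by
    intro k hk
    obtain ⟨hk1, hk2⟩ := Finset.mem_filter.mp hk
    rw [Finset.mem_Ico] at hk1
    have e1 : ∀ n : ℕ, ∑' j : ℤ, (PP μ (n + 1) j - PP μ (n + 2) j) * f (k - j) =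
        ∑' j, PP μ (n + 1) j * f (k - j) - ∑' j, PP μ (n + 2) j * f (k - j) := fun n => by
      rw [← (hsumm _ k f hf0 hf2).tsum_sub (hsumm _ k f hf0 hf2)]
      exact tsum_congr fun j => by ring
    simp only [Set.mem_ofPred_eq, e1]
    refine sq_lower (fun n => ∑' j, PP μ n j * f (k - j)) n1 m hm lam ?_
    have u1 : ∑' j, PP μ (n1 + 1) j * f (k - j) ≤ 1 / (4 * (N : ℝ)) := by
      refine le_trans ?_ (hup k hk2)
      rw [← PP_pair h0 h1 hN H (ind_periodic N)]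
      exact (hsumm _ k f hf0 hf2).tsum_le_tsum
        (fun j => mul_le_mul_of_nonneg_left (hf1 _) ((hP _).1 j))
        (hsumm _ k _ (ind_nonneg N) (ind_le_one N))
    have u2 : 1 / (2 * (N : ℝ)) ≤ ∑' j, PP μ (n1 + m + 1) j * f (k - j) := by
      have v1 := hlow k
      rw [← PP_pair h0 h1 hN H (ind_periodic N)] at v1
      have v2 : HasSum (fun j => if j ∈ S then PP μ (n1 + m + 1) j else 0)
          (∑ j ∈ S, PP μ (n1 + m + 1) j) := by
        have := hasSum_sum_of_ne_finset_zero (L := SummationFilter.unconditional ℤ) (s := S)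
          (f := fun j => if j ∈ S then PP μ (n1 + m + 1) j else 0) (fun j hj => if_neg hj)
        rwa [Finset.sum_congr rfl fun j hj => if_pos hj] at this
      have v3 := ((hsumm (n1 + m + 1) k f hf0 hf2).hasSum.add (hP (n1 + m + 1)).2).sub v2
      have v4 := hasSum_le (fun j => ?_)
        (hsumm (n1 + m + 1) k _ (ind_nonneg N) (ind_le_one N)).hasSum v3
      · have : 3 / (4 * (N : ℝ)) - 1 / (4 * (N : ℝ)) = 1 / (2 * (N : ℝ)) := by
          field_simp; ring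
        linarith
      · have w0 := (hP (n1 + m + 1)).1 j
        split_ifs with hj
        · have hjI : k - j ∈ I := by
            have := abs_le.mp (hH j hj)
            rw [hI', Finset.mem_Ico]; omega
          simp [hf, hjI]
        · have w1 := mul_le_of_le_one_right w0 (ind_le_one N (k - j))
          have w2 := mul_nonneg w0 (hf0 (k - j))
          linarith
    have u3 : 1 / (4 * (N : ℝ)) ≤
        ∑' j, PP μ (n1 + m + 1) j * f (k - j) - ∑' j, PP μ (n1 + 1) j * f (k - j) := by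
      have : 1 / (2 * (N : ℝ)) - 1 / (4 * (N : ℝ)) = 1 / (4 * (N : ℝ)) := by
        field_simp; ring
      linarith
    have u4 := pow_le_pow_left₀ (by positivity) u3 2
    refine lt_of_lt_of_le ?_ (mul_le_mul_of_nonneg_left u4 (by positivity))
    rw [hlam]
    have : ((4 * A + 1) / N) ^ 2 * m = (16 * (4 * A + 1) ^ 2 * m) * (1 / (4 * (N : ℝ))) ^ 2 := by
      field_simp; ring
    rw [this]
    exact mul_lt_mul_of_pos_right hn (by positivity)
  have hcount := (MeasureTheory.measure_mono hsub).trans hI2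
  rw [MeasureTheory.Measure.count_apply_finset, hfs.tsum_eq, ← ENNReal.ofReal_natCast,
    ENNReal.ofReal_le_ofReal_iff (by
      have : 0 ≤ ∑ x ∈ I, |f x| := Finset.sum_nonneg fun _ _ => abs_nonneg _
      positivity)] at hcount
  have hc2 := Finset.card_filter_add_card_filter_not (s := Ico (0 : ℤ) W) good
  have hc3 : ((#{x ∈ Ico (0 : ℤ) W | good x} : ℕ) : ℝ) + (#{x ∈ Ico (0 : ℤ) W | ¬ good x} : ℕ) = W := by
    rw [← Nat.cast_add, hc2]; simp
  have hc4 := hgood W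
  have hc5 : A * (∑ x ∈ I, |f x|) / lam ≤ A * (2 * W / N) / lam := by gcongr
  have hc6 : A * (2 * W / N) / lam = 2 * A * W / (4 * A + 1) := by
    rw [hlam]; field_simp
  have hW0 : (0 : ℝ) < W := by linarith
  have hc7 : 2 * A * W / (4 * A + 1) < W / 2 := by
    rw [div_lt_div_iff₀ (by positivity) (by positivity)]
    nlinarith
  linarith

end Pool.Agent.H62Z.Sq
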