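import Pool.Agent.H62Z.SqAna

/-!
The recursive construction and its limit.
-/

set_option autoImplicit false

namespace Pool.Agent.H62Z.Sq

open Finset Filter Topology

lemma exists_params (Θ : ℕ) {c : ℝ} (hc : c < 1) :
    ∃ (m : ℕ) (r : ℝ), 0 < m ∧ 1 / 2 ≤ r ∧ r ≤ 1 ∧ r ^ m = 1 / 16 ∧ c ≤ r ^ (3 * 16 ^ Θ) := by
  have h1 : Tendsto (fun m : ℕ => (1 / 16 : ℝ) ^ ((m : ℝ)⁻¹)) atTop (𝓝 1) := by
    have h2 : Tendsto (fun m : ℕ => ((m : ℝ)⁻¹)) atTop (𝓝 0) := tendsto_inv_atTop_nhds_zero_nat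
    have h3 := (Real.continuousAt_const_rpow (a := 1 / 16) (b := 0) (by norm_num)).tendsto.comp h2
    rw [Real.rpow_zero] at h3
    exact h3
  have h4 := h1.pow (3 * 16 ^ Θ)
  rw [one_pow] at h4
  obtain ⟨m, hm1, hm2, hm3⟩ := ((h1.eventually (lt_mem_nhds (show (1 / 2 : ℝ) < 1 by norm_num))).and
    ((h4.eventually (lt_mem_nhds hc)).and (eventually_gt_atTop 0))).exists
  refine ⟨m, _, hm3, hm1.le, Real.rpow_le_one (by norm_num) (by norm_num) (by positivity), ?_,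
    hm2.le⟩
  exact Real.rpow_inv_natCast_pow (by norm_num) hm3.ne'

lemma step {l : GA} (hl : Pos l) (hm : Mass l) {M : ℕ} (hM : 0 < M) {c : ℝ} (hc : c < 1)
    {A : ℝ} (hA : 0 < A) :
    ∃ (v : GA) (N : ℕ), 0 < N ∧ Pos v ∧ Pos (v - c • 1) ∧ Mass v ∧
      (∀ t, ∃ y : ℝ, 0 ≤ y ∧ y ≤ 1 ∧ ft t v = y) ∧ red M v = 1 ∧
      ∀ μ : ℤ → ℝ, (∀ k, 0 ≤ μ k) → HasSum μ 1 →
        (∀ φ : ℤ → ℝ, Function.Periodic φ (N : ℤ) →
          ∀ k, ∑' i, μ i * φ (k - i) = act (l * v) φ k) → ¬ Ineq μ A := by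
  classical
  obtain ⟨Θ, hΘ⟩ := exists_nat_gt (16 * (4 * A + 1) ^ 2)
  have hΘ0 : 0 < Θ := by
    have : (0 : ℝ) < Θ := lt_of_le_of_lt (by positivity) hΘ
    exact_mod_cast this
  obtain ⟨m, r, hm0, hr0, hr1, hrm, hrc⟩ := exists_params Θ hc
  have hr0' : 0 ≤ r := by linarith
  set d := 3 * 16 ^ Θ with hd
  obtain ⟨n1, hn1⟩ : ∃ n1, n1 + 1 = Θ * m := ⟨Θ * m - 1, Nat.sub_add_cancel (Nat.mul_pos hΘ0 hm0)⟩
  set T := (l ^ (n1 + 1)).coeff.support with hT
  set L := 4 * d * T.card + M + 1 with hL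
  have hinf : {p : ℕ | p.Prime ∧ L ≤ p}.Infinite := by
    refine Set.infinite_of_forall_exists_gt fun a => ?_
    obtain ⟨p, hp1, hp2⟩ := Nat.exists_infinite_primes (a + L + 1)
    exact ⟨p, ⟨hp2, by omega⟩, by omega⟩
  obtain ⟨s, hs1, hs2⟩ := hinf.exists_subset_card_eq d
  have hs : ∀ p ∈ s, p.Prime ∧ M < p := fun p hp => ⟨(hs1 hp).1, by have := (hs1 hp).2; omega⟩
  set N : ℕ := ∏ p ∈ s, p with hN
  have hNpos : 0 < N := Finset.prod_pos fun p hp => (hs p hp).1.pos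
  have hN' : (0 : ℝ) < N := by exact_mod_cast hNpos
  have hpos := pos_prod_sub s (fun p => u p (QQ s M p)) (fun p _ => pos_u _ _) hr0' hr1
  refine ⟨nu s M r, N, hNpos, ?_, ?_, ?_, ?_, red_nu s M r hs, ?_⟩
  · exact pos_prod _ _ fun p _ => (pos_one.smul hr0').add ((pos_u _ _).smul (by linarith))
  · have := hpos.add (pos_one.smul (show 0 ≤ r ^ s.card - c by rw [hs2]; linarith))
    convert this using 1
    rw [nu]; module
  · exact mass_prod _ _ fun p hp => mass_comb (mass_u (hs p hp).1.pos _) r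
  · exact fun t => ft_prod s _ t (fun p hp => ft_u (hs p hp).1.pos _ t) hr0 hr1
  intro μ h0 h1 H
  have hq1 : r ^ (n1 + 1) = 1 / 16 ^ Θ := by rw [hn1, mul_comm, pow_mul, hrm]; simp
  have hq2 : r ^ (n1 + m + 1) = 1 / 16 ^ Θ * (1 / 16) := by
    rw [show n1 + m + 1 = n1 + 1 + m by ring, pow_add, hq1, hrm]
  have h16 : (1 : ℝ) ≤ 16 ^ Θ := one_le_pow₀ (by norm_num)
  have hdr : (d : ℝ) * (1 / 16 ^ Θ) = 3 := by rw [hd]; push_cast; field_simp
  have hq0 : (0 : ℝ) < 1 / 16 ^ Θ := by positivity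
  have hq1' : (1 : ℝ) / 16 ^ Θ ≤ 1 := by rw [div_le_one (by positivity)]; exact h16
  refine not_ineq h0 h1 hNpos H hA hm0 (n1 := n1) ?_
    (fun x => ∀ p ∈ s, ∀ j ∈ T, ¬ (p : ℤ) ∣ x - j) (d * T.card) ?_ ?_ ?_
  · have : ((n1 : ℝ) + 1) = Θ * m := by exact_mod_cast hn1
    rw [this]
    exact mul_lt_mul_of_pos_right hΘ (by exact_mod_cast hm0)
  · intro x
    refine le_trans ?_ (act_pow s M hM hs hr0' hr1 hl hm _ x).1
    rw [hq2, hs2, ← hN, ← div_div]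
    gcongr
    have := one_add_mul_le_pow (a := -(1 / 16 ^ Θ * (1 / 16) : ℝ)) (by linarith) d
    rw [← sub_eq_add_neg] at this
    refine le_trans ?_ this
    nlinarith
  · intro x hx
    rw [(act_pow s M hM hs hr0' hr1 hl hm _ x).2 hx, hq1, hs2, ← hN, ← div_div]
    gcongr
    have e1 := one_add_mul_le_pow (a := (1 / 16 ^ Θ : ℝ)) (by linarith) d
    rw [hdr] at e1
    have e2 : (1 - 1 / 16 ^ Θ : ℝ) ^ d * (1 + 1 / 16 ^ Θ) ^ d ≤ 1 := by
      rw [← mul_pow]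
      exact pow_le_one₀ (mul_nonneg (by linarith) (by linarith)) (by nlinarith)
    have e3 : (0 : ℝ) ≤ (1 - 1 / 16 ^ Θ : ℝ) ^ d := pow_nonneg (by linarith) _
    nlinarith
  · intro W
    have hsub : (Finset.filter (fun x => ¬ ∀ p ∈ s, ∀ j ∈ T, ¬ (p : ℤ) ∣ x - j) (Ico (0 : ℤ) W)) ⊆
        s.biUnion fun p => T.biUnion fun j =>
          Finset.filter (fun x => (p : ℤ) ∣ x - j) (Ico (0 : ℤ) W) := by
      intro x hx
      obtain ⟨hx1, hx2⟩ := Finset.mem_filter.mp hx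
      push Not at hx2
      obtain ⟨p, hp, j, hj, hx3⟩ := hx2
      exact mem_biUnion.mpr ⟨p, hp, mem_biUnion.mpr ⟨j, hj, mem_filter.mpr ⟨hx1, hx3⟩⟩⟩
    have h2 := (card_le_card hsub).trans
      (card_biUnion_le.trans (Finset.sum_le_sum fun p _ => card_biUnion_le))
    have h3 := (Nat.cast_le (α := ℝ)).mpr h2
    refine h3.trans ?_
    push_cast
    have hL0 : (0 : ℝ) < L := by rw [hL]; positivity
    have h4 : ∑ p ∈ s, ∑ j ∈ T, ((#{x ∈ Ico (0 : ℤ) W | (p : ℤ) ∣ x - j} : ℕ) : ℝ) ≤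
        ∑ p ∈ s, ∑ j ∈ T, ((W : ℝ) / L + 1) := by
      refine Finset.sum_le_sum fun p hp => Finset.sum_le_sum fun j _ => ?_
      refine (card_mod_le 0 W j (by positivity) (hs p hp).1.pos).trans ?_
      have : (L : ℝ) ≤ p := by exact_mod_cast (hs1 hp).2
      push_cast
      rw [sub_zero]
      gcongr
    refine h4.trans ?_
    simp only [sum_const, nsmul_eq_mul, hs2]
    have h5 : (4 : ℝ) * d * T.card ≤ L := by
      rw [hL]; push_cast
      have : (0 : ℝ) ≤ M := by positivity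
      linarith
    have h6 : (d : ℝ) * (T.card * (W / L)) ≤ W / 4 := by
      rw [← mul_assoc, ← mul_div_assoc, div_le_div_iff₀ hL0 (by norm_num)]
      have : (0 : ℝ) ≤ W := by positivity
      nlinarith
    linarith

/-- The first level. -/
noncomputable def base : GA := (1 / 4 : ℝ) • (e 1 + e (-1)) + (1 / 2 : ℝ) • 1

lemma pos_base : Pos base :=
  (((pos_e 1).add (pos_e (-1))).smul (by norm_num)).add (pos_one.smul (by norm_num))

lemma mass_base : Mass base := fun c => by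
  ext x
  simp only [base, map_add, map_smul, map_one, LinearMap.add_apply, LinearMap.smul_apply,
    Pi.add_apply, Pi.smul_apply, act_e, Module.End.one_apply, smul_eq_mul]
  ring

lemma ft_base (t : ℝ) : ft t base = (((1 + Real.cos t) / 2 : ℝ) : ℂ) := by
  rw [base, map_add, map_smul, map_smul, map_add, ft_e_add, map_one]
  simp; ring

/-- Normalising constants. -/
noncomputable def aa (K : ℕ) : ℝ := 1 - (1 / 2) ^ (K + 1)

lemma aa_pos (K : ℕ) : 0 < aa K := by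
  have : (1 / 2 : ℝ) ^ (K + 1) < 1 := pow_lt_one₀ (by norm_num) (by norm_num) (by omega)
  unfold aa; linarith

lemma aa_lt (K : ℕ) : aa K < aa (K + 1) := by
  have : (0 : ℝ) < (1 / 2) ^ (K + 1) := by positivity
  unfold aa; rw [pow_succ _ (K + 1)]; linarith

lemma aa_le_one (K : ℕ) : aa K ≤ 1 := by
  have : (0 : ℝ) < (1 / 2) ^ (K + 1) := by positivity
  unfold aa; linarith

lemma aa_tendsto : Tendsto aa atTop (𝓝 1) := by
  have h := (tendsto_pow_atTop_nhds_zero_of_lt_one (r := (1 / 2 : ℝ)) (by norm_num)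
    (by norm_num)).comp (tendsto_add_atTop_nat 1)
  have h2 := h.const_sub 1
  rw [sub_zero] at h2
  exact h2

lemma exists_seq : ∃ (ρ : ℕ → GA) (N : ℕ → ℕ),
    (∀ K, Pos (ρ K) ∧ Mass (ρ K) ∧
      ∀ t, ∃ y : ℝ, 0 ≤ y ∧ y ≤ (1 + Real.cos t) / 2 ∧ ft t (ρ K) = y) ∧
    (∀ K, Pos (aa (K + 1) • ρ (K + 1) - aa K • ρ K)) ∧
    (∀ K, ∀ φ : ℤ → ℝ, Function.Periodic φ (N K : ℤ) → ∀ K', K + 1 ≤ K' →
      act (ρ K') φ = act (ρ (K + 1)) φ) ∧
    (∀ K, 0 < N K) ∧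
    ∀ K, ∀ μ : ℤ → ℝ, (∀ k, 0 ≤ μ k) → HasSum μ 1 →
      (∀ φ : ℤ → ℝ, Function.Periodic φ (N K : ℤ) →
        ∀ k, ∑' i, μ i * φ (k - i) = act (ρ (K + 1)) φ k) → ¬ Ineq μ (K + 1) := by
  let St := {x : GA × ℕ // Pos x.1 ∧ Mass x.1 ∧ 0 < x.2}
  have hstep := fun (K : ℕ) (x : St) => step x.2.1 x.2.2.1 x.2.2.2
    (c := aa K / aa (K + 1)) ((div_lt_one (aa_pos _)).mpr (aa_lt K))
    (A := (K : ℝ) + 1) (by positivity)
  choose v N hN hv hvc hvm hvf hvr hvI using hstep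
  let sq : ℕ → St := fun K => Nat.rec ⟨(base, 1), pos_base, mass_base, one_pos⟩
    (fun K x => ⟨(x.1.1 * v K x, x.1.2 * N K x), x.2.1.mul (hv K x), x.2.2.1.mul (hvm K x),
      Nat.mul_pos x.2.2.2 (hN K x)⟩) K
  have h1 : ∀ K, (sq (K + 1)).1.1 = (sq K).1.1 * v K (sq K) := fun K => rfl
  have h2 : ∀ K, (sq (K + 1)).1.2 = (sq K).1.2 * N K (sq K) := fun K => rfl
  refine ⟨fun K => (sq K).1.1, fun K => N K (sq K), fun K => ⟨(sq K).2.1, (sq K).2.2.1, ?_⟩,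
    fun K => ?_, fun K φ hφ K' hK' => ?_, fun K => hN _ _, fun K => hvI K (sq K)⟩
  · intro t
    induction K with
    | zero => exact ⟨_, by linarith [Real.neg_one_le_cos t], le_rfl, ft_base t⟩
    | succ K ih =>
      obtain ⟨y, hy0, hy1, hy⟩ := ih
      obtain ⟨z, hz0, hz1, hz⟩ := hvf K (sq K) t
      refine ⟨y * z, by positivity, by nlinarith, ?_⟩
      show ft t (sq (K + 1)).1.1 = _
      rw [h1, map_mul, hz]
      erw [hy]
      push_cast; rfl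
  · have := ((sq K).2.1.mul (hvc K (sq K))).smul (aa_pos (K + 1)).le
    convert this using 1
    show aa (K + 1) • (sq (K + 1)).1.1 - aa K • (sq K).1.1 = _
    rw [h1, mul_sub, smul_sub, mul_smul_comm, mul_one, smul_smul,
      mul_div_cancel₀ _ (aa_pos (K + 1)).ne']
  · have h3 : ∀ K', K + 1 ≤ K' → N K (sq K) ∣ (sq K').1.2 := by
      intro K' hK'
      induction K', hK' using Nat.le_induction with
      | base => rw [h2]; exact Dvd.intro_left _ rfl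
      | succ K' _ ih => rw [h2]; exact Dvd.dvd.mul_right ih _
    induction K', hK' using Nat.le_induction with
    | base => rfl
    | succ K' hK' ih =>
      rw [← ih]
      show act (sq (K' + 1)).1.1 φ = act (sq K').1.1 φ
      obtain ⟨c, hc⟩ := h3 K' hK'
      have hφ' : Function.Periodic φ ((sq K').1.2 : ℤ) := by
        rw [hc, mul_comm]; push_cast
        exact hφ.nat_mul c
      have h4 := act_eq_of_red ((hvr K' (sq K')).trans (map_one _).symm) hφ'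
      rw [h1, act_mul, h4, map_one]; rfl

lemma exists_limit (ρ : ℕ → GA) (hρ : ∀ K, Pos (ρ K) ∧ Mass (ρ K))
    (hmono : ∀ K, Pos (aa (K + 1) • ρ (K + 1) - aa K • ρ K)) :
    ∃ μ : ℤ → ℝ, (∀ k, 0 ≤ μ k) ∧ HasSum μ 1 ∧ ∀ K j, aa K * (ρ K).coeff j ≤ μ j := by
  have hs : ∀ K, HasSum (fun j => aa K * (ρ K).coeff j) (aa K) := fun K => by
    simpa using (hρ K).2.hasSum.mul_left (aa K)
  have h0 : ∀ K j, 0 ≤ aa K * (ρ K).coeff j := fun K j =>
    mul_nonneg (aa_pos K).le ((hρ K).1.coeff j)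
  have hm : ∀ j, Monotone fun K => aa K * (ρ K).coeff j := fun j =>
    monotone_nat_of_le_succ fun K => by
      have := (hmono K).coeff j
      simp only [AddMonoidAlgebra.coeff_sub, AddMonoidAlgebra.coeff_smul, Finsupp.coe_sub,
        Finsupp.coe_smul, Pi.sub_apply, Pi.smul_apply, smul_eq_mul] at this
      linarith
  have hb : ∀ j, BddAbove (Set.range fun K => aa K * (ρ K).coeff j) := fun j =>
    ⟨1, by
      rintro _ ⟨K, rfl⟩
      exact (le_hasSum (hs K) j fun i _ => h0 K i).trans (aa_le_one K)⟩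
  have hle : ∀ K j, aa K * (ρ K).coeff j ≤ ⨆ K, aa K * (ρ K).coeff j := fun K j =>
    le_ciSup (hb j) K
  have hμ0 : ∀ j, 0 ≤ ⨆ K, aa K * (ρ K).coeff j := fun j => (h0 0 j).trans (hle 0 j)
  have hfin : ∀ S : Finset ℤ, ∑ j ∈ S, ⨆ K, aa K * (ρ K).coeff j ≤ 1 := fun S => by
    have ht := tendsto_finsetSum S fun j _ => tendsto_atTop_ciSup (hm j) (hb j)
    exact le_of_tendsto' ht fun K =>
      (sum_le_hasSum S (fun i _ => h0 K i) (hs K)).trans (aa_le_one K)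
  have hsum := summable_of_sum_le hμ0 hfin
  refine ⟨fun j => ⨆ K, aa K * (ρ K).coeff j, hμ0, ?_, hle⟩
  have h1 : ∑' j, ⨆ K, aa K * (ρ K).coeff j = 1 :=
    le_antisymm (hsum.tsum_le_of_sum_le hfin)
      (le_of_tendsto' aa_tendsto fun K => hasSum_le (hle K) (hs K) hsum.hasSum)
  exact h1 ▸ hsum.hasSum

lemma tendsto_pair {E : Type*} [NormedAddCommGroup E] [NormedSpace ℝ E] [CompleteSpace E]
    (ρ : ℕ → GA) (hρ : ∀ K, Pos (ρ K) ∧ Mass (ρ K)) {μ : ℤ → ℝ} (h0 : ∀ k, 0 ≤ μ k)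
    (h1 : HasSum μ 1) (hle : ∀ K j, aa K * (ρ K).coeff j ≤ μ j) {ψ : ℤ → E} {B : ℝ}
    (hψ : ∀ j, ‖ψ j‖ ≤ B) {z : ℕ → E} (hz : ∀ K, HasSum (fun j => (ρ K).coeff j • ψ j) (z K)) :
    Tendsto (fun K => aa K • z K) atTop (𝓝 (∑' j, μ j • ψ j)) := by
  have hs : Summable fun j => μ j • ψ j :=
    Summable.of_norm_bounded (h1.summable.mul_right B) fun j => by
      rw [norm_smul, Real.norm_eq_abs, abs_of_nonneg (h0 j)]
      exact mul_le_mul_of_nonneg_left (hψ j) (h0 j)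
  rw [tendsto_iff_norm_sub_tendsto_zero]
  have hlim : Tendsto (fun K => (1 - aa K) * B) atTop (𝓝 0) := by
    simpa using (aa_tendsto.const_sub 1).mul_const B
  refine squeeze_zero (fun _ => norm_nonneg _) (fun K => ?_) hlim
  have h2 := ((hz K).const_smul (aa K)).sub hs.hasSum
  have h3 : HasSum (fun j => (μ j - aa K * (ρ K).coeff j) * B) ((1 - aa K) * B) := by
    simpa using (h1.sub ((hρ K).2.hasSum.mul_left (aa K))).mul_right B
  refine h2.norm_le_of_bounded h3 fun j => ?_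
  rw [smul_smul, ← sub_smul, norm_smul, Real.norm_eq_abs, abs_sub_comm,
    abs_of_nonneg (sub_nonneg.mpr (hle K j))]
  exact mul_le_mul_of_nonneg_left (hψ j) (sub_nonneg.mpr (hle K j))

theorem main : ∃ μ : ℤ → ℝ, (∀ k, 0 ≤ μ k) ∧ HasSum μ 1 ∧
    (∀ t : ℝ, ∃ y : ℝ, 0 ≤ y ∧ y ≤ (1 + Real.cos t) / 2 ∧
      ∑' k : ℤ, (μ k : ℂ) * Complex.exp (((t * (k : ℝ) : ℝ) : ℂ) * Complex.I) = y) ∧
    ∀ A : ℝ, ¬ Ineq μ A := by
  obtain ⟨ρ, N, h1, h2, h3, h4, h5⟩ := exists_seq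
  have hρ : ∀ K, Pos (ρ K) ∧ Mass (ρ K) := fun K => ⟨(h1 K).1, (h1 K).2.1⟩
  obtain ⟨μ, h0, hs, hle⟩ := exists_limit ρ hρ h2
  refine ⟨μ, h0, hs, fun t => ?_, fun A hI => ?_⟩
  · have ht := tendsto_pair ρ hρ h0 hs hle (B := 1)
      (ψ := fun j : ℤ => Complex.exp (((t * (j : ℝ) : ℝ) : ℂ) * Complex.I))
      (fun j => (Complex.norm_exp_ofReal_mul_I _).le) (fun K => hasSum_ft t (ρ K))
    have hcl : IsClosed ((fun y : ℝ => (y : ℂ)) '' Set.Icc 0 ((1 + Real.cos t) / 2)) :=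
      (isCompact_Icc.image Complex.continuous_ofReal).isClosed
    obtain ⟨y, hy, hy2⟩ := hcl.mem_of_tendsto ht (Eventually.of_forall fun K => by
      obtain ⟨y, hy0, hy1, hy⟩ := (h1 K).2.2 t
      refine ⟨aa K * y, ⟨mul_nonneg (aa_pos K).le hy0, ?_⟩, by rw [hy]; simp⟩
      exact (mul_le_of_le_one_left hy0 (aa_le_one K)).trans hy1)
    refine ⟨y, hy.1, hy.2, ?_⟩
    simpa using hy2.symm
  · obtain ⟨K, hK⟩ := exists_nat_ge A
    refine h5 K μ h0 hs (fun φ hφ k => ?_) fun f hf lam hlam => (hI f hf lam hlam).trans ?_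
    · obtain ⟨B, hB⟩ := periodic_bdd (h4 K) hφ
      have ht := tendsto_pair ρ hρ h0 hs hle (ψ := fun j => φ (k - j)) (fun j => hB _)
        (fun K => hasSum_act (ρ K) φ k)
      have ht2 : Tendsto (fun K' => aa K' • act (ρ K') φ k) atTop (𝓝 (act (ρ (K + 1)) φ k)) := by
        have := aa_tendsto.mul_const (act (ρ (K + 1)) φ k)
        rw [one_mul] at this
        refine this.congr' ?_
        filter_upwards [eventually_ge_atTop (K + 1)] with K' hK'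
        rw [h3 K φ hφ K' hK', smul_eq_mul]
      exact tendsto_nhds_unique ht ht2
    · refine ENNReal.ofReal_le_ofReal ?_
      have : 0 ≤ ∑' k, |f k| := tsum_nonneg fun _ => abs_nonneg _
      gcongr
      linarith

end Pool.Agent.H62Z.Sq
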