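import Pool.Agent.H62Z.SqAlg

/-!
One level of the construction: a product of lazy averages over subgroups of prime order.
-/

set_option autoImplicit false

namespace Pool.Agent.H62Z.Sq

open Finset

/-- Indicator function of the multiples of `N`. -/
noncomputable def ind (N : ℤ) : ℤ → ℝ := fun x => if N ∣ x then 1 else 0

lemma ind_nonneg (N x : ℤ) : 0 ≤ ind N x := by unfold ind; split_ifs <;> norm_num

lemma ind_le_one (N x : ℤ) : ind N x ≤ 1 := by unfold ind; split_ifs <;> norm_num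

lemma ind_periodic (N : ℤ) : Function.Periodic (ind N) N := fun x => by
  simp [ind]

lemma sum_ind {N : ℕ} (hN : 0 < N) (y : ℤ) : ∑ x ∈ range N, ind N (y - x) = 1 := by
  have hN' : (0 : ℤ) < N := by exact_mod_cast hN
  have h0 : 0 ≤ y % N := Int.emod_nonneg _ hN'.ne'
  have h1 : y % N < N := Int.emod_lt_of_pos _ hN'
  rw [Finset.sum_eq_single (y % N).toNat]
  · have : (N : ℤ) ∣ y - ((y % N).toNat : ℤ) := by
      rw [Int.toNat_of_nonneg h0]
      exact Int.dvd_self_sub_of_emod_eq rfl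
    simp only [ind, if_pos this]
  · intro b hb hne
    have hb' : (b : ℤ) < N := by exact_mod_cast mem_range.mp hb
    have : ¬ (N : ℤ) ∣ y - b := by
      intro hd
      apply hne
      have h2 : y % N = (b : ℤ) % N :=
        Int.emod_eq_emod_iff_emod_sub_eq_zero.mpr (Int.emod_eq_zero_of_dvd hd)
      rw [Int.emod_eq_of_lt (by positivity) hb'] at h2
      rw [h2]; simp
    simp only [ind, if_neg this]
  · intro h
    exfalso; apply h
    rw [mem_range]; omega

lemma pos_prod_sub {ι : Type*} (s : Finset ι) (w : ι → GA) (hw : ∀ i ∈ s, Pos (w i)) {r : ℝ}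
    (h0 : 0 ≤ r) (h1 : r ≤ 1) :
    Pos (∏ i ∈ s, (r • (1 : GA) + (1 - r) • w i) - r ^ s.card • 1) := by
  classical
  induction s using Finset.induction_on with
  | empty => simpa using pos_zero
  | insert a s ha ih =>
    rw [prod_insert ha, card_insert_of_notMem ha]
    have ih' := ih fun i hi => hw i (mem_insert_of_mem hi)
    have hP : Pos (∏ i ∈ s, (r • (1 : GA) + (1 - r) • w i)) :=
      pos_prod _ _ fun i hi => (pos_one.smul h0).add
        ((hw i (mem_insert_of_mem hi)).smul (by linarith))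
    have := (ih'.smul h0).add
      (((hw a (mem_insert_self _ _)).mul hP).smul (show 0 ≤ 1 - r by linarith))
    convert this using 1
    simp only [add_mul, smul_mul_assoc, one_mul, pow_succ]
    module

lemma mass_comb {w : GA} (hw : Mass w) (r : ℝ) : Mass (r • (1 : GA) + (1 - r) • w) := fun c => by
  rw [map_add, map_smul, map_smul, map_one]
  ext x
  show r * c + (1 - r) * act w (fun _ => c) x = c
  rw [hw]; ring

lemma ft_prod {ι : Type*} (s : Finset ι) (w : ι → GA) (t : ℝ)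
    (hw : ∀ i ∈ s, ∃ y : ℝ, -1 ≤ y ∧ y ≤ 1 ∧ ft t (w i) = y) {r : ℝ} (h0 : 1 / 2 ≤ r) (h1 : r ≤ 1) :
    ∃ y : ℝ, 0 ≤ y ∧ y ≤ 1 ∧ ft t (∏ i ∈ s, (r • (1 : GA) + (1 - r) • w i)) = y := by
  refine Finset.prod_induction _ (fun a => ∃ y : ℝ, 0 ≤ y ∧ y ≤ 1 ∧ ft t a = y) ?_ ?_ ?_
  · rintro a b ⟨y, hy0, hy1, hy⟩ ⟨z, hz0, hz1, hz⟩
    exact ⟨y * z, by positivity, by nlinarith, by rw [map_mul, hy, hz]; push_cast; rfl⟩
  · exact ⟨1, by norm_num, le_rfl, by simp⟩
  · intro i hi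
    obtain ⟨y, hy0, hy1, hy⟩ := hw i hi
    refine ⟨r + (1 - r) * y, by nlinarith, by nlinarith, ?_⟩
    rw [map_add, map_smul, map_smul, map_one, hy]
    simp

lemma expand_prod (s : Finset ℕ) (Q : ℕ → ℤ) (hQ : ∀ p ∈ s, ∀ p' ∈ s, p ≠ p' → (p' : ℤ) ∣ Q p)
    {q : ℝ} (h0 : 0 ≤ q) (h1 : q ≤ 1) :
    ∃ R : GA, Pos R ∧ Supp R {y | ∃ p ∈ s, (p : ℤ) ∣ y} ∧
      ∏ p ∈ s, (q • (1 : GA) + (1 - q) • u p (Q p)) = (1 - q) ^ s.card • ∏ p ∈ s, u p (Q p) + R := by
  classical
  induction s using Finset.induction_on with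
  | empty => exact ⟨0, pos_zero, supp_zero _, by simp⟩
  | insert a s ha ih =>
    obtain ⟨R, hR, hS, hE⟩ := ih fun p hp p' hp' hne =>
      hQ p (mem_insert_of_mem hp) p' (mem_insert_of_mem hp') hne
    have hq : 0 ≤ 1 - q := by linarith
    have hU : Pos (∏ p ∈ s, u p (Q p)) := pos_prod _ _ fun p _ => pos_u _ _
    have hUs : Supp (∏ p ∈ s, u p (Q p)) {y | (a : ℤ) ∣ y} := by
      refine Finset.prod_induction _ (fun b => Supp b {y | (a : ℤ) ∣ y}) ?_ ?_ ?_
      · intro b c hb hc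
        exact hb.mul hc fun i hi j hj => dvd_add hi hj
      · exact supp_one (dvd_zero _)
      · intro p hp
        refine supp_u _ _ (hQ p (mem_insert_of_mem hp) a (mem_insert_self _ _) ?_)
        rintro rfl; exact ha hp
    refine ⟨(q * (1 - q) ^ s.card) • ∏ p ∈ s, u p (Q p) + (q • R + (1 - q) • (u a (Q a) * R)),
      (hU.smul (by positivity)).add ((hR.smul h0).add (((pos_u _ _).mul hR).smul hq)), ?_, ?_⟩
    · refine (Supp.smul (hUs.mono ?_) _).add ((Supp.smul (hS.mono ?_) _).add (Supp.smul ?_ _))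
      · intro y hy; exact ⟨a, mem_insert_self _ _, hy⟩
      · rintro y ⟨p, hp, hy⟩; exact ⟨p, mem_insert_of_mem hp, hy⟩
      · refine (supp_u a (Q a) (dvd_refl (Q a))).mul hS ?_
        rintro i hi j ⟨p, hp, hj⟩
        refine ⟨p, mem_insert_of_mem hp, dvd_add (dvd_trans ?_ hi) hj⟩
        refine hQ a (mem_insert_self _ _) p (mem_insert_of_mem hp) ?_
        rintro rfl; exact ha hp
    · rw [prod_insert ha, prod_insert ha, card_insert_of_notMem ha, hE]
      simp only [add_mul, mul_add, smul_mul_assoc, mul_smul_comm, one_mul, pow_succ]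
      module

/-- The step sizes. -/
def QQ (s : Finset ℕ) (M : ℕ) (p : ℕ) : ℤ := (M : ℤ) * ∏ p' ∈ s.erase p, (p' : ℤ)

lemma QQ_dvd (s : Finset ℕ) (M : ℕ) {p p' : ℕ} (hp' : p' ∈ s) (hne : p ≠ p') :
    (p' : ℤ) ∣ QQ s M p :=
  Dvd.dvd.mul_left (Finset.dvd_prod_of_mem _ (mem_erase.mpr ⟨hne.symm, hp'⟩)) _

lemma dvd_mul_QQ (s : Finset ℕ) (M : ℕ) {p : ℕ} (hp : p ∈ s) :
    ((∏ p ∈ s, p : ℕ) : ℤ) ∣ p * QQ s M p := by
  rw [QQ, mul_left_comm, Finset.mul_prod_erase s (fun p : ℕ => (p : ℤ)) hp]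
  push_cast
  exact Dvd.intro_left _ rfl

lemma act_U (s : Finset ℕ) (M : ℕ) (hM : 0 < M) (hs : ∀ p ∈ s, p.Prime ∧ M < p) (x : ℤ) :
    act (∏ p ∈ s, u p (QQ s M p)) (ind (∏ p ∈ s, p : ℕ)) x = 1 / ((∏ p ∈ s, p : ℕ) : ℝ) := by
  classical
  set N : ℕ := ∏ p ∈ s, p with hN
  have hNpos : 0 < N := Finset.prod_pos fun p hp => (hs p hp).1.pos
  set U := ∏ p ∈ s, u p (QQ s M p) with hU
  let H : AddSubgroup ℤ :=
    { carrier := {j | red N (e j) * red N U = red N U}
      zero_mem' := by simp [e_zero]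
      add_mem' := by
        intro i j hi hj
        simp only [Set.mem_ofPred_eq] at *
        rw [e_add, map_mul, mul_assoc, hj, hi]
      neg_mem' := by
        intro i hi
        simp only [Set.mem_ofPred_eq] at *
        conv_lhs => rw [← hi]
        rw [← mul_assoc, ← map_mul, ← e_add, neg_add_cancel, e_zero, map_one, one_mul] }
  have hQH : ∀ p ∈ s, QQ s M p ∈ H := by
    intro p hp
    show red N (e _) * red N U = red N U
    rw [hU, ← Finset.mul_prod_erase s _ hp, map_mul, ← mul_assoc,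
      red_e_mul_u (dvd_mul_QQ s M hp)]
  have hNH : (N : ℤ) ∈ H := by
    show red N (e _) * red N U = red N U
    rw [red_e, one_mul]
  obtain ⟨g, hg⟩ := Int.subgroup_cyclic H
  have hdiv : ∀ j ∈ H, g ∣ j := by
    intro j hj
    rw [hg, ← AddSubgroup.zmultiples_eq_closure] at hj
    exact Int.mem_zmultiples_iff.mp hj
  have hg1 : g.natAbs = 1 := by
    by_contra hne
    obtain ⟨r, hr, hrg⟩ := Nat.exists_prime_and_dvd hne
    have hrg' : (r : ℤ) ∣ g := Int.natCast_dvd.mpr hrg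
    have h1 : r ∣ N := Int.natCast_dvd_natCast.mp (hrg'.trans (hdiv _ hNH))
    obtain ⟨p, hp, hrp⟩ := (Prime.dvd_finsetProd_iff hr.prime _).mp h1
    have hrp' : r = p := (Nat.prime_dvd_prime_iff_eq hr (hs p hp).1).mp hrp
    subst hrp'
    have h2 : (r : ℤ) ∣ QQ s M r := hrg'.trans (hdiv _ (hQH r hp))
    rw [QQ, ← Nat.cast_prod, ← Nat.cast_mul, Int.natCast_dvd_natCast] at h2
    rcases (Nat.Prime.dvd_mul hr).mp h2 with h3 | h3
    · exact absurd (Nat.le_of_dvd hM h3) (not_le.mpr (hs r hp).2)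
    · obtain ⟨p', hp', hrp'⟩ := (Prime.dvd_finsetProd_iff hr.prime _).mp h3
      have := (Nat.prime_dvd_prime_iff_eq hr (hs p' (mem_of_mem_erase hp')).1).mp hrp'
      exact (ne_of_mem_erase hp') this.symm
  have hall : ∀ j : ℤ, red N (e j) * red N U = red N U := by
    intro j
    have : j ∈ H := by
      rw [hg, ← AddSubgroup.zmultiples_eq_closure, Int.mem_zmultiples_iff]
      exact Int.natAbs_dvd.mp (by rw [hg1]; simp)
    exact this
  have hmass : Mass U := mass_prod _ _ fun p hp => mass_u (hs p hp).1.pos _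
  have h1 : red N (U * ∑ x ∈ range N, e x) = red N ((N : ℝ) • U) := by
    rw [map_mul, map_sum, Finset.mul_sum, map_smul]
    simp only [mul_comm (red N U), hall, sum_const, card_range]
    rw [Nat.cast_smul_eq_nsmul]
  have h2 := act_eq_of_red h1 (ind_periodic N)
  have h3 : act (∑ x ∈ range N, e x) (ind N) = fun _ => 1 := by
    ext y
    rw [map_sum, LinearMap.sum_apply, Finset.sum_apply]
    simp only [act_e]
    exact sum_ind hNpos y
  rw [act_mul, h3, hmass, map_smul] at h2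
  have h4 := congrFun h2 x
  have hN' : (0 : ℝ) < N := by exact_mod_cast hNpos
  rw [eq_div_iff hN'.ne', mul_comm]
  exact h4.symm

/-- The measure of one level. -/
noncomputable def nu (s : Finset ℕ) (M : ℕ) (r : ℝ) : GA :=
  ∏ p ∈ s, (r • (1 : GA) + (1 - r) • u p (QQ s M p))

lemma red_nu (s : Finset ℕ) (M : ℕ) (r : ℝ) (hs : ∀ p ∈ s, p.Prime ∧ M < p) :
    red M (nu s M r) = 1 := by
  rw [nu, map_prod]
  refine Finset.prod_eq_one fun p hp => ?_
  rw [map_add, map_smul, map_smul, map_one,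
    red_u_of_dvd (hs p hp).1.pos (Dvd.intro _ rfl : (M : ℤ) ∣ QQ s M p), ← add_smul]
  simp

lemma act_pow (s : Finset ℕ) (M : ℕ) (hM : 0 < M) (hs : ∀ p ∈ s, p.Prime ∧ M < p) {r : ℝ}
    (h0 : 0 ≤ r) (h1 : r ≤ 1) {l : GA} (hl : Pos l) (hm : Mass l) (n : ℕ) (x : ℤ) :
    (1 - r ^ n) ^ s.card / ((∏ p ∈ s, p : ℕ) : ℝ) ≤
        act ((l * nu s M r) ^ n) (ind (∏ p ∈ s, p : ℕ)) x ∧
      ((∀ p ∈ s, ∀ j ∈ (l ^ n).coeff.support, ¬ (p : ℤ) ∣ x - j) →
        act ((l * nu s M r) ^ n) (ind (∏ p ∈ s, p : ℕ)) x =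
          (1 - r ^ n) ^ s.card / ((∏ p ∈ s, p : ℕ) : ℝ)) := by
  set N : ℕ := ∏ p ∈ s, p with hN
  obtain ⟨R, hR, hS, hE⟩ := expand_prod s (QQ s M) (fun p _ p' hp' hne => QQ_dvd s M hp' hne)
    (pow_nonneg h0 n) (pow_le_one₀ h0 h1 : r ^ n ≤ 1)
  have hred : red N (nu s M r ^ n) =
      red N ((1 - r ^ n) ^ s.card • ∏ p ∈ s, u p (QQ s M p) + R) := by
    rw [← hE, nu, map_pow, map_prod, map_prod, ← Finset.prod_pow]
    refine Finset.prod_congr rfl fun p hp => ?_
    simp only [map_add, map_smul, map_one]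
    exact idem_pow (red_u_mul_of_inv (hs p hp).1.pos (red_e_mul_u (dvd_mul_QQ s M hp))) r n
  have hU : act (∏ p ∈ s, u p (QQ s M p)) (ind N) = fun _ => 1 / (N : ℝ) :=
    funext fun y => act_U s M hM hs y
  have key : act ((l * nu s M r) ^ n) (ind N) x =
      (1 - r ^ n) ^ s.card / (N : ℝ) + act (l ^ n * R) (ind N) x := by
    rw [mul_pow, act_mul, act_eq_of_red hred (ind_periodic N), map_add, map_smul,
      LinearMap.add_apply, LinearMap.smul_apply, hU, map_add, map_smul, hm.pow n, act_mul]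
    simp [div_eq_mul_inv]
  rw [key]
  refine ⟨le_add_of_nonneg_right (((hl.pow n).mul hR) _ (ind_nonneg N) x), fun hx => ?_⟩
  rw [add_eq_left, act_mul]
  refine supp_support _ _ _ fun j hj => hS _ _ ?_
  rintro y ⟨p, hp, hy⟩
  have : ¬ (N : ℤ) ∣ x - j - y := by
    intro hd
    have hpN : (p : ℤ) ∣ (N : ℤ) := Int.natCast_dvd_natCast.mpr (Finset.dvd_prod_of_mem _ hp)
    have := dvd_add (hpN.trans hd) hy
    rw [sub_add_cancel] at this
    exact hx p hp j hj this
  simp only [ind, if_neg this]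

end Pool.Agent.H62Z.Sq
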